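import Pool.Agent.CF3.Basic

/-!
# The theorem `uncountable_of_closed`
-/

namespace CF3

open Set

/-- Neither of the two words is a prefix of the other. -/
def Inc (s t : List ℕ) : Prop := ¬ s <+: t ∧ ¬ t <+: s

/-! ## Digits -/

lemma app_mem_Ioo {w : List ℕ} (h : Pos w) {t : ℝ} (h0 : 0 < t) (h1 : t < 1) :
    0 < app w t ∧ app w t < 1 := by
  refine ⟨app_pos h h0, ?_⟩
  cases w with
  | nil => exact h1
  | cons a w =>
    have h2 := app_pos h.cons.2 h0
    have h3 : (1:ℝ) ≤ a := by exact_mod_cast h.cons.1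
    simp only [app]
    rw [div_lt_one (by linarith)]
    linarith

lemma gauss_app {a : ℕ} {w : List ℕ} {t : ℝ} (h0 : 0 < app w t) (h1 : app w t < 1) :
    gauss (app (a :: w) t) = app w t := by
  unfold gauss
  simp only [app, one_div_one_div]
  rw [Int.fract_natCast_add]
  exact Int.fract_eq_self.2 ⟨h0.le, h1⟩

lemma floor_app {a : ℕ} {w : List ℕ} {t : ℝ} (h0 : 0 < app w t) (h1 : app w t < 1) :
    ⌊1 / app (a :: w) t⌋ = a := by
  simp only [app, one_div_one_div]
  rw [Int.floor_eq_iff]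
  push_cast
  constructor <;> linarith

lemma digit_app {w : List ℕ} (h : Pos w) {t : ℝ} (h0 : 0 < t) (h1 : t < 1) (i : ℕ)
    (hi : i < w.length) : digit (app w t) (i + 1) = w[i] := by
  induction w generalizing i with
  | nil => simp at hi
  | cons a w ih =>
    obtain ⟨h2, h3⟩ := app_mem_Ioo h.cons.2 h0 h1
    cases i with
    | zero =>
      unfold digit
      simp only [zero_add, Nat.sub_self, Function.iterate_zero, id_eq]
      rw [floor_app h2 h3]
      simp
    | succ i =>
      have h4 := ih h.cons.2 i (by simpa using hi)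
      unfold digit at h4 ⊢
      simp only [Nat.add_sub_cancel, Function.iterate_succ, Function.comp] at h4 ⊢
      rw [gauss_app h2 h3, h4]
      simp

/-- A rational number `p / q` has no expansion of length `≥ q`. -/
lemma rat_len {w : List ℕ} (h : Pos w) {t : ℝ} (h0 : 0 < t) (h1 : t < 1) (p q : ℕ) (hq : 0 < q)
    (he : app w t = (p : ℝ) / q) : w.length < q := by
  induction w generalizing p q with
  | nil => simpa using hq
  | cons a w ih =>
    obtain ⟨h2, h3⟩ := app_mem_Ioo h.cons.2 h0 h1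
    obtain ⟨h4, h5⟩ := app_mem_Ioo h h0 h1
    have hq' : (0:ℝ) < q := by exact_mod_cast hq
    have hp : 0 < p := by
      rcases Nat.eq_zero_or_pos p with hp | hp
      · subst hp; rw [he] at h4; simp at h4
      · exact hp
    have hp' : (0:ℝ) < p := by exact_mod_cast hp
    have hpq : p < q := by
      rw [he, div_lt_one hq'] at h5
      exact_mod_cast h5
    have h6 : app w t = (q : ℝ) / p - a := by
      simp only [app] at he
      have h7 : (0:ℝ) < a + app w t := by positivity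
      have h8 : (a:ℝ) + app w t = q / p := by
        rw [div_eq_div_iff h7.ne' hq'.ne'] at he
        rw [eq_div_iff hp'.ne']
        linarith
      linarith
    have h7 : a * p < q := by
      have : 0 < (q : ℝ) / p - a := h6 ▸ h2
      have h8 : (a:ℝ) < q / p := by linarith
      rw [lt_div_iff₀ hp'] at h8
      exact_mod_cast h8
    have h9 := ih h.cons.2 (q - a * p) p hp (by
      rw [h6, Nat.cast_sub h7.le]; push_cast; field_simp)
    simp only [List.length_cons]
    omega

lemma app_eq_prefix {w w' : List ℕ} (h : Pos w) (h' : Pos w') {t t' : ℝ} (h0 : 0 < t) (h1 : t < 1)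
    (h0' : 0 < t') (h1' : t' < 1) (he : app w t = app w' t') : w <+: w' ∨ w' <+: w := by
  induction w generalizing w' with
  | nil => left; exact List.nil_prefix
  | cons a w ih =>
    cases w' with
    | nil => right; exact List.nil_prefix
    | cons a' w' =>
      obtain ⟨h2, h3⟩ := app_mem_Ioo h.cons.2 h0 h1
      obtain ⟨h2', h3'⟩ := app_mem_Ioo h'.cons.2 h0' h1'
      have e1 : (a : ℤ) = a' := by
        rw [← floor_app (a := a) h2 h3, ← floor_app (a := a') h2' h3', he]
      have e2 : a = a' := by exact_mod_cast e1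
      subst e2
      have e3 : app w t = app w' t' := by
        rw [← gauss_app (a := a) h2 h3, ← gauss_app (a := a) h2' h3', he]
      rcases ih h.cons.2 h'.cons.2 e3 with h4 | h4
      · left; exact (List.prefix_cons_inj a).2 h4
      · right; exact (List.prefix_cons_inj a).2 h4

/-! ## Points of a hull -/

lemma continuousOn_app {w : List ℕ} (h : Pos w) : ContinuousOn (app w) (Icc mm MM) := by
  induction w with
  | nil => exact continuousOn_id
  | cons a w ih =>
    have h2 : ∀ t ∈ Icc mm MM, (a : ℝ) + app w t ≠ 0 := by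
      intro t ht
      have := app_pos h.cons.2 (lt_of_lt_of_le mm_pos ht.1)
      positivity
    exact continuousOn_const.div (continuousOn_const.add (ih h.cons.2)) h2

lemma exists_t {w : List ℕ} (h : Pos w) {x : ℝ} (h1 : lo w ≤ x) (h2 : x ≤ hi w) :
    ∃ t, mm ≤ t ∧ t ≤ MM ∧ x = app w t := by
  have hc := continuousOn_app h
  rw [← uIcc_of_le mm_lt_MM.le] at hc
  have hiv := intermediate_value_uIcc hc
  have hx : x ∈ uIcc (app w mm) (app w MM) := by
    unfold lo at h1
    unfold hi at h2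
    by_cases he : Even w.length
    · rw [if_pos he] at h1 h2
      exact ⟨le_trans (inf_le_left) h1, le_trans h2 le_sup_right⟩
    · rw [if_neg he] at h1 h2
      exact ⟨le_trans (inf_le_right) h1, le_trans h2 le_sup_left⟩
  obtain ⟨t, ht, hxt⟩ := hiv hx
  rw [uIcc_of_le mm_lt_MM.le] at ht
  exact ⟨t, ht.1, ht.2, hxt.symm⟩

lemma inc_disjoint {w w' : List ℕ} (h : Pos w) (h' : Pos w') (hi' : Inc w w') {x : ℝ}
    (h1 : lo w ≤ x) (h2 : x ≤ hi w) (h3 : lo w' ≤ x) (h4 : x ≤ hi w') : False := by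
  obtain ⟨t, ht1, ht2, ht3⟩ := exists_t h h1 h2
  obtain ⟨t', ht1', ht2', ht3'⟩ := exists_t h' h3 h4
  have h5 : app w t = app w' t' := by rw [← ht3, ← ht3']
  have := mm_pos
  have := MM_lt_one
  rcases app_eq_prefix h h' (by linarith) (by linarith) (by linarith) (by linarith) h5 with h6 | h6
  · exact hi'.1 h6
  · exact hi'.2 h6

lemma mem_B2 {j : ℕ} {x : ℝ} {w : ℕ → List ℕ} (hA : ∀ n, Adm j (w n))
    (hL : ∀ N, ∃ n, N ≤ (w n).length) (hx : ∀ n, lo (w n) ≤ x ∧ x ≤ hi (w n)) : x ∈ B2 j := by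
  have ht : ∀ n, ∃ t, 0 < t ∧ t < 1 ∧ x = app (w n) t := by
    intro n
    obtain ⟨t, ht1, ht2, ht3⟩ := exists_t (hA n).pos (hx n).1 (hx n).2
    have := mm_pos
    have := MM_lt_one
    exact ⟨t, by linarith, by linarith, ht3⟩
  have h01 : 0 < x ∧ x < 1 := by
    obtain ⟨t, ht1, ht2, ht3⟩ := ht 0
    rw [ht3]
    exact app_mem_Ioo (hA 0).pos ht1 ht2
  have hd : ∀ k, 1 ≤ k → digit x k ≤ 3 ∧ (j < k → digit x k ≤ 2) := by
    intro k hk
    obtain ⟨n, hn⟩ := hL k
    obtain ⟨t, ht1, ht2, ht3⟩ := ht n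
    have hlt : k - 1 < (w n).length := by omega
    have h1 := digit_app (hA n).pos ht1 ht2 (k - 1) hlt
    rw [← ht3] at h1
    have h2 : k - 1 + 1 = k := by omega
    rw [h2] at h1
    obtain ⟨h3, h4, h5⟩ := hA n (k - 1) hlt
    rw [h1]
    constructor
    · exact_mod_cast h4
    · intro hj
      exact_mod_cast h5 (by omega)
  refine ⟨h01.1, h01.2, ?_, fun k hk _ => (hd k hk).1, fun k hk => (hd k (by omega)).2 hk⟩
  rintro ⟨r, hr⟩
  have hr0 : 0 < r := by
    have : (0:ℝ) < (r : ℝ) := by rw [hr]; exact h01.1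
    exact_mod_cast this
  obtain ⟨n, hn⟩ := hL r.den
  obtain ⟨t, ht1, ht2, ht3⟩ := ht n
  have hnum : (r.num.toNat : ℤ) = r.num := Int.toNat_of_nonneg (Rat.num_pos.2 hr0).le
  have h1 := rat_len (hA n).pos ht1 ht2 r.num.toNat r.den r.pos (by
    rw [← ht3, ← hr]
    have h2 : ((r.num.toNat : ℕ) : ℝ) = ((r.num : ℤ) : ℝ) :=
      (Int.cast_natCast _).symm.trans (congrArg Int.cast hnum)
    rw [h2]
    exact_mod_cast (Rat.num_div_den r).symm)
  omega

/-! ## Sizes and lengths -/

lemma mat_lower {w : List ℕ} (h : Pos w) :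
    w.length + 1 ≤ (mat w).b + (mat w).d ∧ (mat w).b ≤ (mat w).d := by
  induction w with
  | nil => simp [mat]
  | cons a w ih =>
    obtain ⟨h1, h2⟩ := ih h.cons.2
    have h3 := mat_d_pos h.cons.2
    have h4 := h.cons.1
    simp only [mat, List.length_cons]
    constructor
    · nlinarith
    · nlinarith

lemma size_le {w : List ℕ} (h : Pos w) : size w * (w.length + 1) ≤ 2 := by
  rw [size_eq h]
  obtain ⟨h1, h2⟩ := mat_lower h
  have h3 : (w.length : ℝ) + 1 ≤ 2 * (mat w).d := by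
    have : w.length + 1 ≤ 2 * (mat w).d := by omega
    exact_mod_cast this
  have h4 : (1:ℝ) ≤ (mat w).d := by exact_mod_cast mat_d_pos h
  have hc : (0:ℝ) ≤ (mat w).c := by positivity
  have h5 : ((mat w).d : ℝ) ≤ (mat w).c * mm + (mat w).d := by nlinarith [mm_pos]
  have h6 : ((mat w).d : ℝ) ≤ (mat w).c * MM + (mat w).d := by nlinarith [MM_pos]
  have h7 : ((mat w).d : ℝ) * 1 ≤ ((mat w).c * mm + (mat w).d) * ((mat w).c * MM + (mat w).d) := by
    apply mul_le_mul h5 (by linarith) (by norm_num) (by linarith)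
  have h8 : (MM - mm) * ((w.length : ℝ) + 1) ≤ 1 * (2 * (mat w).d) := by
    apply mul_le_mul _ h3 (by positivity) (by norm_num)
    have := mm_pos
    have := MM_lt_one
    linarith
  have h9 : (0:ℝ) < ((mat w).c * mm + (mat w).d) * ((mat w).c * MM + (mat w).d) := by
    have := den_pos h mm_pos
    have := den_pos h MM_pos
    positivity
  rw [div_mul_eq_mul_div, div_le_iff₀ h9]
  linarith

lemma mat_upper {w : List ℕ} (h : ∀ k ∈ w, k ≤ 3) :
    (mat w).a + (mat w).b ≤ 4 ^ w.length ∧ (mat w).c + (mat w).d ≤ 4 ^ w.length := by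
  induction w with
  | nil => simp [mat]
  | cons a w ih =>
    obtain ⟨h1, h2⟩ := ih (fun k hk => h k (by simp [hk]))
    have h3 := h a (by simp)
    simp only [mat, List.length_cons, pow_succ]
    constructor
    · omega
    · have : a * ((mat w).c + (mat w).d) ≤ 3 * 4 ^ w.length := Nat.mul_le_mul h3 h2
      nlinarith

lemma size_ge {w : List ℕ} (h : Pos w) (h3 : ∀ k ∈ w, k ≤ 3) :
    (MM - mm) / 16 ^ w.length ≤ size w := by
  rw [size_eq h]
  obtain ⟨-, h2⟩ := mat_upper h3
  have h4 : ((mat w).c : ℝ) + (mat w).d ≤ 4 ^ w.length := by exact_mod_cast h2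
  have hc : (0:ℝ) ≤ (mat w).c := by positivity
  have hm := mm_pos
  have hM := MM_pos
  have hM1 := MM_lt_one
  have hmM := mm_lt_MM
  have h5 : ((mat w).c : ℝ) * mm + (mat w).d ≤ 4 ^ w.length := by nlinarith
  have h6 : ((mat w).c : ℝ) * MM + (mat w).d ≤ 4 ^ w.length := by nlinarith
  have h7 := den_pos h mm_pos
  have h8 := den_pos h MM_pos
  have h9 : (((mat w).c : ℝ) * mm + (mat w).d) * ((mat w).c * MM + (mat w).d) ≤ 16 ^ w.length := by
    have : (16:ℝ) ^ w.length = 4 ^ w.length * 4 ^ w.length := by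
      rw [← mul_pow]; norm_num
    rw [this]
    exact mul_le_mul h5 h6 h8.le (by positivity)
  apply div_le_div_of_nonneg_left (by linarith) (by positivity) h9

/-! ## The construction -/

lemma W12.adm_append {j : ℕ} {w s : List ℕ} (h : Adm j w) (hs : W12 s) : Adm j (w ++ s) := by
  intro i hi
  by_cases h1 : i < w.length
  · rw [List.getElem_append_left h1]
    exact h i h1
  · push Not at h1
    rw [List.getElem_append_right h1]
    have h2 : i - w.length < s.length := by
      rw [List.length_append] at hi; omega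
    have h3 : s[i - w.length] ∈ s := List.getElem_mem h2
    rcases hs _ h3 with h | h <;> omega

lemma Adm.le_three {j : ℕ} {w : List ℕ} (h : Adm j w) : ∀ k ∈ w, k ≤ 3 := by
  intro k hk
  obtain ⟨i, hi, rfl⟩ := List.mem_iff_getElem.1 hk
  exact (h i hi).2.1

/-- States of the construction: admissible triples of words satisfying `P`. -/
structure St (P : List ℕ → List ℕ → List ℕ → Prop) (j : ℕ) where
  a : List ℕ
  b : List ℕ
  c : List ℕ
  hP : P a b c
  ha : Adm j a
  hb : Adm j b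
  hc : Adm j c

/-- `w'` extends `w` by a word over `{1,2}`. -/
def Ext (w w' : List ℕ) : Prop := ∃ s, W12 s ∧ w' = w ++ s

lemma Ext.length {w w' : List ℕ} (h : Ext w w') : w.length ≤ w'.length := by
  obtain ⟨s, -, rfl⟩ := h
  simp

lemma inc_append {a s t : List ℕ} (h : Inc s t) : Inc (a ++ s) (a ++ t) :=
  ⟨fun h1 => h.1 ((List.prefix_append_right_inj a).1 h1),
   fun h1 => h.2 ((List.prefix_append_right_inj a).1 h1)⟩

lemma Inc.symm {s t : List ℕ} (h : Inc s t) : Inc t s := ⟨h.2, h.1⟩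

lemma Inc.length_left {s t : List ℕ} (h : Inc s t) : 1 ≤ s.length := by
  rcases s with _ | ⟨a, s⟩
  · exact absurd List.nil_prefix h.1
  · simp

/-- The unordered solutions. -/
def T (j : ℕ) : Set (ℝ × ℝ × ℝ) :=
  {t | t.1 ∈ B2 j ∧ t.2.1 ∈ B2 j ∧ t.2.2 ∈ B2 j ∧ t.1 + t.2.1 + t.2.2 = 1}

lemma T_subset (j : ℕ) : T j ⊆
    ((fun t : ℝ × ℝ × ℝ => (t.1, t.2.1, t.2.2)) '' S j) ∪
    ((fun t : ℝ × ℝ × ℝ => (t.1, t.2.2, t.2.1)) '' S j) ∪
    ((fun t : ℝ × ℝ × ℝ => (t.2.1, t.1, t.2.2)) '' S j) ∪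
    ((fun t : ℝ × ℝ × ℝ => (t.2.1, t.2.2, t.1)) '' S j) ∪
    ((fun t : ℝ × ℝ × ℝ => (t.2.2, t.1, t.2.1)) '' S j) ∪
    ((fun t : ℝ × ℝ × ℝ => (t.2.2, t.2.1, t.1)) '' S j) := by
  rintro ⟨x, y, z⟩ ⟨hx, hy, hz, hs⟩
  simp only at hx hy hz hs
  rcases le_total x y with h1 | h1 <;> rcases le_total y z with h2 | h2 <;>
    rcases le_total x z with h3 | h3
  · left; left; left; left; left
    exact ⟨(x, y, z), ⟨hx, hy, hz, h1, h2, hs⟩, rfl⟩
  · left; left; left; left; left
    exact ⟨(x, y, z), ⟨hx, hy, hz, h1, h2, hs⟩, rfl⟩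
  · left; left; left; left; right
    exact ⟨(x, z, y), ⟨hx, hz, hy, h3, h2, by simp only; linarith⟩, rfl⟩
  · -- z ≤ x ≤ y
    left; left; right
    exact ⟨(z, x, y), ⟨hz, hx, hy, h3, h1, by simp only; linarith⟩, rfl⟩
  · -- y ≤ x, y ≤ z, x ≤ z
    left; left; left; right
    exact ⟨(y, x, z), ⟨hy, hx, hz, h1, h3, by simp only; linarith⟩, rfl⟩
  · -- y ≤ z ≤ x
    left; right
    exact ⟨(y, z, x), ⟨hy, hz, hx, h2, h3, by simp only; linarith⟩, rfl⟩
  · -- y ≤ x, z ≤ y, x ≤ z : all equal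
    right
    exact ⟨(z, y, x), ⟨hz, hy, hx, h2, h1, by simp only; linarith⟩, rfl⟩
  · right
    exact ⟨(z, y, x), ⟨hz, hy, hx, h2, h1, by simp only; linarith⟩, rfl⟩

section construction

variable {P : List ℕ → List ℕ → List ℕ → Prop} {j : ℕ}

/-- All three words of `τ` extend those of `σ`. -/
def St.Ext (σ τ : St P j) : Prop := CF3.Ext σ.a τ.a ∧ CF3.Ext σ.b τ.b ∧ CF3.Ext σ.c τ.c

/-- In one of the three places the words are incomparable. -/
def St.Sep (σ τ : St P j) : Prop := Inc σ.a τ.a ∨ Inc σ.b τ.b ∨ Inc σ.c τ.c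

/-- total length -/
def St.len (σ : St P j) : ℕ := σ.a.length + σ.b.length + σ.c.length

lemma exists_step
    (hstep : ∀ a b c, P a b c → ∃ s1 s2 s3 t1 t2 t3 : List ℕ, W12 s1 ∧ W12 s2 ∧ W12 s3 ∧
      W12 t1 ∧ W12 t2 ∧ W12 t3 ∧ P (a ++ s1) (b ++ s2) (c ++ s3) ∧
      P (a ++ t1) (b ++ t2) (c ++ t3) ∧ (Inc s1 t1 ∨ Inc s2 t2 ∨ Inc s3 t3))
    (σ : St P j) : ∃ f : Bool → St P j, (∀ e, σ.Ext (f e)) ∧ (∀ e, σ.len < (f e).len) ∧
      (f true).Sep (f false) := by
  obtain ⟨s1, s2, s3, t1, t2, t3, hs1, hs2, hs3, ht1, ht2, ht3, hs, ht, hI⟩ :=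
    hstep σ.a σ.b σ.c σ.hP
  let σ1 : St P j := ⟨_, _, _, hs, hs1.adm_append σ.ha, hs2.adm_append σ.hb, hs3.adm_append σ.hc⟩
  let σ2 : St P j := ⟨_, _, _, ht, ht1.adm_append σ.ha, ht2.adm_append σ.hb, ht3.adm_append σ.hc⟩
  have l1 : 1 ≤ s1.length + s2.length + s3.length := by
    rcases hI with h | h | h
    · have := h.length_left; omega
    · have := h.length_left; omega
    · have := h.length_left; omega
  have l2 : 1 ≤ t1.length + t2.length + t3.length := by
    rcases hI with h | h | h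
    · have := h.symm.length_left; omega
    · have := h.symm.length_left; omega
    · have := h.symm.length_left; omega
  refine ⟨fun e => if e then σ1 else σ2, ?_, ?_, ?_⟩
  · intro e
    cases e
    · exact ⟨⟨t1, ht1, rfl⟩, ⟨t2, ht2, rfl⟩, ⟨t3, ht3, rfl⟩⟩
    · exact ⟨⟨s1, hs1, rfl⟩, ⟨s2, hs2, rfl⟩, ⟨s3, hs3, rfl⟩⟩
  · intro e
    cases e
    · show σ.len < σ2.len
      simp only [St.len, σ2, List.length_append]; omega
    · show σ.len < σ1.len
      simp only [St.len, σ1, List.length_append]; omega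
  · show σ1.Sep σ2
    rcases hI with h | h | h
    · exact Or.inl (inc_append h)
    · exact Or.inr (Or.inl (inc_append h))
    · exact Or.inr (Or.inr (inc_append h))

/-- The sequence of states of a binary sequence. -/
def seqSt (f : St P j → Bool → St P j) (σ0 : St P j) (ε : ℕ → Bool) : ℕ → St P j
  | 0 => σ0
  | n + 1 => f (seqSt f σ0 ε n) (ε n)

lemma seqSt_congr (f : St P j → Bool → St P j) (σ0 : St P j) {ε ε' : ℕ → Bool} {n : ℕ}
    (h : ∀ m < n, ε m = ε' m) : seqSt f σ0 ε n = seqSt f σ0 ε' n := by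
  induction n with
  | zero => rfl
  | succ n ih =>
    simp only [seqSt]
    rw [ih (fun m hm => h m (by omega)), h n (by omega)]

end construction

/-- A nested sequence of words has a common point. -/
lemma exists_point {w : ℕ → List ℕ} (h : ∀ n, Pos (w n)) (he : ∀ n, Ext (w n) (w (n + 1))) :
    ∃ x, ∀ n, lo (w n) ≤ x ∧ x ≤ hi (w n) := by
  have h1 : Monotone (fun n => lo (w n)) := by
    apply monotone_nat_of_le_succ
    intro n
    obtain ⟨s, hs, hw⟩ := he n
    show lo (w n) ≤ lo (w (n + 1))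
    rw [hw]
    exact lo_le_append (h n) hs
  have h2 : Antitone (fun n => hi (w n)) := by
    apply antitone_nat_of_succ_le
    intro n
    obtain ⟨s, hs, hw⟩ := he n
    show hi (w (n + 1)) ≤ hi (w n)
    rw [hw]
    exact hi_append_le (h n) hs
  have h3 := Monotone.ciSup_mem_iInter_Icc_of_antitone h1 h2 (fun n => (lo_lt_hi (h n)).le)
  rw [mem_iInter] at h3
  exact ⟨_, fun n => ⟨(h3 n).1, (h3 n).2⟩⟩

/-- **Uncountability.**  A family `P` of triples of words which is closed under two incomparable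
refinements, whose sizes are comparable and whose hull sums contain `1`, gives uncountably many
solutions. -/
theorem uncountable_of_closed (K : ℝ) (j : ℕ) (P : List ℕ → List ℕ → List ℕ → Prop)
    (hS : ∀ a b c, P a b c → lo a + lo b + lo c ≤ 1 ∧ 1 ≤ hi a + hi b + hi c)
    (hsz : ∀ a b c, P a b c → size a + size b + size c ≤ K * size a ∧
      size a + size b + size c ≤ K * size b ∧ size a + size b + size c ≤ K * size c)
    (hstep : ∀ a b c, P a b c → ∃ s1 s2 s3 t1 t2 t3 : List ℕ, W12 s1 ∧ W12 s2 ∧ W12 s3 ∧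
      W12 t1 ∧ W12 t2 ∧ W12 t3 ∧ P (a ++ s1) (b ++ s2) (c ++ s3) ∧
      P (a ++ t1) (b ++ t2) (c ++ t3) ∧ (Inc s1 t1 ∨ Inc s2 t2 ∨ Inc s3 t3))
    (h0 : ∃ a b c, P a b c ∧ Adm j a ∧ Adm j b ∧ Adm j c) : ¬ (S j).Countable := by
  classical
  obtain ⟨a0, b0, c0, hP0, ha0, hb0, hc0⟩ := h0
  let σ0 : St P j := ⟨a0, b0, c0, hP0, ha0, hb0, hc0⟩
  choose f hf1 hf2 hf3 using (exists_step (P := P) (j := j) hstep)
  set q : (ℕ → Bool) → ℕ → St P j := seqSt f σ0 with hq
  have hqs : ∀ ε n, q ε (n + 1) = f (q ε n) (ε n) := fun ε n => rfl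
  -- the constant
  have hKpos : 0 ≤ K := by
    have h1 := (hsz a0 b0 c0 hP0).1
    have h2 := size_pos ha0.pos
    have h3 := size_pos hb0.pos
    have h4 := size_pos hc0.pos
    by_contra hK
    push Not at hK
    nlinarith
  -- lengths
  have hlen : ∀ ε n, n ≤ (q ε n).len := by
    intro ε n
    induction n with
    | zero => exact Nat.zero_le _
    | succ n ih =>
      have := hf2 (q ε n) (ε n)
      rw [hqs]
      omega
  -- total size tends to zero
  have hsum : ∀ ε n, (size (q ε n).a + size (q ε n).b + size (q ε n).c) * (n + 3) ≤ 6 * K := by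
    intro ε n
    obtain ⟨h1, h2, h3⟩ := hsz _ _ _ (q ε n).hP
    have h4 := hlen ε n
    unfold St.len at h4
    have key : ∀ w : List ℕ, Pos w → n ≤ 3 * w.length → size w * (n + 3) ≤ 6 := by
      intro w hw hn
      have h5 := size_le hw
      have h6 : (n : ℝ) ≤ 3 * w.length := by exact_mod_cast hn
      have h7 := size_pos hw
      nlinarith
    have hcase : n ≤ 3 * (q ε n).a.length ∨ n ≤ 3 * (q ε n).b.length ∨
        n ≤ 3 * (q ε n).c.length := by omega
    have hn3 : (0:ℝ) ≤ (n:ℝ) + 3 := by positivity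
    rcases hcase with h | h | h
    · have h5 := key _ (q ε n).ha.pos h
      nlinarith [mul_le_mul_of_nonneg_right h1 hn3, mul_le_mul_of_nonneg_left h5 hKpos]
    · have h5 := key _ (q ε n).hb.pos h
      nlinarith [mul_le_mul_of_nonneg_right h2 hn3, mul_le_mul_of_nonneg_left h5 hKpos]
    · have h5 := key _ (q ε n).hc.pos h
      nlinarith [mul_le_mul_of_nonneg_right h3 hn3, mul_le_mul_of_nonneg_left h5 hKpos]
  have hsmall : ∀ δ : ℝ, 0 < δ → ∀ ε, ∃ n,
      size (q ε n).a + size (q ε n).b + size (q ε n).c < δ := by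
    intro δ hδ ε
    obtain ⟨n, hn⟩ := exists_nat_gt (6 * K / δ)
    refine ⟨n, ?_⟩
    have h1 := hsum ε n
    by_contra h2
    push Not at h2
    rw [div_lt_iff₀ hδ] at hn
    have hn3 : (0:ℝ) ≤ (n:ℝ) + 3 := by positivity
    nlinarith [mul_le_mul_of_nonneg_right h2 hn3]
  -- all lengths tend to infinity
  have hlong : ∀ (g : St P j → List ℕ), (∀ σ, Adm j (g σ)) →
      (∀ σ, size (g σ) ≤ size σ.a + size σ.b + size σ.c) →
      ∀ ε N, ∃ n, N ≤ (g (q ε n)).length := by
    intro g hg hg2 ε N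
    obtain ⟨n, hn⟩ := hsmall ((MM - mm) / 16 ^ N) (by
      have := sub_pos.2 mm_lt_MM
      positivity) ε
    refine ⟨n, ?_⟩
    by_contra h
    push Not at h
    have h1 := size_ge (hg (q ε n)).pos (hg (q ε n)).le_three
    have h2 := hg2 (q ε n)
    have h3 : (MM - mm) / 16 ^ N ≤ (MM - mm) / 16 ^ (g (q ε n)).length := by
      apply div_le_div_of_nonneg_left (sub_nonneg.2 mm_lt_MM.le) (by positivity)
      exact pow_le_pow_right₀ (by norm_num) h.le
    linarith
  have hna : ∀ σ : St P j, 0 < size σ.a := fun σ => size_pos σ.ha.pos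
  have hnb : ∀ σ : St P j, 0 < size σ.b := fun σ => size_pos σ.hb.pos
  have hnc : ∀ σ : St P j, 0 < size σ.c := fun σ => size_pos σ.hc.pos
  -- the points
  have hx : ∀ ε, ∃ x, ∀ n, lo (q ε n).a ≤ x ∧ x ≤ hi (q ε n).a := fun ε =>
    exists_point (fun n => (q ε n).ha.pos) (fun n => by rw [hqs]; exact (hf1 _ _).1)
  have hy : ∀ ε, ∃ x, ∀ n, lo (q ε n).b ≤ x ∧ x ≤ hi (q ε n).b := fun ε =>
    exists_point (fun n => (q ε n).hb.pos) (fun n => by rw [hqs]; exact (hf1 _ _).2.1)
  have hz : ∀ ε, ∃ x, ∀ n, lo (q ε n).c ≤ x ∧ x ≤ hi (q ε n).c := fun ε =>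
    exists_point (fun n => (q ε n).hc.pos) (fun n => by rw [hqs]; exact (hf1 _ _).2.2)
  choose x hx using hx
  choose y hy using hy
  choose z hz using hz
  have hxB : ∀ ε, x ε ∈ B2 j := fun ε =>
    mem_B2 (fun n => (q ε n).ha) (hlong (fun σ => σ.a) (fun σ => σ.ha)
      (fun σ => by have := hnb σ; have := hnc σ; linarith) ε) (hx ε)
  have hyB : ∀ ε, y ε ∈ B2 j := fun ε =>
    mem_B2 (fun n => (q ε n).hb) (hlong (fun σ => σ.b) (fun σ => σ.hb)
      (fun σ => by have := hna σ; have := hnc σ; linarith) ε) (hy ε)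
  have hzB : ∀ ε, z ε ∈ B2 j := fun ε =>
    mem_B2 (fun n => (q ε n).hc) (hlong (fun σ => σ.c) (fun σ => σ.hc)
      (fun σ => by have := hna σ; have := hnb σ; linarith) ε) (hz ε)
  have hone : ∀ ε, x ε + y ε + z ε = 1 := by
    intro ε
    by_contra hne
    obtain ⟨n, hn⟩ := hsmall |x ε + y ε + z ε - 1| (abs_pos.2 (sub_ne_zero.2 hne)) ε
    have h1 := hx ε n
    have h2 := hy ε n
    have h3 := hz ε n
    have h4 := hS _ _ _ (q ε n).hP
    have h5 : |x ε + y ε + z ε - 1| ≤ size (q ε n).a + size (q ε n).b + size (q ε n).c := by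
      unfold size
      rw [abs_le]
      constructor <;> linarith
    linarith
  let g : (ℕ → Bool) → ℝ × ℝ × ℝ := fun ε => (x ε, y ε, z ε)
  have hgT : ∀ ε, g ε ∈ T j := fun ε => ⟨hxB ε, hyB ε, hzB ε, hone ε⟩
  have hginj : Function.Injective g := by
    intro ε ε' hg
    by_contra hne
    have hex : ∃ n, ε n ≠ ε' n := by
      by_contra h
      push Not at h
      exact hne (funext h)
    obtain ⟨n, hn, hmin⟩ : ∃ n, ε n ≠ ε' n ∧ ∀ m < n, ε m = ε' m := by
      refine ⟨Nat.find hex, Nat.find_spec hex, fun m hm => ?_⟩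
      have := Nat.find_min hex hm
      push Not at this
      exact this
    have hqn : q ε n = q ε' n := seqSt_congr f σ0 hmin
    have hsep : (q ε (n + 1)).Sep (q ε' (n + 1)) := by
      rw [hqs, hqs, ← hqn]
      cases h1 : ε n <;> cases h2 : ε' n
      · exact absurd (h1.trans h2.symm) hn
      · rcases hf3 (q ε n) with h | h | h
        · exact Or.inl h.symm
        · exact Or.inr (Or.inl h.symm)
        · exact Or.inr (Or.inr h.symm)
      · exact hf3 _
      · exact absurd (h1.trans h2.symm) hn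
    have e1 : x ε = x ε' := congrArg Prod.fst hg
    have e2 : y ε = y ε' := congrArg (fun t => t.2.1) hg
    have e3 : z ε = z ε' := congrArg (fun t => t.2.2) hg
    rcases hsep with h | h | h
    · have h1 := hx ε (n + 1)
      have h2 := hx ε' (n + 1)
      rw [← e1] at h2
      exact inc_disjoint (q ε (n + 1)).ha.pos (q ε' (n + 1)).ha.pos h h1.1 h1.2 h2.1 h2.2
    · have h1 := hy ε (n + 1)
      have h2 := hy ε' (n + 1)
      rw [← e2] at h2
      exact inc_disjoint (q ε (n + 1)).hb.pos (q ε' (n + 1)).hb.pos h h1.1 h1.2 h2.1 h2.2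
    · have h1 := hz ε (n + 1)
      have h2 := hz ε' (n + 1)
      rw [← e3] at h2
      exact inc_disjoint (q ε (n + 1)).hc.pos (q ε' (n + 1)).hc.pos h h1.1 h1.2 h2.1 h2.2
  intro hcount
  have hT : (T j).Countable := by
    apply Countable.mono (T_subset j)
    refine ((((Countable.union ?_ ?_).union ?_).union ?_).union ?_).union ?_ <;>
      exact hcount.image _
  have h1 : Countable (ℕ → Bool) := by
    have : Countable (T j) := hT
    exact Function.Injective.countable (f := fun ε => (⟨g ε, hgT ε⟩ : T j))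
      (fun ε ε' h => hginj (congrArg Subtype.val h))
  have h2 : Countable (Set ℕ) := by
    have e : (ℕ → Bool) ≃ Set ℕ := (Equiv.arrowCongr (Equiv.refl ℕ) Equiv.propEquivBool.symm)
    exact e.symm.injective.countable
  obtain ⟨F, hF⟩ := exists_surjective_nat (Set ℕ)
  exact Function.cantor_surjective F hF

end CF3
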