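import Pool.Agent.CF3.Trees

namespace CF3

theorem b0_40_ok : chkT tr0 tr1 false b0_40 3200 25216 18048 32896 19648 32768 0 0 0 = true := by
  decide +kernel

theorem b0_41_ok : chkT tr0 tr1 false b0_41 25216 36224 3200 10624 6528 19648 0 0 0 = true := by
  decide +kernel

theorem b0_42_ok : chkT tr0 tr1 false b0_42 25216 36224 10624 18048 6528 19648 0 0 0 = true := by
  decide +kernel

theorem b0_43_ok : chkT tr0 tr1 false b0_43 36224 47232 3200 10624 6528 19648 0 0 0 = true := by
  decide +kernel

theorem b0_44_ok : chkT tr0 tr1 false b0_44 36224 47232 10624 18048 6528 19648 0 0 0 = true := by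
  decide +kernel

theorem b0_45_ok : chkT tr0 tr1 false b0_45 25216 30720 3200 6912 19648 26208 0 0 0 = true := by
  decide +kernel

theorem b0_46_ok : chkT tr0 tr1 false b0_46 25216 30720 6912 10624 19648 22928 0 0 0 = true := by
  decide +kernel

theorem b0_47_ok : chkT tr0 tr1 false b0_47 25216 27968 6912 10624 22928 26208 0 0 0 = true := by
  decide +kernel

theorem b0_48_ok : chkT tr0 tr1 false b0_48 27968 30720 6912 10624 22928 26208 0 0 0 = true := by
  decide +kernel

theorem b0_49_ok : chkT tr0 tr1 false b0_49 30720 36224 3200 6912 19648 26208 0 0 0 = true := by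
  decide +kernel

theorem b0_50_ok : chkT tr0 tr1 false b0_50 30720 33472 6912 10624 19648 22928 0 0 0 = true := by
  decide +kernel

theorem b0_51_ok : chkT tr0 tr1 false b0_51 33472 36224 6912 10624 19648 22928 0 0 0 = true := by
  decide +kernel

theorem b0_52_ok : chkT tr0 tr1 false b0_52 30720 36224 6912 10624 22928 26208 0 0 0 = true := by
  decide +kernel

theorem b0_53_ok : chkT tr0 tr1 false b0_53 25216 36224 3200 10624 26208 32768 0 0 0 = true := by
  decide +kernel

theorem b0_54_ok : chkT tr0 tr1 false b0_54 25216 27968 10624 12480 19648 21288 0 0 0 = true := by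
  decide +kernel

theorem b0_55_ok : chkT tr0 tr1 false b0_55 25216 26592 10624 12480 21288 22928 0 0 0 = true := by
  decide +kernel

theorem b0_56_ok : chkT tr0 tr1 false b0_56 26592 27968 10624 12480 21288 22928 0 0 0 = true := by
  decide +kernel

theorem b0_57_ok : chkT tr0 tr1 false b0_57 25216 27968 12480 14336 19648 22928 0 0 0 = true := by
  decide +kernel

theorem b0_58_ok : chkT tr0 tr1 false b0_58 27968 30720 10624 14336 19648 22928 0 0 0 = true := by
  decide +kernel

theorem b0_59_ok : chkT tr0 tr1 false b0_59 25216 26592 10624 12480 22928 24568 0 0 0 = true := by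
  decide +kernel

theorem b0_60_ok : chkT tr0 tr1 false b0_60 26592 27968 10624 12480 22928 24568 0 0 0 = true := by
  decide +kernel

theorem b0_61_ok : chkT tr0 tr1 false b0_61 25216 27968 10624 12480 24568 26208 0 0 0 = true := by
  decide +kernel

theorem b0_62_ok : chkT tr0 tr1 false b0_62 25216 27968 12480 14336 22928 26208 0 0 0 = true := by
  decide +kernel

theorem b0_63_ok : chkT tr0 tr1 false b0_63 27968 30720 10624 14336 22928 26208 0 0 0 = true := by
  decide +kernel

theorem b0_64_ok : chkT tr0 tr1 false b0_64 25216 30720 14336 18048 19648 26208 0 0 0 = true := by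
  decide +kernel

theorem b0_65_ok : chkT tr0 tr1 false b0_65 30720 36224 10624 14336 19648 26208 0 0 0 = true := by
  decide +kernel

theorem b0_66_ok : chkT tr0 tr1 false b0_66 30720 36224 14336 18048 19648 22928 0 0 0 = true := by
  decide +kernel

theorem b0_67_ok : chkT tr0 tr1 false b0_67 30720 33472 14336 18048 22928 26208 0 0 0 = true := by
  decide +kernel

theorem b0_68_ok : chkT tr0 tr1 false b0_68 33472 36224 14336 16192 22928 26208 0 0 0 = true := by
  decide +kernel

theorem b0_69_ok : chkT tr0 tr1 false b0_69 33472 36224 16192 18048 22928 26208 0 0 0 = true := by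
  decide +kernel

theorem b0_70_ok : chkT tr0 tr1 false b0_70 25216 36224 10624 18048 26208 32768 0 0 0 = true := by
  decide +kernel

theorem b0_71_ok : chkT tr0 tr1 false b0_71 36224 47232 3200 10624 19648 26208 0 0 0 = true := by
  decide +kernel

theorem b0_72_ok : chkT tr0 tr1 false b0_72 36224 41728 3200 6912 26208 32768 0 0 0 = true := by
  decide +kernel

theorem b0_73_ok : chkT tr0 tr1 false b0_73 36224 41728 6912 10624 26208 32768 0 0 0 = true := by
  decide +kernel

theorem b0_74_ok : chkT tr0 tr1 false b0_74 41728 47232 3200 6912 26208 32768 0 0 0 = true := by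
  decide +kernel

theorem b0_75_ok : chkT tr0 tr1 false b0_75 41728 47232 6912 10624 26208 29488 0 0 0 = true := by
  decide +kernel

theorem b0_76_ok : chkT tr0 tr1 false b0_76 41728 47232 6912 10624 29488 32768 0 0 0 = true := by
  decide +kernel

theorem b0_77_ok : chkT tr0 tr1 false b0_77 36224 41728 10624 14336 19648 26208 0 0 0 = true := by
  decide +kernel

theorem b0_78_ok : chkT tr0 tr1 false b0_78 36224 41728 14336 18048 19648 22928 0 0 0 = true := by
  decide +kernel

theorem b0_79_ok : chkT tr0 tr1 false b0_79 36224 38976 14336 18048 22928 26208 0 0 0 = true := by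
  decide +kernel

end CF3
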