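import Pool.Agent.CF3.Trees

namespace CF3

theorem b0_80_ok : chkT tr0 tr1 false b0_80 38976 41728 16192 18048 22928 24568 0 0 0 = true := by
  decide +kernel

theorem b0_81_ok : chkT tr0 tr1 false b0_81 38976 41728 16192 18048 24568 26208 0 0 0 = true := by
  decide +kernel

theorem b0_82_ok : chkT tr0 tr1 false b0_82 41728 47232 10624 14336 19648 26208 0 0 0 = true := by
  decide +kernel

theorem b0_83_ok : chkT tr0 tr1 false b0_83 41728 47232 14336 18048 19648 22928 0 0 0 = true := by
  decide +kernel

theorem b0_84_ok : chkT tr0 tr1 false b0_84 41728 44480 14336 16192 22928 26208 0 0 0 = true := by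
  decide +kernel

theorem b0_85_ok : chkT tr0 tr1 false b0_85 41728 44480 16192 18048 22928 26208 0 0 0 = true := by
  decide +kernel

theorem b0_86_ok : chkT tr0 tr1 false b0_86 36224 41728 10624 14336 26208 32768 0 0 0 = true := by
  decide +kernel

theorem b0_87_ok : chkT tr0 tr1 false b0_87 36224 38976 14336 18048 26208 29488 0 0 0 = true := by
  decide +kernel

theorem b0_88_ok : chkT tr0 tr1 false b0_88 38976 41728 14336 16192 26208 29488 0 0 0 = true := by
  decide +kernel

theorem b0_89_ok : chkT tr0 tr1 false b0_89 38976 41728 16192 18048 26208 29488 0 0 0 = true := by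
  decide +kernel

theorem b0_90_ok : chkT tr0 tr1 false b0_90 41728 44480 10624 12480 26208 29488 0 0 0 = true := by
  decide +kernel

theorem b0_91_ok : chkT tr0 tr1 false b0_91 41728 43104 12480 14336 26208 27848 0 0 0 = true := by
  decide +kernel

theorem b0_92_ok : chkT tr0 tr1 false b0_92 43104 44480 12480 14336 26208 27848 0 0 0 = true := by
  decide +kernel

theorem b0_93_ok : chkT tr0 tr1 false b0_93 41728 44480 12480 14336 27848 29488 0 0 0 = true := by
  decide +kernel

theorem b0_94_ok : chkT tr0 tr1 false b0_94 44480 47232 10624 14336 26208 29488 0 0 0 = true := by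
  decide +kernel

theorem b0_95_ok : chkT tr0 tr1 false b0_95 41728 47232 10624 14336 29488 32768 0 0 0 = true := by
  decide +kernel

theorem b0_96_ok : chkT tr0 tr1 false b0_96 41728 44480 14336 16192 26208 29488 0 0 0 = true := by
  decide +kernel

theorem b0_97_ok : chkT tr0 tr1 false b0_97 41728 44480 16192 18048 26208 29488 0 0 0 = true := by
  decide +kernel

theorem b0_98_ok : chkT tr0 tr1 false b0_98 41728 47232 14336 18048 29488 32768 0 0 0 = true := by
  decide +kernel

theorem b0_99_ok : chkT tr0 tr1 false b0_99 25216 36224 18048 25472 6528 13088 0 0 0 = true := by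
  decide +kernel

theorem b0_100_ok : chkT tr0 tr1 false b0_100 25216 30720 18048 21760 13088 19648 0 0 0 = true := by
  decide +kernel

theorem b0_101_ok : chkT tr0 tr1 false b0_101 25216 30720 21760 25472 13088 19648 0 0 0 = true := by
  decide +kernel

theorem b0_102_ok : chkT tr0 tr1 false b0_102 30720 36224 18048 21760 13088 19648 0 0 0 = true := by
  decide +kernel

theorem b0_103_ok : chkT tr0 tr1 false b0_103 30720 36224 21760 25472 13088 16368 0 0 0 = true := by
  decide +kernel

theorem b0_104_ok : chkT tr0 tr1 false b0_104 30720 33472 21760 25472 16368 19648 0 0 0 = true := by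
  decide +kernel

theorem b0_105_ok : chkT tr0 tr1 false b0_105 33472 36224 21760 25472 16368 19648 0 0 0 = true := by
  decide +kernel

theorem b0_106_ok : chkT tr0 tr1 false b0_106 25216 36224 25472 32896 6528 13088 0 0 0 = true := by
  decide +kernel

theorem b0_107_ok : chkT tr0 tr1 false b0_107 25216 30720 25472 29184 13088 16368 0 0 0 = true := by
  decide +kernel

theorem b0_108_ok : chkT tr0 tr1 false b0_108 25216 27968 25472 29184 16368 19648 0 0 0 = true := by
  decide +kernel

theorem b0_109_ok : chkT tr0 tr1 false b0_109 27968 30720 25472 27328 16368 18008 0 0 0 = true := by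
  decide +kernel

theorem b0_110_ok : chkT tr0 tr1 false b0_110 27968 30720 25472 27328 18008 19648 0 0 0 = true := by
  decide +kernel

theorem b0_111_ok : chkT tr0 tr1 false b0_111 27968 30720 27328 29184 16368 19648 0 0 0 = true := by
  decide +kernel

theorem b0_112_ok : chkT tr0 tr1 false b0_112 25216 30720 29184 32896 13088 19648 0 0 0 = true := by
  decide +kernel

theorem b0_113_ok : chkT tr0 tr1 false b0_113 30720 36224 25472 32896 13088 19648 0 0 0 = true := by
  decide +kernel

theorem b0_114_ok : chkT tr0 tr1 false b0_114 36224 47232 18048 25472 6528 13088 0 0 0 = true := by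
  decide +kernel

theorem b0_115_ok : chkT tr0 tr1 false b0_115 36224 38976 18048 21760 13088 16368 0 0 0 = true := by
  decide +kernel

theorem b0_116_ok : chkT tr0 tr1 false b0_116 38976 41728 18048 21760 13088 16368 0 0 0 = true := by
  decide +kernel

theorem b0_117_ok : chkT tr0 tr1 false b0_117 36224 41728 18048 21760 16368 19648 0 0 0 = true := by
  decide +kernel

theorem b0_118_ok : chkT tr0 tr1 false b0_118 36224 41728 21760 25472 13088 19648 0 0 0 = true := by
  decide +kernel

theorem b0_119_ok : chkT tr0 tr1 false b0_119 25216 36224 18048 25472 19648 32768 0 0 0 = true := by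
  decide +kernel

end CF3
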