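import Pool.Agent.CF3.Trees

namespace CF3

theorem b0_120_ok : chkT tr0 tr1 false b0_120 25216 30720 25472 32896 19648 26208 0 0 0 = true := by
  decide +kernel

theorem b0_121_ok : chkT tr0 tr1 false b0_121 30720 36224 25472 32896 19648 26208 0 0 0 = true := by
  decide +kernel

theorem b0_122_ok : chkT tr0 tr1 false b0_122 25216 30720 25472 32896 26208 32768 0 0 0 = true := by
  decide +kernel

theorem b0_123_ok : chkT tr0 tr1 false b0_123 30720 36224 25472 32896 26208 32768 0 0 0 = true := by
  decide +kernel

theorem b0_124_ok : chkT tr0 tr1 false b0_124 36224 41728 18048 21760 19648 22928 0 0 0 = true := by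
  decide +kernel

theorem b0_125_ok : chkT tr0 tr1 false b0_125 36224 38976 18048 21760 22928 26208 0 0 0 = true := by
  decide +kernel

theorem b0_126_ok : chkT tr0 tr1 false b0_126 38976 41728 18048 19904 22928 24568 0 0 0 = true := by
  decide +kernel

theorem b0_127_ok : chkT tr0 tr1 false b0_127 38976 41728 18048 19904 24568 26208 0 0 0 = true := by
  decide +kernel

theorem b0_128_ok : chkT tr0 tr1 false b0_128 38976 41728 19904 21760 22928 26208 0 0 0 = true := by
  decide +kernel

theorem b0_129_ok : chkT tr0 tr1 false b0_129 36224 41728 21760 25472 19648 26208 0 0 0 = true := by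
  decide +kernel

theorem b0_130_ok : chkT tr0 tr1 false b0_130 36224 47232 18048 25472 26208 32768 0 0 0 = true := by
  decide +kernel

theorem b0_131_ok : chkT tr0 tr1 false b0_131 8704 14208 6912 10624 32768 36048 0 0 0 = true := by
  decide +kernel

theorem b0_132_ok : chkT tr0 tr1 false b0_132 11456 14208 6912 8768 36048 39328 0 0 0 = true := by
  decide +kernel

theorem b0_133_ok : chkT tr0 tr1 false b0_133 11456 14208 8768 10624 36048 37688 0 0 0 = true := by
  decide +kernel

theorem b0_134_ok : chkT tr0 tr1 false b0_134 11456 14208 8768 10624 37688 39328 0 0 0 = true := by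
  decide +kernel

theorem b0_135_ok : chkT tr0 tr1 false b0_135 3200 14208 3200 10624 39328 45888 0 0 0 = true := by
  decide +kernel

theorem b0_136_ok : chkT tr0 tr1 false b0_136 8704 14208 10624 14336 32768 36048 0 0 0 = true := by
  decide +kernel

theorem b0_137_ok : chkT tr0 tr1 false b0_137 8704 11456 10624 14336 36048 39328 0 0 0 = true := by
  decide +kernel

theorem b0_138_ok : chkT tr0 tr1 false b0_138 11456 14208 10624 12480 36048 37688 0 0 0 = true := by
  decide +kernel

theorem b0_139_ok : chkT tr0 tr1 false b0_139 11456 12832 10624 12480 37688 39328 0 0 0 = true := by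
  decide +kernel

theorem b0_140_ok : chkT tr0 tr1 false b0_140 12832 14208 10624 12480 37688 39328 0 0 0 = true := by
  decide +kernel

theorem b0_141_ok : chkT tr0 tr1 false b0_141 11456 14208 12480 14336 36048 39328 0 0 0 = true := by
  decide +kernel

theorem b0_142_ok : chkT tr0 tr1 false b0_142 3200 14208 10624 18048 39328 45888 0 0 0 = true := by
  decide +kernel

theorem b0_143_ok : chkT tr0 tr1 false b0_143 14208 16960 3200 6912 32768 36048 0 0 0 = true := by
  decide +kernel

theorem b0_144_ok : chkT tr0 tr1 false b0_144 16960 19712 3200 5056 32768 36048 0 0 0 = true := by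
  decide +kernel

theorem b0_145_ok : chkT tr0 tr1 false b0_145 16960 19712 5056 6912 32768 36048 0 0 0 = true := by
  decide +kernel

theorem b0_146_ok : chkT tr0 tr1 false b0_146 14208 16960 3200 6912 36048 39328 0 0 0 = true := by
  decide +kernel

theorem b0_147_ok : chkT tr0 tr1 false b0_147 16960 19712 3200 5056 36048 39328 0 0 0 = true := by
  decide +kernel

theorem b0_148_ok : chkT tr0 tr1 false b0_148 16960 19712 5056 6912 36048 39328 0 0 0 = true := by
  decide +kernel

theorem b0_149_ok : chkT tr0 tr1 false b0_149 14208 19712 6912 10624 32768 36048 0 0 0 = true := by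
  decide +kernel

theorem b0_150_ok : chkT tr0 tr1 false b0_150 14208 16960 6912 8768 36048 37688 0 0 0 = true := by
  decide +kernel

theorem b0_151_ok : chkT tr0 tr1 false b0_151 14208 15584 6912 8768 37688 39328 0 0 0 = true := by
  decide +kernel

theorem b0_152_ok : chkT tr0 tr1 false b0_152 15584 16960 6912 7840 37688 39328 0 0 0 = true := by
  decide +kernel

theorem b0_153_ok : chkT tr0 tr1 false b0_153 15584 16960 7840 8768 37688 39328 0 0 0 = true := by
  decide +kernel

theorem b0_154_ok : chkT tr0 tr1 false b0_154 14208 16960 8768 10624 36048 37688 0 0 0 = true := by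
  decide +kernel

theorem b0_155_ok : chkT tr0 tr1 false b0_155 14208 15584 8768 10624 37688 39328 0 0 0 = true := by
  decide +kernel

theorem b0_156_ok : chkT tr0 tr1 false b0_156 15584 16960 8768 10624 37688 39328 0 0 0 = true := by
  decide +kernel

theorem b0_157_ok : chkT tr0 tr1 false b0_157 16960 19712 6912 10624 36048 39328 0 0 0 = true := by
  decide +kernel

theorem b0_158_ok : chkT tr0 tr1 false b0_158 19712 25216 3200 10624 32768 39328 0 0 0 = true := by
  decide +kernel

theorem b0_159_ok : chkT tr0 tr1 false b0_159 14208 19712 3200 6912 39328 45888 0 0 0 = true := by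
  decide +kernel

end CF3
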