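import Pool.Agent.CF3.Trees

namespace CF3

theorem b0_160_ok : chkT tr0 tr1 false b0_160 14208 19712 6912 10624 39328 45888 0 0 0 = true := by
  decide +kernel

theorem b0_161_ok : chkT tr0 tr1 false b0_161 19712 25216 3200 6912 39328 45888 0 0 0 = true := by
  decide +kernel

theorem b0_162_ok : chkT tr0 tr1 false b0_162 19712 25216 6912 10624 39328 42608 0 0 0 = true := by
  decide +kernel

theorem b0_163_ok : chkT tr0 tr1 false b0_163 19712 22464 6912 10624 42608 45888 0 0 0 = true := by
  decide +kernel

theorem b0_164_ok : chkT tr0 tr1 false b0_164 22464 25216 6912 8768 42608 44248 0 0 0 = true := by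
  decide +kernel

theorem b0_165_ok : chkT tr0 tr1 false b0_165 22464 25216 6912 8768 44248 45888 0 0 0 = true := by
  decide +kernel

theorem b0_166_ok : chkT tr0 tr1 false b0_166 22464 25216 8768 10624 42608 45888 0 0 0 = true := by
  decide +kernel

theorem b0_167_ok : chkT tr0 tr1 false b0_167 14208 25216 10624 18048 32768 39328 0 0 0 = true := by
  decide +kernel

theorem b0_168_ok : chkT tr0 tr1 false b0_168 14208 25216 10624 18048 39328 45888 0 0 0 = true := by
  decide +kernel

theorem b0_169_ok : chkT tr0 tr1 false b0_169 3200 14208 3200 18048 45888 59008 0 0 0 = true := by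
  decide +kernel

theorem b0_170_ok : chkT tr0 tr1 false b0_170 14208 19712 3200 6912 45888 52448 0 0 0 = true := by
  decide +kernel

theorem b0_171_ok : chkT tr0 tr1 false b0_171 14208 16960 6912 10624 45888 49168 0 0 0 = true := by
  decide +kernel

theorem b0_172_ok : chkT tr0 tr1 false b0_172 16960 19712 6912 10624 45888 49168 0 0 0 = true := by
  decide +kernel

theorem b0_173_ok : chkT tr0 tr1 false b0_173 14208 19712 6912 10624 49168 52448 0 0 0 = true := by
  decide +kernel

theorem b0_174_ok : chkT tr0 tr1 false b0_174 19712 25216 3200 10624 45888 52448 0 0 0 = true := by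
  decide +kernel

theorem b0_175_ok : chkT tr0 tr1 false b0_175 14208 25216 3200 10624 52448 59008 0 0 0 = true := by
  decide +kernel

theorem b0_176_ok : chkT tr0 tr1 false b0_176 14208 25216 10624 18048 45888 52448 0 0 0 = true := by
  decide +kernel

theorem b0_177_ok : chkT tr0 tr1 false b0_177 14208 25216 10624 18048 52448 59008 0 0 0 = true := by
  decide +kernel

theorem b0_178_ok : chkT tr0 tr1 false b0_178 3200 25216 18048 32896 32768 45888 0 0 0 = true := by
  decide +kernel

theorem b0_179_ok : chkT tr0 tr1 false b0_179 14208 19712 18048 25472 45888 52448 0 0 0 = true := by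
  decide +kernel

theorem b0_180_ok : chkT tr0 tr1 false b0_180 19712 25216 18048 21760 45888 52448 0 0 0 = true := by
  decide +kernel

theorem b0_181_ok : chkT tr0 tr1 false b0_181 19712 22464 21760 25472 45888 49168 0 0 0 = true := by
  decide +kernel

theorem b0_182_ok : chkT tr0 tr1 false b0_182 22464 25216 21760 23616 45888 47528 0 0 0 = true := by
  decide +kernel

theorem b0_183_ok : chkT tr0 tr1 false b0_183 22464 25216 21760 23616 47528 49168 0 0 0 = true := by
  decide +kernel

theorem b0_184_ok : chkT tr0 tr1 false b0_184 22464 25216 23616 25472 45888 49168 0 0 0 = true := by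
  decide +kernel

theorem b0_185_ok : chkT tr0 tr1 false b0_185 19712 25216 21760 25472 49168 52448 0 0 0 = true := by
  decide +kernel

theorem b0_186_ok : chkT tr0 tr1 false b0_186 14208 25216 18048 25472 52448 59008 0 0 0 = true := by
  decide +kernel

theorem b0_187_ok : chkT tr0 tr1 false b0_187 25216 36224 3200 10624 32768 39328 0 0 0 = true := by
  decide +kernel

theorem b0_188_ok : chkT tr0 tr1 false b0_188 25216 30720 3200 6912 39328 45888 0 0 0 = true := by
  decide +kernel

theorem b0_189_ok : chkT tr0 tr1 false b0_189 25216 30720 6912 10624 39328 45888 0 0 0 = true := by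
  decide +kernel

theorem b0_190_ok : chkT tr0 tr1 false b0_190 30720 36224 3200 10624 39328 45888 0 0 0 = true := by
  decide +kernel

theorem b0_191_ok : chkT tr0 tr1 false b0_191 25216 36224 10624 18048 32768 45888 0 0 0 = true := by
  decide +kernel

theorem b0_192_ok : chkT tr0 tr1 false b0_192 36224 41728 3200 10624 32768 39328 0 0 0 = true := by
  decide +kernel

theorem b0_193_ok : chkT tr0 tr1 false b0_193 41728 47232 3200 6912 32768 39328 0 0 0 = true := by
  decide +kernel

theorem b0_194_ok : chkT tr0 tr1 false b0_194 41728 47232 6912 10624 32768 39328 0 0 0 = true := by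
  decide +kernel

theorem b0_195_ok : chkT tr0 tr1 false b0_195 36224 47232 3200 10624 39328 45888 0 0 0 = true := by
  decide +kernel

theorem b0_196_ok : chkT tr0 tr1 false b0_196 36224 38976 10624 12480 32768 36048 0 0 0 = true := by
  decide +kernel

theorem b0_197_ok : chkT tr0 tr1 false b0_197 36224 38976 12480 14336 32768 34408 0 0 0 = true := by
  decide +kernel

theorem b0_198_ok : chkT tr0 tr1 false b0_198 36224 38976 12480 14336 34408 36048 0 0 0 = true := by
  decide +kernel

theorem b0_199_ok : chkT tr0 tr1 false b0_199 38976 41728 10624 14336 32768 36048 0 0 0 = true := by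
  decide +kernel

end CF3
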