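import Pool.Agent.CF3.Trees

namespace CF3

theorem b0_200_ok : chkT tr0 tr1 false b0_200 36224 41728 10624 14336 36048 39328 0 0 0 = true := by
  decide +kernel

theorem b0_201_ok : chkT tr0 tr1 false b0_201 36224 41728 14336 18048 32768 39328 0 0 0 = true := by
  decide +kernel

theorem b0_202_ok : chkT tr0 tr1 false b0_202 41728 47232 10624 18048 32768 39328 0 0 0 = true := by
  decide +kernel

theorem b0_203_ok : chkT tr0 tr1 false b0_203 36224 47232 10624 18048 39328 45888 0 0 0 = true := by
  decide +kernel

theorem b0_204_ok : chkT tr0 tr1 false b0_204 25216 30720 3200 10624 45888 52448 0 0 0 = true := by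
  decide +kernel

theorem b0_205_ok : chkT tr0 tr1 false b0_205 30720 33472 3200 6912 45888 49168 0 0 0 = true := by
  decide +kernel

theorem b0_206_ok : chkT tr0 tr1 false b0_206 33472 36224 3200 6912 45888 49168 0 0 0 = true := by
  decide +kernel

theorem b0_207_ok : chkT tr0 tr1 false b0_207 30720 36224 3200 6912 49168 52448 0 0 0 = true := by
  decide +kernel

theorem b0_208_ok : chkT tr0 tr1 false b0_208 30720 36224 6912 10624 45888 52448 0 0 0 = true := by
  decide +kernel

theorem b0_209_ok : chkT tr0 tr1 false b0_209 25216 30720 3200 10624 52448 59008 0 0 0 = true := by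
  decide +kernel

theorem b0_210_ok : chkT tr0 tr1 false b0_210 30720 36224 3200 6912 52448 55728 0 0 0 = true := by
  decide +kernel

theorem b0_211_ok : chkT tr0 tr1 false b0_211 30720 36224 3200 6912 55728 59008 0 0 0 = true := by
  decide +kernel

theorem b0_212_ok : chkT tr0 tr1 false b0_212 30720 36224 6912 10624 52448 59008 0 0 0 = true := by
  decide +kernel

theorem b0_213_ok : chkT tr0 tr1 false b0_213 25216 36224 10624 18048 45888 52448 0 0 0 = true := by
  decide +kernel

theorem b0_214_ok : chkT tr0 tr1 false b0_214 25216 36224 10624 18048 52448 59008 0 0 0 = true := by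
  decide +kernel

theorem b0_215_ok : chkT tr0 tr1 false b0_215 36224 47232 3200 10624 45888 52448 0 0 0 = true := by
  decide +kernel

theorem b0_216_ok : chkT tr0 tr1 false b0_216 36224 38976 3200 6912 52448 55728 0 0 0 = true := by
  decide +kernel

theorem b0_217_ok : chkT tr0 tr1 false b0_217 38976 41728 3200 6912 52448 55728 0 0 0 = true := by
  decide +kernel

theorem b0_218_ok : chkT tr0 tr1 false b0_218 36224 41728 3200 6912 55728 59008 0 0 0 = true := by
  decide +kernel

theorem b0_219_ok : chkT tr0 tr1 false b0_219 36224 41728 6912 10624 52448 59008 0 0 0 = true := by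
  decide +kernel

theorem b0_220_ok : chkT tr0 tr1 false b0_220 41728 44480 3200 5056 52448 55728 0 0 0 = true := by
  decide +kernel

theorem b0_221_ok : chkT tr0 tr1 false b0_221 41728 44480 5056 6912 52448 55728 0 0 0 = true := by
  decide +kernel

theorem b0_222_ok : chkT tr0 tr1 false b0_222 44480 47232 3200 6912 52448 55728 0 0 0 = true := by
  decide +kernel

theorem b0_223_ok : chkT tr0 tr1 false b0_223 41728 47232 3200 6912 55728 59008 0 0 0 = true := by
  decide +kernel

theorem b0_224_ok : chkT tr0 tr1 false b0_224 41728 47232 6912 10624 52448 59008 0 0 0 = true := by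
  decide +kernel

theorem b0_225_ok : chkT tr0 tr1 false b0_225 36224 47232 10624 18048 45888 52448 0 0 0 = true := by
  decide +kernel

theorem b0_226_ok : chkT tr0 tr1 false b0_226 36224 41728 10624 14336 52448 59008 0 0 0 = true := by
  decide +kernel

theorem b0_227_ok : chkT tr0 tr1 false b0_227 36224 41728 14336 18048 52448 59008 0 0 0 = true := by
  decide +kernel

theorem b0_228_ok : chkT tr0 tr1 false b0_228 41728 47232 10624 18048 52448 59008 0 0 0 = true := by
  decide +kernel

theorem b0_229_ok : chkT tr0 tr1 false b0_229 25216 36224 18048 25472 32768 45888 0 0 0 = true := by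
  decide +kernel

theorem b0_230_ok : chkT tr0 tr1 false b0_230 25216 30720 25472 29184 32768 39328 0 0 0 = true := by
  decide +kernel

theorem b0_231_ok : chkT tr0 tr1 false b0_231 25216 30720 29184 32896 32768 36048 0 0 0 = true := by
  decide +kernel

theorem b0_232_ok : chkT tr0 tr1 false b0_232 25216 30720 29184 32896 36048 39328 0 0 0 = true := by
  decide +kernel

theorem b0_233_ok : chkT tr0 tr1 false b0_233 30720 36224 25472 29184 32768 36048 0 0 0 = true := by
  decide +kernel

theorem b0_234_ok : chkT tr0 tr1 false b0_234 30720 36224 25472 29184 36048 39328 0 0 0 = true := by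
  decide +kernel

theorem b0_235_ok : chkT tr0 tr1 false b0_235 30720 36224 29184 32896 32768 39328 0 0 0 = true := by
  decide +kernel

theorem b0_236_ok : chkT tr0 tr1 false b0_236 25216 30720 25472 32896 39328 45888 0 0 0 = true := by
  decide +kernel

theorem b0_237_ok : chkT tr0 tr1 false b0_237 30720 33472 25472 29184 39328 42608 0 0 0 = true := by
  decide +kernel

theorem b0_238_ok : chkT tr0 tr1 false b0_238 33472 36224 25472 29184 39328 42608 0 0 0 = true := by
  decide +kernel

theorem b0_239_ok : chkT tr0 tr1 false b0_239 30720 36224 25472 29184 42608 45888 0 0 0 = true := by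
  decide +kernel

end CF3
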