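import Pool.Agent.CF3.Trees

namespace CF3

theorem b0_240_ok : chkT tr0 tr1 false b0_240 30720 36224 29184 32896 39328 45888 0 0 0 = true := by
  decide +kernel

theorem b0_241_ok : chkT tr0 tr1 false b0_241 36224 47232 18048 32896 32768 45888 0 0 0 = true := by
  decide +kernel

theorem b0_242_ok : chkT tr0 tr1 false b0_242 25216 36224 18048 25472 45888 59008 0 0 0 = true := by
  decide +kernel

theorem b0_243_ok : chkT tr0 tr1 false b0_243 25216 30720 25472 32896 45888 52448 0 0 0 = true := by
  decide +kernel

theorem b0_244_ok : chkT tr0 tr1 false b0_244 30720 36224 25472 32896 45888 52448 0 0 0 = true := by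
  decide +kernel

theorem b0_245_ok : chkT tr0 tr1 false b0_245 25216 27968 25472 29184 52448 55728 0 0 0 = true := by
  decide +kernel

theorem b0_246_ok : chkT tr0 tr1 false b0_246 27968 30720 25472 29184 52448 55728 0 0 0 = true := by
  decide +kernel

theorem b0_247_ok : chkT tr0 tr1 false b0_247 25216 30720 25472 29184 55728 59008 0 0 0 = true := by
  decide +kernel

theorem b0_248_ok : chkT tr0 tr1 false b0_248 30720 36224 25472 32896 52448 59008 0 0 0 = true := by
  decide +kernel

theorem b0_249_ok : chkT tr0 tr1 false b0_249 36224 47232 18048 32896 45888 59008 0 0 0 = true := by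
  decide +kernel

theorem b1_250_ok : chkT tr0 tr1 true b1_250 28032 31232 14336 18048 9808 13088 0 0 0 = true := by
  decide +kernel

theorem b1_251_ok : chkT tr0 tr1 true b1_251 31232 34432 14336 18048 9808 13088 0 0 0 = true := by
  decide +kernel

theorem b1_252_ok : chkT tr0 tr1 true b1_252 21632 34432 10624 18048 13088 19648 0 0 0 = true := by
  decide +kernel

theorem b1_253_ok : chkT tr0 tr1 true b1_253 34432 40832 10624 18048 6528 13088 0 0 0 = true := by
  decide +kernel

theorem b1_254_ok : chkT tr0 tr1 true b1_254 40832 47232 10624 18048 6528 13088 0 0 0 = true := by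
  decide +kernel

theorem b1_255_ok : chkT tr0 tr1 true b1_255 34432 47232 10624 18048 13088 19648 0 0 0 = true := by
  decide +kernel

theorem b1_256_ok : chkT tr0 tr1 true b1_256 21632 34432 10624 18048 19648 26208 0 0 0 = true := by
  decide +kernel

theorem b1_257_ok : chkT tr0 tr1 true b1_257 28032 34432 14336 18048 26208 29488 0 0 0 = true := by
  decide +kernel

theorem b1_258_ok : chkT tr0 tr1 true b1_258 31232 34432 14336 16192 29488 31128 0 0 0 = true := by
  decide +kernel

theorem b1_259_ok : chkT tr0 tr1 true b1_259 31232 34432 14336 16192 31128 32768 0 0 0 = true := by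
  decide +kernel

theorem b1_260_ok : chkT tr0 tr1 true b1_260 31232 34432 16192 18048 29488 32768 0 0 0 = true := by
  decide +kernel

theorem b1_261_ok : chkT tr0 tr1 true b1_261 34432 47232 10624 18048 19648 26208 0 0 0 = true := by
  decide +kernel

theorem b1_262_ok : chkT tr0 tr1 true b1_262 34432 40832 10624 14336 26208 32768 0 0 0 = true := by
  decide +kernel

theorem b1_263_ok : chkT tr0 tr1 true b1_263 34432 40832 14336 18048 26208 29488 0 0 0 = true := by
  decide +kernel

theorem b1_264_ok : chkT tr0 tr1 true b1_264 34432 36032 14336 16192 29488 31128 0 0 0 = true := by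
  decide +kernel

theorem b1_265_ok : chkT tr0 tr1 true b1_265 36032 37632 14336 16192 29488 31128 0 0 0 = true := by
  decide +kernel

theorem b1_266_ok : chkT tr0 tr1 true b1_266 34432 36032 14336 16192 31128 32768 0 0 0 = true := by
  decide +kernel

theorem b1_267_ok : chkT tr0 tr1 true b1_267 36032 37632 14336 15264 31128 31948 0 0 0 = true := by
  decide +kernel

theorem b1_268_ok : chkT tr0 tr1 true b1_268 36032 37632 14336 15264 31948 32768 0 0 0 = true := by
  decide +kernel

theorem b1_269_ok : chkT tr0 tr1 true b1_269 36032 37632 15264 16192 31128 32768 0 0 0 = true := by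
  decide +kernel

theorem b1_270_ok : chkT tr0 tr1 true b1_270 34432 37632 16192 18048 29488 32768 0 0 0 = true := by
  decide +kernel

theorem b1_271_ok : chkT tr0 tr1 true b1_271 37632 40832 14336 18048 29488 32768 0 0 0 = true := by
  decide +kernel

theorem b1_272_ok : chkT tr0 tr1 true b1_272 40832 44032 10624 12480 26208 29488 0 0 0 = true := by
  decide +kernel

theorem b1_273_ok : chkT tr0 tr1 true b1_273 40832 44032 12480 14336 26208 29488 0 0 0 = true := by
  decide +kernel

theorem b1_274_ok : chkT tr0 tr1 true b1_274 40832 44032 10624 12480 29488 32768 0 0 0 = true := by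
  decide +kernel

theorem b1_275_ok : chkT tr0 tr1 true b1_275 40832 44032 12480 14336 29488 32768 0 0 0 = true := by
  decide +kernel

theorem b1_276_ok : chkT tr0 tr1 true b1_276 40832 47232 14336 18048 26208 29488 0 0 0 = true := by
  decide +kernel

theorem b1_277_ok : chkT tr0 tr1 true b1_277 40832 47232 14336 18048 29488 32768 0 0 0 = true := by
  decide +kernel

theorem b1_278_ok : chkT tr0 tr1 true b1_278 21632 28032 18048 21760 6528 13088 0 0 0 = true := by
  decide +kernel

theorem b1_279_ok : chkT tr0 tr1 true b1_279 21632 28032 21760 25472 6528 9808 0 0 0 = true := by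
  decide +kernel

end CF3
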