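import Pool.Agent.CF3.Trees

namespace CF3

theorem b1_280_ok : chkT tr0 tr1 true b1_280 21632 24832 21760 25472 9808 13088 0 0 0 = true := by
  decide +kernel

theorem b1_281_ok : chkT tr0 tr1 true b1_281 24832 28032 21760 23616 9808 13088 0 0 0 = true := by
  decide +kernel

theorem b1_282_ok : chkT tr0 tr1 true b1_282 24832 28032 23616 25472 9808 13088 0 0 0 = true := by
  decide +kernel

theorem b1_283_ok : chkT tr0 tr1 true b1_283 28032 34432 18048 21760 6528 9808 0 0 0 = true := by
  decide +kernel

theorem b1_284_ok : chkT tr0 tr1 true b1_284 28032 31232 18048 21760 9808 13088 0 0 0 = true := by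
  decide +kernel

theorem b1_285_ok : chkT tr0 tr1 true b1_285 31232 34432 18048 21760 9808 13088 0 0 0 = true := by
  decide +kernel

theorem b1_286_ok : chkT tr0 tr1 true b1_286 28032 34432 21760 25472 6528 13088 0 0 0 = true := by
  decide +kernel

theorem b1_287_ok : chkT tr0 tr1 true b1_287 21632 24832 18048 21760 13088 16368 0 0 0 = true := by
  decide +kernel

theorem b1_288_ok : chkT tr0 tr1 true b1_288 24832 28032 18048 21760 13088 16368 0 0 0 = true := by
  decide +kernel

theorem b1_289_ok : chkT tr0 tr1 true b1_289 21632 28032 18048 21760 16368 19648 0 0 0 = true := by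
  decide +kernel

theorem b1_290_ok : chkT tr0 tr1 true b1_290 21632 28032 21760 25472 13088 16368 0 0 0 = true := by
  decide +kernel

theorem b1_291_ok : chkT tr0 tr1 true b1_291 21632 28032 21760 25472 16368 19648 0 0 0 = true := by
  decide +kernel

theorem b1_292_ok : chkT tr0 tr1 true b1_292 28032 34432 18048 25472 13088 19648 0 0 0 = true := by
  decide +kernel

theorem b1_293_ok : chkT tr0 tr1 true b1_293 21632 34432 25472 32896 6528 13088 0 0 0 = true := by
  decide +kernel

theorem b1_294_ok : chkT tr0 tr1 true b1_294 21632 28032 25472 32896 13088 19648 0 0 0 = true := by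
  decide +kernel

theorem b1_295_ok : chkT tr0 tr1 true b1_295 28032 34432 25472 29184 13088 16368 0 0 0 = true := by
  decide +kernel

theorem b1_296_ok : chkT tr0 tr1 true b1_296 28032 31232 25472 27328 16368 19648 0 0 0 = true := by
  decide +kernel

theorem b1_297_ok : chkT tr0 tr1 true b1_297 28032 31232 27328 29184 16368 19648 0 0 0 = true := by
  decide +kernel

theorem b1_298_ok : chkT tr0 tr1 true b1_298 31232 34432 25472 29184 16368 19648 0 0 0 = true := by
  decide +kernel

theorem b1_299_ok : chkT tr0 tr1 true b1_299 28032 34432 29184 32896 13088 19648 0 0 0 = true := by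
  decide +kernel

theorem b1_300_ok : chkT tr0 tr1 true b1_300 34432 47232 18048 32896 6528 19648 0 0 0 = true := by
  decide +kernel

theorem b1_301_ok : chkT tr0 tr1 true b1_301 21632 28032 18048 21760 19648 26208 0 0 0 = true := by
  decide +kernel

theorem b1_302_ok : chkT tr0 tr1 true b1_302 21632 28032 21760 25472 19648 26208 0 0 0 = true := by
  decide +kernel

theorem b1_303_ok : chkT tr0 tr1 true b1_303 28032 34432 18048 25472 19648 26208 0 0 0 = true := by
  decide +kernel

theorem b1_304_ok : chkT tr0 tr1 true b1_304 21632 28032 18048 21760 26208 32768 0 0 0 = true := by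
  decide +kernel

theorem b1_305_ok : chkT tr0 tr1 true b1_305 21632 28032 21760 25472 26208 32768 0 0 0 = true := by
  decide +kernel

theorem b1_306_ok : chkT tr0 tr1 true b1_306 28032 34432 18048 25472 26208 32768 0 0 0 = true := by
  decide +kernel

theorem b1_307_ok : chkT tr0 tr1 true b1_307 21632 34432 25472 32896 19648 32768 0 0 0 = true := by
  decide +kernel

theorem b1_308_ok : chkT tr0 tr1 true b1_308 34432 47232 18048 25472 19648 26208 0 0 0 = true := by
  decide +kernel

theorem b1_309_ok : chkT tr0 tr1 true b1_309 34432 40832 18048 21760 26208 32768 0 0 0 = true := by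
  decide +kernel

theorem b1_310_ok : chkT tr0 tr1 true b1_310 34432 40832 21760 25472 26208 32768 0 0 0 = true := by
  decide +kernel

theorem b1_311_ok : chkT tr0 tr1 true b1_311 40832 47232 18048 25472 26208 32768 0 0 0 = true := by
  decide +kernel

theorem b1_312_ok : chkT tr0 tr1 true b1_312 21632 47232 3200 18048 32768 45888 0 0 0 = true := by
  decide +kernel

theorem b1_313_ok : chkT tr0 tr1 true b1_313 21632 34432 3200 18048 45888 59008 0 0 0 = true := by
  decide +kernel

theorem b1_314_ok : chkT tr0 tr1 true b1_314 34432 47232 3200 18048 45888 59008 0 0 0 = true := by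
  decide +kernel

theorem b1_315_ok : chkT tr0 tr1 true b1_315 21632 34432 18048 25472 32768 45888 0 0 0 = true := by
  decide +kernel

theorem b1_316_ok : chkT tr0 tr1 true b1_316 21632 34432 25472 32896 32768 45888 0 0 0 = true := by
  decide +kernel

theorem b1_317_ok : chkT tr0 tr1 true b1_317 34432 47232 18048 32896 32768 45888 0 0 0 = true := by
  decide +kernel

theorem b1_318_ok : chkT tr0 tr1 true b1_318 21632 34432 18048 25472 45888 59008 0 0 0 = true := by
  decide +kernel

theorem b1_319_ok : chkT tr0 tr1 true b1_319 21632 34432 25472 32896 45888 59008 0 0 0 = true := by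
  decide +kernel

end CF3
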