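import Pool.Agent.CF3.Trees

namespace CF3

theorem b1_320_ok : chkT tr0 tr1 true b1_320 34432 47232 18048 32896 45888 59008 0 0 0 = true := by
  decide +kernel

end CF3
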