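import Pool.Agent.CF3.Ck00
import Pool.Agent.CF3.Ck01
import Pool.Agent.CF3.Ck02
import Pool.Agent.CF3.Ck03
import Pool.Agent.CF3.Ck04
import Pool.Agent.CF3.Ck05
import Pool.Agent.CF3.Ck06
import Pool.Agent.CF3.Ck07
import Pool.Agent.CF3.Ck08

namespace CF3

variable {T0 T1 : Tree} {cls : Bool} {l r : Tree} {m A0 A1 B0 B1 U0 U1 x y z : ℕ}

lemma chkT_B : chkT T0 T1 cls .B A0 A1 B0 B1 U0 U1 x y z = true := rfl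

lemma chkT_Y0 (h1 : chkT T0 T1 cls l A0 A1 B0 B1 U0 U1 1 y z = true)
    (h2 : chkT T0 T1 cls r A0 A1 B0 B1 U0 U1 2 y z = true) :
    chkT T0 T1 cls (.Y 0 l r) A0 A1 B0 B1 U0 U1 x y z = true := by
  show (_ && _) = true
  exact Bool.and_eq_true_iff.2 ⟨h1, h2⟩

lemma chkT_Y1 (h1 : chkT T0 T1 cls l A0 A1 B0 B1 U0 U1 x 1 z = true)
    (h2 : chkT T0 T1 cls r A0 A1 B0 B1 U0 U1 x 2 z = true) :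
    chkT T0 T1 cls (.Y 1 l r) A0 A1 B0 B1 U0 U1 x y z = true := by
  show (_ && _) = true
  exact Bool.and_eq_true_iff.2 ⟨h1, h2⟩

lemma chkT_Y2 (h1 : chkT T0 T1 cls l A0 A1 B0 B1 U0 U1 x y 1 = true)
    (h2 : chkT T0 T1 cls r A0 A1 B0 B1 U0 U1 x y 2 = true) :
    chkT T0 T1 cls (.Y 2 l r) A0 A1 B0 B1 U0 U1 x y z = true := by
  show (_ && _) = true
  exact Bool.and_eq_true_iff.2 ⟨h1, h2⟩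

lemma chkT_S0 (h1 : chkT T0 T1 cls l A0 m B0 B1 U0 U1 x y z = true)
    (h2 : chkT T0 T1 cls r m A1 B0 B1 U0 U1 x y z = true) :
    chkT T0 T1 cls (.S 0 m l r) A0 A1 B0 B1 U0 U1 x y z = true := by
  show (_ && _) = true
  exact Bool.and_eq_true_iff.2 ⟨h1, h2⟩

lemma chkT_S1 (h1 : chkT T0 T1 cls l A0 A1 B0 m U0 U1 x y z = true)
    (h2 : chkT T0 T1 cls r A0 A1 m B1 U0 U1 x y z = true) :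
    chkT T0 T1 cls (.S 1 m l r) A0 A1 B0 B1 U0 U1 x y z = true := by
  show (_ && _) = true
  exact Bool.and_eq_true_iff.2 ⟨h1, h2⟩

lemma chkT_S2 (h1 : chkT T0 T1 cls l A0 A1 B0 B1 U0 m x y z = true)
    (h2 : chkT T0 T1 cls r A0 A1 B0 B1 m U1 x y z = true) :
    chkT T0 T1 cls (.S 2 m l r) A0 A1 B0 B1 U0 U1 x y z = true := by
  show (_ && _) = true
  exact Bool.and_eq_true_iff.2 ⟨h1, h2⟩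

theorem tr0_ok : chkT tr0 tr1 false tr0 3200 47232 3200 32896 6528 59008 0 0 0 = true :=
(chkT_S2 (chkT_S0 (chkT_S1 (chkT_S2 (chkT_S0 (chkT_S1 b0_0_ok
b0_1_ok)
(chkT_S1 (chkT_S2 (chkT_S0 (chkT_S1 b0_2_ok
b0_3_ok)
b0_4_ok)
b0_5_ok)
(chkT_S2 (chkT_S0 (chkT_S1 (chkT_S2 b0_6_ok
b0_7_ok)
(chkT_S2 b0_8_ok
b0_9_ok))
(chkT_S1 b0_10_ok
(chkT_S2 (chkT_S0 (chkT_S1 b0_11_ok
b0_12_ok)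
b0_13_ok)
b0_14_ok)))
(chkT_S0 (chkT_S1 (chkT_S2 b0_15_ok
b0_16_ok)
(chkT_S2 b0_17_ok
b0_18_ok))
b0_19_ok))))
(chkT_S0 b0_20_ok
(chkT_S1 (chkT_S2 (chkT_S0 b0_21_ok
b0_22_ok)
b0_23_ok)
(chkT_S2 (chkT_S0 b0_24_ok
(chkT_S1 (chkT_S2 (chkT_S0 (by decide +kernel)
(chkT_S1 (chkT_S2 b0_25_ok
(chkT_S0 b0_26_ok
(chkT_S1 b0_27_ok
b0_28_ok)))
b0_29_ok))
b0_30_ok)
b0_31_ok))
b0_32_ok))))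
(chkT_S2 (chkT_S0 chkT_B
(chkT_S1 (chkT_S2 (chkT_S0 b0_33_ok
b0_34_ok)
(chkT_S0 b0_35_ok
(chkT_S1 (chkT_S2 (chkT_S0 b0_36_ok
b0_37_ok)
b0_38_ok)
b0_39_ok)))
chkT_B))
b0_40_ok))
(chkT_S1 (chkT_S2 (chkT_S0 (chkT_S1 b0_41_ok
b0_42_ok)
(chkT_S1 b0_43_ok
b0_44_ok))
(chkT_S0 (chkT_S1 (chkT_S2 (chkT_S0 (chkT_S1 b0_45_ok
(chkT_S2 b0_46_ok
(chkT_S0 b0_47_ok
b0_48_ok)))
(chkT_S1 b0_49_ok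
(chkT_S2 (chkT_S0 b0_50_ok
b0_51_ok)
b0_52_ok)))
b0_53_ok)
(chkT_S2 (chkT_S0 (chkT_S1 (chkT_S2 (chkT_S0 (chkT_S1 (chkT_S2 b0_54_ok
(chkT_S0 b0_55_ok
b0_56_ok))
b0_57_ok)
b0_58_ok)
(chkT_S0 (chkT_S1 (chkT_S2 (chkT_S0 b0_59_ok
b0_60_ok)
b0_61_ok)
b0_62_ok)
b0_63_ok))
b0_64_ok)
(chkT_S1 b0_65_ok
(chkT_S2 b0_66_ok
(chkT_S0 b0_67_ok
(chkT_S1 b0_68_ok
b0_69_ok)))))
b0_70_ok))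
(chkT_S1 (chkT_S2 b0_71_ok
(chkT_S0 (chkT_S1 b0_72_ok
b0_73_ok)
(chkT_S1 b0_74_ok
(chkT_S2 b0_75_ok
b0_76_ok))))
(chkT_S2 (chkT_S0 (chkT_S1 b0_77_ok
(chkT_S2 b0_78_ok
(chkT_S0 b0_79_ok
(chkT_S1 (by decide +kernel)
(chkT_S2 b0_80_ok
b0_81_ok)))))
(chkT_S1 b0_82_ok
(chkT_S2 b0_83_ok
(chkT_S0 (chkT_S1 b0_84_ok
b0_85_ok)
chkT_B))))
(chkT_S0 (chkT_S1 b0_86_ok
(chkT_S2 (chkT_S0 b0_87_ok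
(chkT_S1 b0_88_ok
b0_89_ok))
(by decide +kernel)))
(chkT_S1 (chkT_S2 (chkT_S0 (chkT_S1 b0_90_ok
(chkT_S2 (chkT_S0 b0_91_ok
b0_92_ok)
b0_93_ok))
b0_94_ok)
b0_95_ok)
(chkT_S2 (chkT_S0 (chkT_S1 b0_96_ok
b0_97_ok)
chkT_B)
b0_98_ok)))))))
(chkT_S2 (chkT_S0 (chkT_S1 (chkT_S2 b0_99_ok
(chkT_S0 (chkT_S1 b0_100_ok
b0_101_ok)
(chkT_S1 b0_102_ok
(chkT_S2 b0_103_ok
(chkT_S0 b0_104_ok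
b0_105_ok)))))
(chkT_S2 b0_106_ok
(chkT_S0 (chkT_S1 (chkT_S2 b0_107_ok
(chkT_S0 b0_108_ok
(chkT_S1 (chkT_S2 b0_109_ok
b0_110_ok)
b0_111_ok)))
b0_112_ok)
b0_113_ok)))
(chkT_S1 (chkT_S2 b0_114_ok
(chkT_S0 (chkT_S1 (chkT_S2 (chkT_S0 b0_115_ok
b0_116_ok)
b0_117_ok)
b0_118_ok)
chkT_B))
chkT_B))
(chkT_S0 (chkT_S1 b0_119_ok
(chkT_S2 (chkT_S0 b0_120_ok
b0_121_ok)
(chkT_S0 b0_122_ok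
b0_123_ok)))
(chkT_S1 (chkT_S2 (chkT_S0 (chkT_S1 (chkT_S2 b0_124_ok
(chkT_S0 b0_125_ok
(chkT_S1 (chkT_S2 b0_126_ok
b0_127_ok)
b0_128_ok)))
b0_129_ok)
chkT_B)
b0_130_ok)
chkT_B)))))
(chkT_S0 (chkT_S1 (chkT_S2 (chkT_S0 (chkT_S1 (chkT_S2 (chkT_S0 chkT_B
(chkT_S1 chkT_B
(chkT_S2 b0_131_ok
(chkT_S0 chkT_B
(chkT_S1 b0_132_ok
(chkT_S2 b0_133_ok
b0_134_ok))))))
b0_135_ok)
(chkT_S2 (chkT_S0 chkT_B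
(chkT_S1 (chkT_S2 b0_136_ok
(chkT_S0 b0_137_ok
(chkT_S1 (chkT_S2 b0_138_ok
(chkT_S0 b0_139_ok
b0_140_ok))
b0_141_ok)))
chkT_B))
b0_142_ok))
(chkT_S1 (chkT_S2 (chkT_S0 (chkT_S1 (chkT_S2 (chkT_S0 b0_143_ok
(chkT_S1 b0_144_ok
b0_145_ok))
(chkT_S0 b0_146_ok
(chkT_S1 b0_147_ok
b0_148_ok)))
(chkT_S2 b0_149_ok
(chkT_S0 (chkT_S1 (chkT_S2 b0_150_ok
(chkT_S0 b0_151_ok
(chkT_S1 b0_152_ok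
b0_153_ok)))
(chkT_S2 b0_154_ok
(chkT_S0 b0_155_ok
b0_156_ok)))
b0_157_ok)))
b0_158_ok)
(chkT_S0 (chkT_S1 b0_159_ok
b0_160_ok)
(chkT_S1 b0_161_ok
(chkT_S2 b0_162_ok
(chkT_S0 b0_163_ok
(chkT_S1 (chkT_S2 b0_164_ok
b0_165_ok)
b0_166_ok))))))
(chkT_S2 b0_167_ok
b0_168_ok)))
(chkT_S0 b0_169_ok
(chkT_S1 (chkT_S2 (chkT_S0 (chkT_S1 b0_170_ok
(chkT_S2 (chkT_S0 b0_171_ok
b0_172_ok)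
b0_173_ok))
b0_174_ok)
b0_175_ok)
(chkT_S2 b0_176_ok
b0_177_ok))))
(chkT_S2 b0_178_ok
(chkT_S0 chkT_B
(chkT_S1 (chkT_S2 (chkT_S0 b0_179_ok
(chkT_S1 b0_180_ok
(chkT_S2 (chkT_S0 b0_181_ok
(chkT_S1 (chkT_S2 b0_182_ok
b0_183_ok)
b0_184_ok))
b0_185_ok)))
b0_186_ok)
chkT_B))))
(chkT_S1 (chkT_S2 (chkT_S0 (chkT_S1 (chkT_S2 b0_187_ok
(chkT_S0 (chkT_S1 b0_188_ok
b0_189_ok)
b0_190_ok))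
b0_191_ok)
(chkT_S1 (chkT_S2 (chkT_S0 b0_192_ok
(chkT_S1 b0_193_ok
b0_194_ok))
b0_195_ok)
(chkT_S2 (chkT_S0 (chkT_S1 (chkT_S2 (chkT_S0 (chkT_S1 b0_196_ok
(chkT_S2 b0_197_ok
b0_198_ok))
b0_199_ok)
b0_200_ok)
b0_201_ok)
b0_202_ok)
b0_203_ok)))
(chkT_S0 (chkT_S1 (chkT_S2 (chkT_S0 b0_204_ok
(chkT_S1 (chkT_S2 (chkT_S0 b0_205_ok
b0_206_ok)
b0_207_ok)
b0_208_ok))
(chkT_S0 b0_209_ok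
(chkT_S1 (chkT_S2 b0_210_ok
b0_211_ok)
b0_212_ok)))
(chkT_S2 b0_213_ok
b0_214_ok))
(chkT_S1 (chkT_S2 b0_215_ok
(chkT_S0 (chkT_S1 (chkT_S2 (chkT_S0 b0_216_ok
b0_217_ok)
b0_218_ok)
b0_219_ok)
(chkT_S1 (chkT_S2 (chkT_S0 (chkT_S1 b0_220_ok
b0_221_ok)
b0_222_ok)
b0_223_ok)
b0_224_ok)))
(chkT_S2 b0_225_ok
(chkT_S0 (chkT_S1 b0_226_ok
b0_227_ok)
b0_228_ok)))))
(chkT_S2 (chkT_S0 (chkT_S1 b0_229_ok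
(chkT_S2 (chkT_S0 (chkT_S1 b0_230_ok
(chkT_S2 b0_231_ok
b0_232_ok))
(chkT_S1 (chkT_S2 b0_233_ok
b0_234_ok)
b0_235_ok))
(chkT_S0 b0_236_ok
(chkT_S1 (chkT_S2 (chkT_S0 b0_237_ok
b0_238_ok)
b0_239_ok)
b0_240_ok))))
b0_241_ok)
(chkT_S0 (chkT_S1 b0_242_ok
(chkT_S2 (chkT_S0 b0_243_ok
b0_244_ok)
(chkT_S0 (chkT_S1 (chkT_S2 (chkT_S0 b0_245_ok
b0_246_ok)
b0_247_ok)
(chkT_S2 (chkT_S0 chkT_B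
(chkT_S1 (by decide +kernel)
chkT_B))
chkT_B))
b0_248_ok)))
b0_249_ok)))))

theorem tr1_ok : chkT tr0 tr1 true tr1 21632 47232 3200 32896 6528 59008 0 0 0 = true :=
(chkT_S2 (chkT_S1 (chkT_S2 (chkT_S0 (chkT_S1 chkT_B
(chkT_S2 (chkT_S0 chkT_B
(chkT_S1 chkT_B
(chkT_S2 chkT_B
(chkT_S0 b1_250_ok
b1_251_ok))))
b1_252_ok))
(chkT_S1 chkT_B
(chkT_S2 (chkT_S0 b1_253_ok
b1_254_ok)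
b1_255_ok)))
(chkT_S0 (chkT_S1 chkT_B
(chkT_S2 b1_256_ok
(chkT_S0 chkT_B
(chkT_S1 chkT_B
(chkT_S2 b1_257_ok
(chkT_S0 (chkT_S1 chkT_B
(by decide +kernel))
(chkT_S1 (chkT_S2 b1_258_ok
b1_259_ok)
b1_260_ok)))))))
(chkT_S1 chkT_B
(chkT_S2 b1_261_ok
(chkT_S0 (chkT_S1 b1_262_ok
(chkT_S2 b1_263_ok
(chkT_S0 (chkT_S1 (chkT_S2 (chkT_S0 b1_264_ok
b1_265_ok)
(chkT_S0 b1_266_ok
(chkT_S1 (chkT_S2 b1_267_ok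
b1_268_ok)
b1_269_ok)))
b1_270_ok)
b1_271_ok)))
(chkT_S1 (chkT_S2 (chkT_S0 (chkT_S1 b1_272_ok
b1_273_ok)
chkT_B)
(chkT_S0 (chkT_S1 b1_274_ok
b1_275_ok)
chkT_B))
(chkT_S2 b1_276_ok
b1_277_ok)))))))
(chkT_S2 (chkT_S0 (chkT_S1 (chkT_S2 (chkT_S0 (chkT_S1 b1_278_ok
(chkT_S2 b1_279_ok
(chkT_S0 b1_280_ok
(chkT_S1 b1_281_ok
b1_282_ok))))
(chkT_S1 (chkT_S2 b1_283_ok
(chkT_S0 b1_284_ok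
b1_285_ok))
b1_286_ok))
(chkT_S0 (chkT_S1 (chkT_S2 (chkT_S0 b1_287_ok
b1_288_ok)
b1_289_ok)
(chkT_S2 b1_290_ok
b1_291_ok))
b1_292_ok))
(chkT_S2 b1_293_ok
(chkT_S0 b1_294_ok
(chkT_S1 (chkT_S2 b1_295_ok
(chkT_S0 (chkT_S1 b1_296_ok
b1_297_ok)
b1_298_ok))
b1_299_ok))))
b1_300_ok)
(chkT_S0 (chkT_S1 (chkT_S2 (chkT_S0 (chkT_S1 b1_301_ok
b1_302_ok)
b1_303_ok)
(chkT_S0 (chkT_S1 b1_304_ok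
b1_305_ok)
b1_306_ok))
b1_307_ok)
(chkT_S1 (chkT_S2 b1_308_ok
(chkT_S0 (chkT_S1 b1_309_ok
b1_310_ok)
b1_311_ok))
chkT_B))))
(chkT_S1 (chkT_S2 b1_312_ok
(chkT_S0 b1_313_ok
b1_314_ok))
(chkT_S2 (chkT_S0 (chkT_S1 b1_315_ok
b1_316_ok)
b1_317_ok)
(chkT_S0 (chkT_S1 b1_318_ok
b1_319_ok)
b1_320_ok))))

end CF3
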