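import Mathlib

/-!
# Sums of three continued fractions with small partial quotients: abstract part

Definitions (partial quotients via the Gauss map, the sets `B2 j`, `S j`), words and their
cylinder hulls, exact refinement formulas, and the theorem `uncountable_of_closed`: a family of
triples of words which is closed under two incomparable refinements and whose hull sums contain
`1` gives uncountably many solutions of `x + y + z = 1`.
-/

namespace CF3

open Set

/-! ## Definitions -/

/-- The Gauss map. -/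
noncomputable def gauss (x : ℝ) : ℝ := Int.fract (1 / x)

/-- The `k`-th partial quotient (`k ≥ 1`) of an irrational `x ∈ (0,1)`:
`x = 1/(digit x 1 + 1/(digit x 2 + ⋯))`. -/
noncomputable def digit (x : ℝ) (k : ℕ) : ℤ := ⌊1 / (gauss^[k - 1] x)⌋

/-- `B2 j`: the irrational numbers in `(0,1)` whose first `j` partial quotients are at most `3`
and whose other partial quotients are at most `2`. -/
def B2 (j : ℕ) : Set ℝ :=
  {x | 0 < x ∧ x < 1 ∧ Irrational x ∧ (∀ k, 1 ≤ k → k ≤ j → digit x k ≤ 3) ∧
    ∀ k, j < k → digit x k ≤ 2}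

/-- `S j`: the triples `x ≤ y ≤ z` in `B2 j` with `x + y + z = 1`. -/
def S (j : ℕ) : Set (ℝ × ℝ × ℝ) :=
  {t | t.1 ∈ B2 j ∧ t.2.1 ∈ B2 j ∧ t.2.2 ∈ B2 j ∧ t.1 ≤ t.2.1 ∧ t.2.1 ≤ t.2.2 ∧
    t.1 + t.2.1 + t.2.2 = 1}

/-! ## Words -/

/-- Lower end of the hull of the numbers with partial quotients in `{1,2}`. -/
noncomputable def mm : ℝ := 56 / 153
/-- Upper end of the hull. -/
noncomputable def MM : ℝ := 153 / 209

/-- The Moebius map of a word. -/
noncomputable def app : List ℕ → ℝ → ℝ
  | [], t => t
  | a :: w, t => 1 / ((a : ℝ) + app w t)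

/-- The integer matrix `(a b; c d)` of a word: `app w t = (a t + b) / (c t + d)`. -/
structure Mob where
  a : ℕ
  b : ℕ
  c : ℕ
  d : ℕ

/-- The matrix of a word. -/
def mat : List ℕ → Mob
  | [] => ⟨1, 0, 0, 1⟩
  | k :: w => ⟨(mat w).c, (mat w).d, (mat w).a + k * (mat w).c, (mat w).b + k * (mat w).d⟩

/-- All digits are positive. -/
def Pos (w : List ℕ) : Prop := ∀ k ∈ w, 1 ≤ k

/-- All digits are `1` or `2`. -/
def W12 (w : List ℕ) : Prop := ∀ k ∈ w, k = 1 ∨ k = 2

/-- Digits in `{1,2,3}`, and in `{1,2}` from place `j + 1` on (index `j` on, counted from `0`). -/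
def Adm (j : ℕ) (w : List ℕ) : Prop :=
  ∀ i (h : i < w.length), 1 ≤ w[i] ∧ w[i] ≤ 3 ∧ (j ≤ i → w[i] ≤ 2)

/-- lower end of the hull of the cylinder of `w` -/
noncomputable def lo (w : List ℕ) : ℝ := if Even w.length then app w mm else app w MM

/-- upper end of the hull of the cylinder of `w` -/
noncomputable def hi (w : List ℕ) : ℝ := if Even w.length then app w MM else app w mm

/-- size of the hull of the cylinder of `w` -/
noncomputable def size (w : List ℕ) : ℝ := hi w - lo w

/-- `q'/q` -/
noncomputable def rho (w : List ℕ) : ℝ := ((mat w).c : ℝ) / (mat w).d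

/-- The fraction of the hull on the `m` side of the point `t`. -/
noncomputable def FF (r t : ℝ) : ℝ := (t - mm) * (1 + r * MM) / ((MM - mm) * (1 + r * t))

lemma mm_pos : 0 < mm := by norm_num [mm]
lemma MM_pos : 0 < MM := by norm_num [MM]
lemma mm_lt_MM : mm < MM := by norm_num [mm, MM]
lemma MM_lt_one : MM < 1 := by norm_num [MM]

lemma app_append (w s : List ℕ) (t : ℝ) : app (w ++ s) t = app w (app s t) := by
  induction w with
  | nil => rfl
  | cons a w ih => simp only [List.cons_append, app, ih]

lemma Pos.cons {a : ℕ} {w : List ℕ} (h : Pos (a :: w)) : 1 ≤ a ∧ Pos w :=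
  ⟨h a (by simp), fun k hk => h k (by simp [hk])⟩

lemma Pos.append {w s : List ℕ} (h : Pos w) (h' : Pos s) : Pos (w ++ s) := by
  intro k hk
  rcases List.mem_append.1 hk with h1 | h1
  · exact h k h1
  · exact h' k h1

lemma W12.pos {w : List ℕ} (h : W12 w) : Pos w := by
  intro k hk
  rcases h k hk with h | h <;> omega

lemma W12.cons {a : ℕ} {w : List ℕ} (h : W12 (a :: w)) : (a = 1 ∨ a = 2) ∧ W12 w :=
  ⟨h a (by simp), fun k hk => h k (by simp [hk])⟩

lemma Adm.pos {j : ℕ} {w : List ℕ} (h : Adm j w) : Pos w := by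
  intro k hk
  obtain ⟨i, hi, rfl⟩ := List.mem_iff_getElem.1 hk
  exact (h i hi).1

lemma mat_d_pos {w : List ℕ} (h : Pos w) : 1 ≤ (mat w).d := by
  induction w with
  | nil => simp [mat]
  | cons a w ih =>
    have h1 := h.cons.1
    have h2 := ih h.cons.2
    simp only [mat]
    nlinarith

lemma mat_append (w s : List ℕ) : mat (w ++ s) =
    ⟨(mat w).a * (mat s).a + (mat w).b * (mat s).c, (mat w).a * (mat s).b + (mat w).b * (mat s).d,
     (mat w).c * (mat s).a + (mat w).d * (mat s).c, (mat w).c * (mat s).b + (mat w).d * (mat s).d⟩ := by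
  induction w with
  | nil => simp [mat]
  | cons a w ih =>
    simp only [List.cons_append, mat, ih]
    congr 1 <;> ring

lemma app_pos {w : List ℕ} (h : Pos w) {t : ℝ} (ht : 0 < t) : 0 < app w t := by
  induction w with
  | nil => simpa [app] using ht
  | cons a w ih =>
    have h2 := ih h.cons.2
    simp only [app]
    positivity

lemma app_eq {w : List ℕ} (h : Pos w) {t : ℝ} (ht : 0 < t) :
    app w t = ((mat w).a * t + (mat w).b) / ((mat w).c * t + (mat w).d) := by
  induction w with
  | nil => simp [app, mat]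
  | cons a w ih =>
    have h2 := ih h.cons.2
    have h3 := mat_d_pos h.cons.2
    have h4 : (0:ℝ) < (mat w).d := by exact_mod_cast h3
    have h5 : (0:ℝ) < (mat w).c * t + (mat w).d := by positivity
    have h6 := app_pos h.cons.2 ht
    have h7 : (1:ℝ) ≤ a := by exact_mod_cast h.cons.1
    simp only [app, mat]
    rw [h2] at h6 ⊢
    have h8 : (0:ℝ) < (mat w).a * t + (mat w).b := by
      have := mul_pos h6 h5
      rwa [div_mul_cancel₀ _ h5.ne'] at this
    push_cast
    have h9 : (0:ℝ) < ((mat w).a + a * (mat w).c) * t + ((mat w).b + a * (mat w).d) := by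
      nlinarith [mul_pos (lt_of_lt_of_le one_pos h7) h5]
    field_simp
    ring

lemma mat_det (w : List ℕ) :
    (Even w.length → ((mat w).a : ℝ) * (mat w).d - (mat w).b * (mat w).c = 1) ∧
    (¬ Even w.length → ((mat w).a : ℝ) * (mat w).d - (mat w).b * (mat w).c = -1) := by
  induction w with
  | nil => simp [mat]
  | cons a w ih =>
    have e : (((mat (a :: w)).a : ℝ) * (mat (a :: w)).d - (mat (a :: w)).b * (mat (a :: w)).c)
        = -(((mat w).a : ℝ) * (mat w).d - (mat w).b * (mat w).c) := by
      simp only [mat]; push_cast; ring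
    rw [e]
    constructor
    · intro h
      have : ¬ Even w.length := by
        intro h'
        simp only [List.length_cons] at h
        exact (Nat.even_add_one.1 h) h'
      rw [ih.2 this]; ring
    · intro h
      have : Even w.length := by
        by_contra h'
        apply h
        simp only [List.length_cons]
        exact Nat.even_add_one.2 h'
      rw [ih.1 this]

/-- difference formula -/
lemma app_sub {w : List ℕ} (h : Pos w) {s t : ℝ} (hs : 0 < s) (ht : 0 < t) :
    app w t - app w s = (((mat w).a : ℝ) * (mat w).d - (mat w).b * (mat w).c) * (t - s) /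
      (((mat w).c * t + (mat w).d) * ((mat w).c * s + (mat w).d)) := by
  have h4 : (0:ℝ) < (mat w).d := by exact_mod_cast mat_d_pos h
  have h5 : (0:ℝ) < (mat w).c * t + (mat w).d := by positivity
  have h6 : (0:ℝ) < (mat w).c * s + (mat w).d := by positivity
  rw [app_eq h hs, app_eq h ht]
  field_simp
  ring

lemma size_eq {w : List ℕ} (h : Pos w) :
    size w = (MM - mm) / (((mat w).c * mm + (mat w).d) * ((mat w).c * MM + (mat w).d)) := by
  unfold size hi lo
  by_cases he : Even w.length
  · rw [if_pos he, if_pos he, app_sub h mm_pos MM_pos, (mat_det w).1 he]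
    rw [one_mul, mul_comm (((mat w).c : ℝ) * MM + (mat w).d)]
  · rw [if_neg he, if_neg he, app_sub h MM_pos mm_pos, (mat_det w).2 he]
    congr 1; ring

lemma den_pos {w : List ℕ} (h : Pos w) {t : ℝ} (ht : 0 < t) :
    (0:ℝ) < (mat w).c * t + (mat w).d := by
  have h4 : (0:ℝ) < (mat w).d := by exact_mod_cast mat_d_pos h
  positivity

lemma size_pos {w : List ℕ} (h : Pos w) : 0 < size w := by
  rw [size_eq h]
  have := den_pos h mm_pos
  have := den_pos h MM_pos
  have := sub_pos.2 mm_lt_MM
  positivity

lemma rho_nonneg (w : List ℕ) : 0 ≤ rho w := by unfold rho; positivity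

/-- position formula, even case -/
lemma app_even {w : List ℕ} (h : Pos w) (he : Even w.length) {t : ℝ} (ht : 0 < t) :
    app w t = lo w + FF (rho w) t * size w := by
  have h1 := app_sub h mm_pos ht
  have h4 : (0:ℝ) < (mat w).d := by exact_mod_cast mat_d_pos h
  have h5 := den_pos h mm_pos
  have h6 := den_pos h MM_pos
  have h7 := den_pos h ht
  have h8 := sub_pos.2 mm_lt_MM
  rw [(mat_det w).1 he] at h1
  have h9 : lo w = app w mm := by unfold lo; rw [if_pos he]
  rw [size_eq h, h9]
  have h10 : FF (rho w) t * ((MM - mm) / (((mat w).c * mm + (mat w).d) * ((mat w).c * MM + (mat w).d)))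
      = 1 * (t - mm) / (((mat w).c * t + (mat w).d) * ((mat w).c * mm + (mat w).d)) := by
    unfold FF rho
    have h11 : (0:ℝ) < 1 + ((mat w).c : ℝ) / (mat w).d * t := by positivity
    have e1 : 1 + ((mat w).c : ℝ) / (mat w).d * t = ((mat w).c * t + (mat w).d) / (mat w).d := by
      field_simp; ring
    have e2 : 1 + ((mat w).c : ℝ) / (mat w).d * MM = ((mat w).c * MM + (mat w).d) / (mat w).d := by
      field_simp; ring
    rw [e1, e2]
    field_simp
  linarith

/-- position formula, odd case -/
lemma app_odd {w : List ℕ} (h : Pos w) (he : ¬ Even w.length) {t : ℝ} (ht : 0 < t) :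
    app w t = hi w - FF (rho w) t * size w := by
  have h1 := app_sub h mm_pos ht
  have h4 : (0:ℝ) < (mat w).d := by exact_mod_cast mat_d_pos h
  have h5 := den_pos h mm_pos
  have h6 := den_pos h MM_pos
  have h7 := den_pos h ht
  have h8 := sub_pos.2 mm_lt_MM
  rw [(mat_det w).2 he] at h1
  have h9 : hi w = app w mm := by unfold hi; rw [if_neg he]
  rw [size_eq h, h9]
  have h10 : FF (rho w) t * ((MM - mm) / (((mat w).c * mm + (mat w).d) * ((mat w).c * MM + (mat w).d)))
      = 1 * (t - mm) / (((mat w).c * t + (mat w).d) * ((mat w).c * mm + (mat w).d)) := by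
    unfold FF rho
    have h11 : (0:ℝ) < 1 + ((mat w).c : ℝ) / (mat w).d * t := by positivity
    have e1 : 1 + ((mat w).c : ℝ) / (mat w).d * t = ((mat w).c * t + (mat w).d) / (mat w).d := by
      field_simp; ring
    have e2 : 1 + ((mat w).c : ℝ) / (mat w).d * MM = ((mat w).c * MM + (mat w).d) / (mat w).d := by
      field_simp; ring
    rw [e1, e2]
    field_simp
  rw [h10]
  have h11 : (-1 : ℝ) * (t - mm) / (((mat w).c * t + (mat w).d) * ((mat w).c * mm + (mat w).d))
    = - (1 * (t - mm) / (((mat w).c * t + (mat w).d) * ((mat w).c * mm + (mat w).d))) := by ring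
  rw [h11] at h1
  linarith

/-! ## The hull is invariant -/

lemma step1 {t : ℝ} (h1 : mm ≤ t) (h2 : t ≤ MM) : mm ≤ 1 / (1 + t) ∧ 1 / (1 + t) ≤ MM := by
  unfold mm MM at *
  have : (0:ℝ) < 1 + t := by linarith
  constructor
  · rw [le_div_iff₀ this]; linarith
  · rw [div_le_iff₀ this]; linarith

lemma step2 {t : ℝ} (h1 : mm ≤ t) (h2 : t ≤ MM) : mm ≤ 1 / (2 + t) ∧ 1 / (2 + t) ≤ MM := by
  unfold mm MM at *
  have : (0:ℝ) < 2 + t := by linarith
  constructor
  · rw [le_div_iff₀ this]; linarith
  · rw [div_le_iff₀ this]; linarith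

lemma app_hull {w : List ℕ} (h : W12 w) {t : ℝ} (h1 : mm ≤ t) (h2 : t ≤ MM) :
    mm ≤ app w t ∧ app w t ≤ MM := by
  induction w with
  | nil => exact ⟨h1, h2⟩
  | cons a w ih =>
    obtain ⟨h3, h4⟩ := ih h.cons.2
    simp only [app]
    rcases h.cons.1 with rfl | rfl
    · simpa using step1 h3 h4
    · simpa using step2 h3 h4

lemma rho_append {w : List ℕ} (h : Pos w) (s : List ℕ) :
    rho (w ++ s) = (rho w * (mat s).a + (mat s).c) / (rho w * (mat s).b + (mat s).d) := by
  unfold rho
  rw [mat_append]
  have h4 : (0:ℝ) < (mat w).d := by exact_mod_cast mat_d_pos h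
  have e1 : ((mat w).c : ℝ) / (mat w).d * (mat s).a + (mat s).c =
      ((mat w).c * (mat s).a + (mat w).d * (mat s).c) / (mat w).d := by field_simp
  have e2 : ((mat w).c : ℝ) / (mat w).d * (mat s).b + (mat s).d =
      ((mat w).c * (mat s).b + (mat w).d * (mat s).d) / (mat w).d := by field_simp
  push_cast
  rw [e1, e2, div_div_div_cancel_right₀ h4.ne']

lemma rho_snoc {w : List ℕ} (h : Pos w) (a : ℕ) (ha : 1 ≤ a) : rho (w ++ [a]) = 1 / (a + rho w) := by
  rw [rho_append h]
  simp only [mat]
  push_cast
  have := rho_nonneg w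
  have h1 : (1:ℝ) ≤ a := by exact_mod_cast ha
  congr 1 <;> ring

lemma rho_hull {w : List ℕ} (h : Pos w) (h1 : mm ≤ rho w) (h2 : rho w ≤ MM) (s : List ℕ)
    (hs : W12 s) : mm ≤ rho (w ++ s) ∧ rho (w ++ s) ≤ MM := by
  induction s generalizing w with
  | nil => simpa using ⟨h1, h2⟩
  | cons a s ih =>
    have e : w ++ a :: s = (w ++ [a]) ++ s := by simp
    rw [e]
    have hp : Pos (w ++ [a]) := by
      apply Pos.append h
      intro k hk
      simp only [List.mem_singleton] at hk
      subst hk
      rcases hs.cons.1 with h | h <;> omega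
    have h5 : mm ≤ rho (w ++ [a]) ∧ rho (w ++ [a]) ≤ MM := by
      rcases hs.cons.1 with rfl | rfl
      · rw [rho_snoc h 1 le_rfl]; simpa using step1 h1 h2
      · rw [rho_snoc h 2 (by norm_num)]; simpa using step2 h1 h2
    exact ih hp h5.1 h5.2 hs.cons.2

lemma lo_hull {s : List ℕ} (hs : W12 s) : mm ≤ lo s ∧ lo s ≤ MM := by
  unfold lo
  split_ifs
  · exact app_hull hs le_rfl mm_lt_MM.le
  · exact app_hull hs mm_lt_MM.le le_rfl

lemma hi_hull {s : List ℕ} (hs : W12 s) : mm ≤ hi s ∧ hi s ≤ MM := by
  unfold hi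
  split_ifs
  · exact app_hull hs mm_lt_MM.le le_rfl
  · exact app_hull hs le_rfl mm_lt_MM.le

/-! ## Refinement formulas -/

lemma lo_append_even {w s : List ℕ} (hw : Pos w) (he : Even w.length) (hs : W12 s) :
    lo (w ++ s) = lo w + FF (rho w) (lo s) * size w := by
  have h0 : 0 < lo s := lt_of_lt_of_le mm_pos (lo_hull hs).1
  rw [← app_even hw he h0]
  unfold lo
  by_cases h : Even s.length
  · rw [if_pos h, if_pos (by rw [List.length_append]; exact he.add h), app_append]
  · rw [if_neg h, if_neg (by rw [List.length_append, Nat.even_add]; tauto), app_append]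

lemma hi_append_even {w s : List ℕ} (hw : Pos w) (he : Even w.length) (hs : W12 s) :
    hi (w ++ s) = hi w - (1 - FF (rho w) (hi s)) * size w := by
  have h0 : 0 < hi s := lt_of_lt_of_le mm_pos (hi_hull hs).1
  have h1 : hi (w ++ s) = app w (hi s) := by
    unfold hi
    by_cases h : Even s.length
    · rw [if_pos h, if_pos (by rw [List.length_append]; exact he.add h), app_append]
    · rw [if_neg h, if_neg (by rw [List.length_append, Nat.even_add]; tauto), app_append]
  rw [h1, app_even hw he h0]
  unfold size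
  ring

lemma lo_append_odd {w s : List ℕ} (hw : Pos w) (he : ¬ Even w.length) (hs : W12 s) :
    lo (w ++ s) = lo w + (1 - FF (rho w) (hi s)) * size w := by
  have h0 : 0 < hi s := lt_of_lt_of_le mm_pos (hi_hull hs).1
  have h1 : lo (w ++ s) = app w (hi s) := by
    unfold lo hi
    by_cases h : Even s.length
    · rw [if_pos h, if_neg (by rw [List.length_append, Nat.even_add]; tauto), app_append]
    · rw [if_neg h, if_pos (by rw [List.length_append, Nat.even_add]; tauto), app_append]
  rw [h1, app_odd hw he h0]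
  unfold size
  ring

lemma hi_append_odd {w s : List ℕ} (hw : Pos w) (he : ¬ Even w.length) (hs : W12 s) :
    hi (w ++ s) = hi w - FF (rho w) (lo s) * size w := by
  have h0 : 0 < lo s := lt_of_lt_of_le mm_pos (lo_hull hs).1
  rw [← app_odd hw he h0]
  unfold lo hi
  by_cases h : Even s.length
  · rw [if_pos h, if_neg (by rw [List.length_append, Nat.even_add]; tauto), app_append]
  · rw [if_neg h, if_pos (by rw [List.length_append, Nat.even_add]; tauto), app_append]

/-- The new size is `size w` times `FF (hi s) - FF (lo s)`. -/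
lemma size_append {w s : List ℕ} (hw : Pos w) (hs : W12 s) :
    size (w ++ s) = (FF (rho w) (hi s) - FF (rho w) (lo s)) * size w := by
  by_cases he : Even w.length
  · have h1 := lo_append_even hw he hs
    have h2 := hi_append_even hw he hs
    have h3 : size (w ++ s) = hi (w ++ s) - lo (w ++ s) := rfl
    have h4 : hi w = lo w + size w := by unfold size; ring
    rw [h3, h1, h2, h4]; ring
  · have h1 := lo_append_odd hw he hs
    have h2 := hi_append_odd hw he hs
    have h3 : size (w ++ s) = hi (w ++ s) - lo (w ++ s) := rfl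
    have h4 : hi w = lo w + size w := by unfold size; ring
    rw [h3, h1, h2, h4]; ring

lemma FF_nonneg {r t : ℝ} (hr : 0 ≤ r) (h1 : mm ≤ t) : 0 ≤ FF r t := by
  unfold FF
  have := mm_pos
  have := MM_pos
  have := sub_nonneg.2 h1
  have := sub_pos.2 mm_lt_MM
  have : 0 ≤ t := by linarith
  positivity

lemma one_sub_FF {r t : ℝ} (hr : 0 ≤ r) (h1 : mm ≤ t) :
    1 - FF r t = (MM - t) * (1 + r * mm) / ((MM - mm) * (1 + r * t)) := by
  unfold FF
  have := mm_pos
  have := MM_pos
  have h2 := sub_pos.2 mm_lt_MM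
  have : 0 < t := by linarith
  have h3 : 0 < 1 + r * t := by positivity
  field_simp
  ring

lemma FF_le_one {r t : ℝ} (hr : 0 ≤ r) (h1 : mm ≤ t) (h2 : t ≤ MM) : FF r t ≤ 1 := by
  have h := one_sub_FF hr h1
  have h3 : 0 ≤ 1 - FF r t := by
    rw [h]
    have := mm_pos
    have := MM_pos
    have := sub_nonneg.2 h2
    have := sub_pos.2 mm_lt_MM
    have : 0 ≤ t := by linarith
    positivity
  linarith

lemma lo_le_append {w s : List ℕ} (hw : Pos w) (hs : W12 s) : lo w ≤ lo (w ++ s) := by
  have h := size_pos hw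
  by_cases he : Even w.length
  · rw [lo_append_even hw he hs]
    have := FF_nonneg (rho_nonneg w) (lo_hull hs).1
    nlinarith
  · rw [lo_append_odd hw he hs]
    have := FF_le_one (rho_nonneg w) (hi_hull hs).1 (hi_hull hs).2
    nlinarith

lemma hi_append_le {w s : List ℕ} (hw : Pos w) (hs : W12 s) : hi (w ++ s) ≤ hi w := by
  have h := size_pos hw
  by_cases he : Even w.length
  · rw [hi_append_even hw he hs]
    have := FF_le_one (rho_nonneg w) (hi_hull hs).1 (hi_hull hs).2
    nlinarith
  · rw [hi_append_odd hw he hs]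
    have := FF_nonneg (rho_nonneg w) (lo_hull hs).1
    nlinarith

lemma lo_lt_hi {w : List ℕ} (hw : Pos w) : lo w < hi w := by
  have := size_pos hw
  unfold size at this
  linarith

end CF3
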