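import Pool.Agent.CF3.Abstract

/-!
# A finite certificate for sums of three cylinders: the checker

Integer (scaled by `65536`) bookkeeping of triples of cylinders: a normalised state has sizes
`a ≥ b`, `c` with `a + b + c = 65536` and a position `u`. Two trees describe a region of states
(tree `T0`: the third cylinder is oriented against the first two, tree `T1`: all three have the
same orientation); the checker verifies that every state of the region can be refined into the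
region.
-/

namespace CF3

/-- Bounds (scaled by `65536`) for the cost at the lower end, the cost at the upper end and the
relative size of a refinement: `a ≤ cm ≤ b`, `c ≤ cM ≤ d`, `e ≤ 1 - cm - cM ≤ f`. -/
structure Row where
  a : ℕ
  b : ℕ
  c : ℕ
  d : ℕ
  e : ℕ
  f : ℕ

/-- A region of states. `B`: empty; `L k c1 c2`: everything, with rank `k` and the codes of one or
two refinements; `Y i l r`: `l` if the last digit of the `i`-th word is `1`, `r` if it is `2`;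
`S i m l r`: `l` if the `i`-th coordinate of `(a, b, u)` is at most `m`, else `r`. -/
inductive Tree
  | B : Tree
  | L : ℕ → ℕ → ℕ → Tree
  | Y : ℕ → Tree → Tree → Tree
  | S : ℕ → ℕ → Tree → Tree → Tree

/-- Evaluate the number before passing it on. -/
def frc (n : ℕ) (f : ℕ → Bool) : Bool :=
  match n with
  | 0 => f 0
  | Nat.succ k => f (Nat.succ k)

lemma frc_eq (n : ℕ) (f : ℕ → Bool) : frc n f = f n := by cases n <;> rfl

/-- Table of integer bounds (scaled by 65536) for the word number `i` and the type `y`. -/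
def rowOf (y i : ℕ) : Row :=
  bif Nat.ble i 15 then (bif Nat.ble i 7 then (bif Nat.ble i 3 then (bif Nat.ble i 1 then (bif Nat.ble i 0 then (bif Nat.beq y 0 then ⟨0, 0, 0, 0, 65536, 65536⟩ else bif Nat.beq y 1 then ⟨0, 0, 0, 0, 65536, 65536⟩ else ⟨0, 0, 0, 0, 65536, 65536⟩) else (bif Nat.beq y 0 then ⟨39605, 40850, 0, 1, 24686, 25931⟩ else bif Nat.beq y 1 then ⟨40371, 40850, 0, 1, 24686, 25165⟩ else ⟨39605, 39826, 0, 1, 25710, 25931⟩)) else (bif Nat.ble i 2 then (bif Nat.beq y 0 then ⟨2, 3, 53641, 54401, 11132, 11893⟩ else bif Nat.beq y 1 then ⟨2, 3, 53641, 53940, 11594, 11893⟩ else ⟨2, 3, 54270, 54401, 11132, 11264⟩) else (bif Nat.beq y 0 then ⟨39605, 40850, 15207, 16163, 9299, 9957⟩ else bif Nat.beq y 1 then ⟨40371, 40850, 15207, 15572, 9410, 9663⟩ else ⟨39605, 39826, 15991, 16163, 9684, 9802⟩))) else (bif Nat.ble i 5 then (bif Nat.ble i 4 then (bif Nat.beq y 0 then ⟨60829, 61168, 0, 1, 4367, 4706⟩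 else bif Nat.beq y 1 then ⟨61039, 61168, 0, 1, 4367, 4496⟩ else ⟨60829, 60891, 0, 1, 4644, 4706⟩) else (bif Nat.beq y 0 then ⟨2, 3, 60828, 61167, 4367, 4706⟩ else bif Nat.beq y 1 then ⟨2, 3, 60828, 60962, 4572, 4706⟩ else ⟨2, 3, 61108, 61167, 4367, 4426⟩)) else (bif Nat.ble i 6 then (bif Nat.beq y 0 then ⟨9221, 9875, 53641, 54402, 1891, 2044⟩ else bif Nat.beq y 1 then ⟨9617, 9875, 53641, 53940, 1969, 2030⟩ else ⟨9221, 9334, 54270, 54402, 1909, 1936⟩) else (bif Nat.beq y 0 then ⟨45622, 46715, 15207, 16163, 3544, 3824⟩ else bif Nat.beq y 1 then ⟨46297, 46715, 15207, 15572, 3587, 3694⟩ else ⟨45622, 45818, 15991, 16163, 3713, 3764⟩)))) else (bif Nat.ble i 11 then (bif Nat.ble i 9 then (bif Nat.ble i 8 then (bif Nat.beq y 0 then ⟨39606, 40850, 22993, 24202, 1645, 1779⟩ else bif Nat.beq y 1 then ⟨40372, 40850, 22993, 23457, 1674, 1727⟩ else ⟨39606, 39827, 23987, 24202, 1713, 1737⟩) else (bif Nat.beq y 0 then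 ⟨63673, 63813, 0, 1, 1722, 1862⟩ else bif Nat.beq y 1 then ⟨63760, 63813, 0, 1, 1722, 1775⟩ else ⟨63673, 63699, 0, 1, 1836, 1862⟩)) else (bif Nat.ble i 10 then (bif Nat.beq y 0 then ⟨60829, 61168, 3622, 3907, 741, 803⟩ else bif Nat.beq y 1 then ⟨61040, 61168, 3622, 3731, 744, 768⟩ else ⟨60829, 60891, 3855, 3907, 788, 800⟩) else (bif Nat.beq y 0 then ⟨2718, 2936, 60828, 61167, 1645, 1779⟩ else bif Nat.beq y 1 then ⟨2849, 2936, 60828, 60962, 1722, 1775⟩ else ⟨2718, 2756, 61108, 61167, 1649, 1673⟩))) else (bif Nat.ble i 13 then (bif Nat.ble i 12 then (bif Nat.beq y 0 then ⟨2, 3, 64679, 64745, 788, 854⟩ else bif Nat.beq y 1 then ⟨2, 3, 64679, 64706, 828, 854⟩ else ⟨2, 3, 64733, 64745, 788, 800⟩) else (bif Nat.beq y 0 then ⟨10382, 11102, 53641, 54402, 741, 803⟩ else bif Nat.beq y 1 then ⟨10819, 11102, 53641, 53940, 772, 797⟩ else ⟨10382, 10507, 54270, 54402, 750, 761⟩)) else (bif Nat.ble i 14 then (bif Nat.beq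 y 0 then ⟨9221, 9875, 55314, 55987, 324, 352⟩ else bif Nat.beq y 1 then ⟨9617, 9875, 55314, 55579, 338, 349⟩ else ⟨9221, 9334, 55871, 55987, 327, 333⟩) else (bif Nat.beq y 0 then ⟨45622, 46715, 17439, 18484, 1351, 1462⟩ else bif Nat.beq y 1 then ⟨46297, 46715, 17439, 17839, 1369, 1412⟩ else ⟨45622, 45818, 18297, 18484, 1415, 1436⟩))))) else (bif Nat.ble i 23 then (bif Nat.ble i 19 then (bif Nat.ble i 17 then (bif Nat.ble i 16 then (bif Nat.beq y 0 then ⟨48703, 49686, 15207, 16163, 630, 683⟩ else bif Nat.beq y 1 then ⟨49310, 49686, 15207, 15572, 638, 659⟩ else ⟨48703, 48879, 15992, 16163, 662, 673⟩) else (bif Nat.beq y 0 then ⟨39606, 40850, 24017, 25249, 648, 703⟩ else bif Nat.beq y 1 then ⟨40372, 40850, 24017, 24491, 660, 682⟩ else ⟨39606, 39827, 25030, 25249, 675, 686⟩)) else (bif Nat.ble i 18 then (bif Nat.beq y 0 then ⟨41039, 42255, 22993, 24202, 280, 304⟩ else bif Nat.beq y 1 then ⟨41788, 42255,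 22993, 23457, 285, 295⟩ else ⟨41039, 41255, 23987, 24202, 292, 297⟩) else (bif Nat.beq y 0 then ⟨63673, 63813, 1073, 1162, 648, 703⟩ else bif Nat.beq y 1 then ⟨63760, 63813, 1073, 1107, 649, 670⟩ else ⟨63673, 63699, 1145, 1162, 691, 702⟩))) else (bif Nat.ble i 21 then (bif Nat.ble i 20 then (bif Nat.beq y 0 then ⟨65197, 65224, 0, 2, 311, 338⟩ else bif Nat.beq y 1 then ⟨65213, 65224, 0, 2, 311, 322⟩ else ⟨65197, 65202, 1, 2, 333, 338⟩) else (bif Nat.beq y 0 then ⟨60829, 61168, 4075, 4393, 291, 316⟩ else bif Nat.beq y 1 then ⟨61040, 61168, 4075, 4196, 291, 302⟩ else ⟨60829, 60891, 4335, 4393, 309, 314⟩)) else (bif Nat.ble i 22 then (bif Nat.beq y 0 then ⟨61491, 61786, 3622, 3907, 127, 139⟩ else bif Nat.beq y 1 then ⟨61674, 61786, 3622, 3731, 127, 132⟩ else ⟨61491, 61545, 3855, 3907, 135, 138⟩) else (bif Nat.beq y 0 then ⟨2718, 2936, 61920, 62185, 630, 683⟩ else bif Nat.beq y 1 then ⟨2849, 2936, 61920,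 62025, 660, 682⟩ else ⟨2718, 2756, 62139, 62185, 632, 642⟩)))) else (bif Nat.ble i 27 then (bif Nat.ble i 25 then (bif Nat.ble i 24 then (bif Nat.beq y 0 then ⟨4077, 4395, 60828, 61167, 291, 316⟩ else bif Nat.beq y 1 then ⟨4269, 4395, 60828, 60962, 304, 315⟩ else ⟨4077, 4132, 61108, 61167, 292, 297⟩) else (bif Nat.beq y 0 then ⟨2, 3, 65195, 65222, 311, 338⟩ else bif Nat.beq y 1 then ⟨2, 3, 65195, 65206, 327, 338⟩ else ⟨2, 3, 65217, 65222, 311, 317⟩)) else (bif Nat.ble i 26 then (bif Nat.beq y 0 then ⟨657, 712, 64679, 64745, 134, 146⟩ else bif Nat.beq y 1 then ⟨689, 712, 64679, 64706, 140, 146⟩ else ⟨657, 667, 64733, 64745, 134, 137⟩) else (bif Nat.beq y 0 then ⟨10382, 11102, 54134, 54870, 280, 304⟩ else bif Nat.beq y 1 then ⟨10819, 11102, 54134, 54423, 291, 302⟩ else ⟨10382, 10507, 54742, 54870, 283, 288⟩))) else (bif Nat.ble i 29 then (bif Nat.ble i 28 then (bif Nat.beq y 0 then ⟨10998, 11752, 53641,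 54402, 134, 146⟩ else bif Nat.beq y 1 then ⟨11455, 11752, 53641, 53940, 139, 144⟩ else ⟨10998, 11129, 54270, 54402, 135, 138⟩) else (bif Nat.beq y 0 then ⟨9221, 9875, 55525, 56186, 127, 139⟩ else bif Nat.beq y 1 then ⟨9617, 9875, 55525, 55785, 132, 138⟩ else ⟨9221, 9334, 56072, 56186, 128, 131⟩)) else (bif Nat.beq y 0 then ⟨9493, 10162, 55314, 55987, 55, 61⟩ else bif Nat.beq y 1 then ⟨9899, 10162, 55314, 55579, 58, 60⟩ else ⟨9493, 9608, 55871, 55987, 56, 57⟩))))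

/-- Evaluate a row before passing it on. -/
def withRow (y i : ℕ) (k : Row → Bool) : Bool :=
  match rowOf y i with
  | ⟨a, b, c, d, e, f⟩ => k ⟨a, b, c, d, e, f⟩

lemma withRow_eq (y i : ℕ) (k : Row → Bool) : withRow y i k = k (rowOf y i) := rfl

/-- Minimum, computed by `Nat.ble`. -/
def mn (a b : ℕ) : ℕ := bif Nat.ble a b then a else b
/-- Maximum. -/
def mx (a b : ℕ) : ℕ := bif Nat.ble a b then b else a

/-- All states of the box (with `b ≤ a`, and `c ≤ b` if `cls`) lie in the region, with rank at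
most `n`. Arguments: ranges of `a`, `b`, `c`, `u`, and the types. -/
noncomputable def query (t : Tree) : ℕ → Bool → ℕ → ℕ → ℕ → ℕ → ℕ → ℕ → ℕ → ℕ → ℕ → ℕ → ℕ → Bool :=
  Tree.rec (motive := fun _ => ℕ → Bool → ℕ → ℕ → ℕ → ℕ → ℕ → ℕ → ℕ → ℕ → ℕ → ℕ → ℕ → Bool)
    (fun _ cls a0 a1 b0 b1 c0 c1 _ _ _ _ _ =>
      Nat.blt a1 b0 || (Nat.blt (Nat.add c1 (Nat.add a1 (mn b1 a1))) 65536 ||
        (Nat.blt 65536 (Nat.add c0 (Nat.add (mx a0 b0) b0)) ||
          (cls && Nat.blt (Nat.add a1 (Nat.mul 2 b1)) 65536))))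
    (fun k _ _ n _ _ _ _ _ _ _ _ _ _ _ _ => Nat.ble k n)
    (fun i _ _ ql qr n cls a0 a1 b0 b1 c0 c1 u0 u1 x y z =>
      bif Nat.beq i 0 then
        (Nat.beq x 2 || ql n cls a0 a1 b0 b1 c0 c1 u0 u1 x y z) &&
        (Nat.beq x 1 || qr n cls a0 a1 b0 b1 c0 c1 u0 u1 x y z)
      else bif Nat.beq i 1 then
        (Nat.beq y 2 || ql n cls a0 a1 b0 b1 c0 c1 u0 u1 x y z) &&
        (Nat.beq y 1 || qr n cls a0 a1 b0 b1 c0 c1 u0 u1 x y z)
      else
        (Nat.beq z 2 || ql n cls a0 a1 b0 b1 c0 c1 u0 u1 x y z) &&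
        (Nat.beq z 1 || qr n cls a0 a1 b0 b1 c0 c1 u0 u1 x y z))
    (fun i m _ _ ql qr n cls a0 a1 b0 b1 c0 c1 u0 u1 x y z =>
      bif Nat.beq i 0 then
        bif Nat.ble a1 m then ql n cls a0 a1 b0 b1 c0 c1 u0 u1 x y z
        else bif Nat.blt m a0 then qr n cls a0 a1 b0 b1 c0 c1 u0 u1 x y z
        else ql n cls a0 m b0 b1 c0 c1 u0 u1 x y z && qr n cls m a1 b0 b1 c0 c1 u0 u1 x y z
      else bif Nat.beq i 1 then
        bif Nat.ble b1 m then ql n cls a0 a1 b0 b1 c0 c1 u0 u1 x y z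
        else bif Nat.blt m b0 then qr n cls a0 a1 b0 b1 c0 c1 u0 u1 x y z
        else ql n cls a0 a1 b0 m c0 c1 u0 u1 x y z && qr n cls a0 a1 m b1 c0 c1 u0 u1 x y z
      else
        bif Nat.ble u1 m then ql n cls a0 a1 b0 b1 c0 c1 u0 u1 x y z
        else bif Nat.blt m u0 then qr n cls a0 a1 b0 b1 c0 c1 u0 u1 x y z
        else ql n cls a0 a1 b0 b1 c0 c1 u0 m x y z && qr n cls a0 a1 b0 b1 c0 c1 m u1 x y z)
    t

/-- Query for the order `x ≥ y` (third coordinate against the first two). -/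
noncomputable def q0 (T : Tree) (n x0 x1 y0 y1 z0 z1 u0 u1 tx ty tz : ℕ) : Bool :=
  frc (mx x0 y0) fun a0 => frc (mn y1 x1) fun b1 =>
    Nat.blt x1 a0 || (Nat.blt b1 y0 || query T n false a0 x1 y0 b1 z0 z1 u0 u1 tx ty tz)

/-- Query for the order `x ≥ y ≥ z` (all orientations equal). -/
noncomputable def q1 (T : Tree) (n x0 x1 y0 y1 z0 z1 u0 u1 tx ty tz : ℕ) : Bool :=
  frc (mx y0 z0) fun b0 => frc (mx x0 b0) fun a0 => frc (mn y1 x1) fun b1 =>
    frc (mn z1 b1) fun c1 =>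
    Nat.blt x1 a0 || (Nat.blt b1 b0 || (Nat.blt c1 z0 ||
      query T n true a0 x1 b0 b1 z0 c1 u0 u1 tx ty tz))

/-- Query for the order-free case, third coordinate against the first two. -/
noncomputable def q02 (T : Tree) (n x0 x1 y0 y1 z0 z1 u0 u1 tx ty tz : ℕ) : Bool :=
  q0 T n x0 x1 y0 y1 z0 z1 u0 u1 tx ty tz && q0 T n y0 y1 x0 x1 z0 z1 u0 u1 ty tx tz

/-- Query for all orders, all orientations equal. -/
noncomputable def q16 (T : Tree) (n x0 x1 y0 y1 z0 z1 u0 u1 tx ty tz : ℕ) : Bool :=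
  q1 T n x0 x1 y0 y1 z0 z1 u0 u1 tx ty tz && (q1 T n y0 y1 x0 x1 z0 z1 u0 u1 ty tx tz &&
  (q1 T n x0 x1 z0 z1 y0 y1 u0 u1 tx tz ty && (q1 T n y0 y1 z0 z1 x0 x1 u0 u1 ty tz tx &&
  (q1 T n z0 z1 x0 x1 y0 y1 u0 u1 tz tx ty && q1 T n z0 z1 y0 y1 x0 x1 u0 u1 tz ty tx))))

/-- The refined state is in the region. `e1 e2 e3`: new orientations relative to the old first
orientation. -/
noncomputable def chkGood (T0 T1 : Tree) (n : ℕ) (e1 e2 e3 : Bool)
    (x0 x1 y0 y1 z0 z1 w0 w1 tx ty tz : ℕ) : Bool :=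
  frc (Nat.sub 65536 w1) fun v0 => frc (Nat.sub 65536 w0) fun v1 =>
  bif e1 then
    bif e2 then
      bif e3 then q16 T1 n x0 x1 y0 y1 z0 z1 w0 w1 tx ty tz
      else q02 T0 n x0 x1 y0 y1 z0 z1 w0 w1 tx ty tz
    else
      bif e3 then q02 T0 n x0 x1 z0 z1 y0 y1 w0 w1 tx tz ty
      else q02 T0 n y0 y1 z0 z1 x0 x1 v0 v1 ty tz tx
  else
    bif e2 then
      bif e3 then q02 T0 n y0 y1 z0 z1 x0 x1 w0 w1 ty tz tx
      else q02 T0 n x0 x1 z0 z1 y0 y1 v0 v1 tx tz ty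
    else
      bif e3 then q02 T0 n x0 x1 y0 y1 z0 z1 v0 v1 tx ty tz
      else q16 T1 n x0 x1 y0 y1 z0 z1 v0 v1 tx ty tz

/-- The bounds of the image at one corner `(a, b, c)`. -/
def vtx (cls : Bool) (R1 R2 R3 : Row) (x0 x1 y0 y1 z0 z1 w0 w1 u0 u1 a b : ℕ) : Bool :=
  frc (Nat.sub 65536 (Nat.add a b)) fun c =>
  frc (Nat.mul R1.e a) fun p => frc (Nat.mul R1.f a) fun p' =>
  frc (Nat.mul R2.e b) fun q => frc (Nat.mul R2.f b) fun q' =>
  frc (Nat.mul R3.e c) fun r => frc (Nat.mul R3.f c) fun r' =>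
  frc (Nat.add (Nat.mul R1.a a) (Nat.add (Nat.mul R2.a b) (Nat.mul (bif cls then R3.a else R3.c) c))) fun cl =>
  frc (Nat.add (Nat.mul R1.b a) (Nat.add (Nat.mul R2.b b) (Nat.mul (bif cls then R3.b else R3.d) c))) fun ch =>
  frc (Nat.add (Nat.mul R1.c a) (Nat.add (Nat.mul R2.c b) (Nat.mul (bif cls then R3.c else R3.a) c))) fun dl =>
  frc (Nat.add (Nat.mul R1.d a) (Nat.add (Nat.mul R2.d b) (Nat.mul (bif cls then R3.d else R3.b) c))) fun dh =>
  Nat.ble (Nat.mul x0 (Nat.add p (Nat.add q' r'))) (Nat.mul 65536 p) &&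
  (Nat.ble (Nat.mul 65536 p') (Nat.mul x1 (Nat.add p' (Nat.add q r))) &&
  (Nat.ble (Nat.mul y0 (Nat.add q (Nat.add p' r'))) (Nat.mul 65536 q) &&
  (Nat.ble (Nat.mul 65536 q') (Nat.mul y1 (Nat.add q' (Nat.add p r))) &&
  (Nat.ble (Nat.mul z0 (Nat.add r (Nat.add p' q'))) (Nat.mul 65536 r) &&
  (Nat.ble (Nat.mul 65536 r') (Nat.mul z1 (Nat.add r' (Nat.add p q))) &&
  (Nat.ble (Nat.add (Nat.mul w0 4294967296) (Nat.mul 65536 ch))
      (Nat.add (Nat.mul 4294967296 u0) (Nat.mul w0 (Nat.add ch dl))) &&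
   Nat.ble (Nat.add (Nat.mul 4294967296 u1) (Nat.mul w1 (Nat.add cl dh)))
      (Nat.add (Nat.mul w1 4294967296) (Nat.mul 65536 cl))))))))

/-- Parity of the length of the word number `i` (`true` = even). -/
def parI (i : ℕ) : Bool := bif Nat.ble i 0 then true else bif Nat.ble i 2 then false else
  bif Nat.ble i 6 then true else Nat.ble 15 i

/-- The new type. -/
def ntI (y i : ℕ) : ℕ := bif Nat.beq i 0 then y else bif Nat.beq (Nat.mod i 2) 1 then 1 else 2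

/-- The refinement with code `code` maps the box into the region. -/
noncomputable def chkOpt (T0 T1 : Tree) (cls : Bool) (A0 A1 B0 B1 U0 U1 tx ty tz n code : ℕ) : Bool :=
  frc (Nat.mod code 32) fun i => frc (Nat.mod (Nat.div code 32) 32) fun j =>
  frc (Nat.mod (Nat.div code 1024) 32) fun k =>
  frc (Nat.div code 32768) fun m1 =>
  frc (Nat.mod m1 131072) fun x0 => frc (Nat.div m1 131072) fun m2 =>
  frc (Nat.mod m2 131072) fun x1 => frc (Nat.div m2 131072) fun m3 =>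
  frc (Nat.mod m3 131072) fun y0 => frc (Nat.div m3 131072) fun m4 =>
  frc (Nat.mod m4 131072) fun y1 => frc (Nat.div m4 131072) fun m5 =>
  frc (Nat.mod m5 131072) fun z0 => frc (Nat.div m5 131072) fun m6 =>
  frc (Nat.mod m6 131072) fun z1 => frc (Nat.div m6 131072) fun m7 =>
  frc (Nat.mod m7 131072) fun w0 => frc (Nat.div m7 131072) fun w1 =>
  withRow tx i fun R1 => withRow ty j fun R2 => withRow tz k fun R3 =>
  Nat.ble i 30 && (Nat.ble j 30 && (Nat.ble k 30 &&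
  (Nat.ble (Nat.add A1 B1) 65536 &&
  (Nat.ble 3200 x0 && (Nat.ble x1 47232 && (Nat.ble 3200 y0 && (Nat.ble y1 47232 &&
  (Nat.ble 3200 z0 && (Nat.ble z1 47232 && (Nat.ble 6528 w0 && (Nat.ble w1 59008 &&
  (vtx cls R1 R2 R3 x0 x1 y0 y1 z0 z1 w0 w1 U0 U1 A0 B0 &&
  (vtx cls R1 R2 R3 x0 x1 y0 y1 z0 z1 w0 w1 U0 U1 A1 B0 &&
  (vtx cls R1 R2 R3 x0 x1 y0 y1 z0 z1 w0 w1 U0 U1 A0 B1 &&
  (vtx cls R1 R2 R3 x0 x1 y0 y1 z0 z1 w0 w1 U0 U1 A1 B1 &&
  chkGood T0 T1 n (parI i) (parI j) (bif cls then parI k else !(parI k))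
    x0 x1 y0 y1 z0 z1 w0 w1 (ntI tx i) (ntI ty j) (ntI tz k))))))))))))))))

/-- The list of words of length at most `4`. -/
def words : List (List ℕ) :=
  [[], [1], [2], [1, 1], [1, 2], [2, 1], [2, 2],
   [1, 1, 1], [1, 1, 2], [1, 2, 1], [1, 2, 2], [2, 1, 1], [2, 1, 2], [2, 2, 1],
   [2, 2, 2], [1, 1, 1, 1], [1, 1, 1, 2], [1, 1, 2, 1], [1, 1, 2, 2], [1, 2, 1, 1], [1, 2, 1, 2],
   [1, 2, 2, 1], [1, 2, 2, 2], [2, 1, 1, 1], [2, 1, 1, 2], [2, 1, 2, 1], [2, 1, 2, 2], [2, 2, 1, 1],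
   [2, 2, 1, 2], [2, 2, 2, 1], [2, 2, 2, 2]]

/-- The word number `i`. -/
def word (i : ℕ) : List ℕ := words.getD i []

end CF3
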