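import Pool.Agent.CF3.Trees

namespace CF3

theorem b0_0_ok : chkT tr0 tr1 false b0_0 3200 14208 3200 10624 6528 19648 0 0 0 = true := by
  decide +kernel

theorem b0_1_ok : chkT tr0 tr1 false b0_1 3200 14208 10624 18048 6528 19648 0 0 0 = true := by
  decide +kernel

theorem b0_2_ok : chkT tr0 tr1 false b0_2 14208 19712 3200 6912 6528 13088 0 0 0 = true := by
  decide +kernel

theorem b0_3_ok : chkT tr0 tr1 false b0_3 14208 19712 6912 10624 6528 13088 0 0 0 = true := by
  decide +kernel

theorem b0_4_ok : chkT tr0 tr1 false b0_4 19712 25216 3200 10624 6528 13088 0 0 0 = true := by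
  decide +kernel

theorem b0_5_ok : chkT tr0 tr1 false b0_5 14208 25216 3200 10624 13088 19648 0 0 0 = true := by
  decide +kernel

theorem b0_6_ok : chkT tr0 tr1 false b0_6 14208 19712 10624 14336 6528 9808 0 0 0 = true := by
  decide +kernel

theorem b0_7_ok : chkT tr0 tr1 false b0_7 14208 19712 10624 14336 9808 13088 0 0 0 = true := by
  decide +kernel

theorem b0_8_ok : chkT tr0 tr1 false b0_8 14208 19712 14336 18048 6528 9808 0 0 0 = true := by
  decide +kernel

theorem b0_9_ok : chkT tr0 tr1 false b0_9 14208 19712 14336 18048 9808 13088 0 0 0 = true := by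
  decide +kernel

theorem b0_10_ok : chkT tr0 tr1 false b0_10 19712 25216 10624 14336 6528 13088 0 0 0 = true := by
  decide +kernel

theorem b0_11_ok : chkT tr0 tr1 false b0_11 19712 22464 14336 16192 6528 9808 0 0 0 = true := by
  decide +kernel

theorem b0_12_ok : chkT tr0 tr1 false b0_12 19712 22464 16192 18048 6528 9808 0 0 0 = true := by
  decide +kernel

theorem b0_13_ok : chkT tr0 tr1 false b0_13 22464 25216 14336 18048 6528 9808 0 0 0 = true := by
  decide +kernel

theorem b0_14_ok : chkT tr0 tr1 false b0_14 19712 25216 14336 18048 9808 13088 0 0 0 = true := by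
  decide +kernel

theorem b0_15_ok : chkT tr0 tr1 false b0_15 14208 19712 10624 14336 13088 16368 0 0 0 = true := by
  decide +kernel

theorem b0_16_ok : chkT tr0 tr1 false b0_16 14208 19712 10624 14336 16368 19648 0 0 0 = true := by
  decide +kernel

theorem b0_17_ok : chkT tr0 tr1 false b0_17 14208 19712 14336 18048 13088 16368 0 0 0 = true := by
  decide +kernel

theorem b0_18_ok : chkT tr0 tr1 false b0_18 14208 19712 14336 18048 16368 19648 0 0 0 = true := by
  decide +kernel

theorem b0_19_ok : chkT tr0 tr1 false b0_19 19712 25216 10624 18048 13088 19648 0 0 0 = true := by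
  decide +kernel

theorem b0_20_ok : chkT tr0 tr1 false b0_20 3200 14208 3200 18048 19648 32768 0 0 0 = true := by
  decide +kernel

theorem b0_21_ok : chkT tr0 tr1 false b0_21 14208 19712 3200 10624 19648 26208 0 0 0 = true := by
  decide +kernel

theorem b0_22_ok : chkT tr0 tr1 false b0_22 19712 25216 3200 10624 19648 26208 0 0 0 = true := by
  decide +kernel

theorem b0_23_ok : chkT tr0 tr1 false b0_23 14208 25216 3200 10624 26208 32768 0 0 0 = true := by
  decide +kernel

theorem b0_24_ok : chkT tr0 tr1 false b0_24 14208 19712 10624 18048 19648 26208 0 0 0 = true := by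
  decide +kernel

theorem b0_25_ok : chkT tr0 tr1 false b0_25 22464 25216 10624 12480 19648 21288 0 0 0 = true := by
  decide +kernel

theorem b0_26_ok : chkT tr0 tr1 false b0_26 22464 23840 10624 12480 21288 22928 0 0 0 = true := by
  decide +kernel

theorem b0_27_ok : chkT tr0 tr1 false b0_27 23840 25216 10624 11552 21288 22928 0 0 0 = true := by
  decide +kernel

theorem b0_28_ok : chkT tr0 tr1 false b0_28 23840 25216 11552 12480 21288 22928 0 0 0 = true := by
  decide +kernel

theorem b0_29_ok : chkT tr0 tr1 false b0_29 22464 25216 12480 14336 19648 22928 0 0 0 = true := by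
  decide +kernel

theorem b0_30_ok : chkT tr0 tr1 false b0_30 19712 25216 10624 14336 22928 26208 0 0 0 = true := by
  decide +kernel

theorem b0_31_ok : chkT tr0 tr1 false b0_31 19712 25216 14336 18048 19648 26208 0 0 0 = true := by
  decide +kernel

theorem b0_32_ok : chkT tr0 tr1 false b0_32 14208 25216 10624 18048 26208 32768 0 0 0 = true := by
  decide +kernel

theorem b0_33_ok : chkT tr0 tr1 false b0_33 14208 19712 18048 25472 6528 13088 0 0 0 = true := by
  decide +kernel

theorem b0_34_ok : chkT tr0 tr1 false b0_34 19712 25216 18048 25472 6528 13088 0 0 0 = true := by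
  decide +kernel

theorem b0_35_ok : chkT tr0 tr1 false b0_35 14208 19712 18048 25472 13088 19648 0 0 0 = true := by
  decide +kernel

theorem b0_36_ok : chkT tr0 tr1 false b0_36 19712 22464 18048 21760 13088 16368 0 0 0 = true := by
  decide +kernel

theorem b0_37_ok : chkT tr0 tr1 false b0_37 22464 25216 18048 21760 13088 16368 0 0 0 = true := by
  decide +kernel

theorem b0_38_ok : chkT tr0 tr1 false b0_38 19712 25216 18048 21760 16368 19648 0 0 0 = true := by
  decide +kernel

theorem b0_39_ok : chkT tr0 tr1 false b0_39 19712 25216 21760 25472 13088 19648 0 0 0 = true := by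
  decide +kernel

end CF3
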