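import Pool.Agent.CF3.Cert

namespace CF3

/-- A part of the certificate. -/
noncomputable def b1_320 : Tree :=
(.S 1 25472 (.S 2 52448 (.S 0 40832 (.S 1 21760 (.S 2 49168 (.L 0 983480320415849891424461748530229242128924707 0)
(.S 0 37632 (.L 0 1009638047258290920311254200060997012355186689 0)
(.L 0 990778026666276985274937441194717612259311617 0)))
(.S 2 49168 (.S 0 37632 (.L 0 904971786992209456652371427159546115505422337 0)
.B)
(.S 0 37632 (.L 0 1009638047251294701667074891492647098057916417 0)
.B)))
.B)
(.S 0 40832 (.S 1 21760 (.S 2 55728 (.L 0 1013382737576473642982989246974291343580168225 0)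
(.S 0 37632 (.L 0 1151805788226335575451023715057456424063696929 0)
(.L 0 1209562314780174693880775476461668581542625281 0)))
(.S 2 55728 (.S 0 37632 (.L 0 983982275602423655599926874727122348398280737 0)
.B)
(.S 0 37632 (.S 1 23616 (.S 2 57368 (.L 0 1058116366354840295580747000272739912972697633 0)
(.S 0 36032 (.L 0 971177033269753145786298311325246932228571172 0)
(.L 0 1122928559901526121127587330395713543133265953 0)))
.B)
.B)))
.B))
.B)

end CF3
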