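import Pool.Agent.CF3.Abstract

/-!
# Hausdorff dimension of the solution set

`dimH_ge_of_closed`: if, in addition to the hypotheses of `uncountable_of_closed`, the refinements
use words of bounded length and shrink the total size at most by the factor `β` per step, then the
Hausdorff dimension of `S j` is at least `log 2 / log (1/β)`.
-/

namespace CF3

open Set Real

/-- Expansion bound: `|app w t - app w s| ≥ |t - s| * size w`. -/
lemma abs_app_sub_ge {w : List ℕ} (h : Pos w) {s t : ℝ} (hs : mm ≤ s) (hs' : s ≤ MM)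
    (ht : mm ≤ t) (ht' : t ≤ MM) : |t - s| * size w ≤ |app w t - app w s| := by
  have hm := mm_pos
  have hM := MM_pos
  have hmM := mm_lt_MM
  have hs0 : 0 < s := by linarith
  have ht0 : 0 < t := by linarith
  rw [app_sub h hs0 ht0, size_eq h]
  have h4 : (0:ℝ) < (mat w).d := by exact_mod_cast mat_d_pos h
  have hc : (0:ℝ) ≤ (mat w).c := by positivity
  have h5 := den_pos h hs0
  have h6 := den_pos h ht0
  have h7 := den_pos h mm_pos
  have h8 := den_pos h MM_pos
  have hdet : |((mat w).a : ℝ) * (mat w).d - (mat w).b * (mat w).c| = 1 := by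
    by_cases he : Even w.length
    · rw [(mat_det w).1 he]; simp
    · rw [(mat_det w).2 he]; simp
  rw [abs_div, abs_mul, hdet, one_mul, abs_of_pos (mul_pos h6 h5)]
  rw [← mul_div_assoc, div_le_div_iff₀ (mul_pos h7 h8) (mul_pos h6 h5), mul_assoc]
  apply mul_le_mul_of_nonneg_left _ (abs_nonneg _)
  -- (MM - mm) * (ct+d)(cs+d) ≤ (cm+d)(cM+d)
  have e1 : ((mat w).c : ℝ) * t + (mat w).d ≤ (mat w).c * MM + (mat w).d := by nlinarith
  have e2 : ((mat w).c : ℝ) * s + (mat w).d ≤ (mat w).c * MM + (mat w).d := by nlinarith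
  have e3 : (MM - mm) * ((mat w).c * s + (mat w).d) ≤ (mat w).c * mm + (mat w).d := by
    have e4 : (MM - mm) * ((mat w).c * s + (mat w).d) ≤ (MM - mm) * ((mat w).c * MM + (mat w).d) :=
      mul_le_mul_of_nonneg_left e2 (by linarith)
    have e5 : (MM - mm) * MM ≤ mm := by norm_num [mm, MM]
    have e6 : MM - mm ≤ 1 := by norm_num [mm, MM]
    nlinarith
  calc (MM - mm) * (((mat w).c * t + (mat w).d) * ((mat w).c * s + (mat w).d))
      = ((mat w).c * t + (mat w).d) * ((MM - mm) * ((mat w).c * s + (mat w).d)) := by ring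
    _ ≤ ((mat w).c * MM + (mat w).d) * ((mat w).c * mm + (mat w).d) :=
        mul_le_mul e1 e3 (by have := sub_pos.2 hmM; positivity) h8.le
    _ = _ := by ring

/-- Distance of incomparable words. -/
lemma dist_inc {s t : List ℕ} (hs : W12 s) (ht : W12 t) (hI : Inc s t) {u v : ℝ}
    (hu : mm ≤ u) (hu' : u ≤ MM) (hv : mm ≤ v) (hv' : v ≤ MM) :
    1 / (2 * 9 ^ s.length) ≤ |app s u - app t v| := by
  induction s generalizing t with
  | nil => exact absurd List.nil_prefix hI.1
  | cons a s ih =>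
    cases t with
    | nil => exact absurd List.nil_prefix hI.2
    | cons b t =>
      obtain ⟨h1, h2⟩ := app_hull hs.cons.2 hu hu'
      obtain ⟨h3, h4⟩ := app_hull ht.cons.2 hv hv'
      have hp1 : (1:ℝ) ≤ 9 ^ s.length := one_le_pow₀ (by norm_num)
      have hm := mm_pos
      simp only [app, List.length_cons]
      have ih' := fun hI' => ih (t := t) hs.cons.2 ht.cons.2 hI'
      generalize app s u = X at *
      generalize app t v = Y at *
      have hX0 : 0 < X := by linarith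
      have hY0 : 0 < Y := by linarith
      have ha : (a:ℝ) = 1 ∨ (a:ℝ) = 2 := by
        rcases hs.cons.1 with h | h
        · left; exact_mod_cast h
        · right; exact_mod_cast h
      have hb : (b:ℝ) = 1 ∨ (b:ℝ) = 2 := by
        rcases ht.cons.1 with h | h
        · left; exact_mod_cast h
        · right; exact_mod_cast h
      have ha0 : (1:ℝ) ≤ a := by rcases ha with h | h <;> rw [h]; norm_num
      have hb0 : (1:ℝ) ≤ b := by rcases hb with h | h <;> rw [h]; norm_num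
      have hM : MM ≤ 1 := MM_lt_one.le
      have ha3 : (a:ℝ) + X ≤ 3 := by rcases ha with h | h <;> rw [h] <;> linarith
      have hb3 : (b:ℝ) + Y ≤ 3 := by rcases hb with h | h <;> rw [h] <;> linarith
      have e1 : 1 / ((a:ℝ) + X) - 1 / (b + Y) = ((b + Y) - (a + X)) / ((a + X) * (b + Y)) := by
        have : (a:ℝ) + X ≠ 0 := by positivity
        have : (b:ℝ) + Y ≠ 0 := by positivity
        field_simp
      have hden : 0 < ((a:ℝ) + X) * (b + Y) := by positivity
      have hden9 : ((a:ℝ) + X) * (b + Y) ≤ 9 := by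
        have := mul_le_mul ha3 hb3 (by positivity) (by norm_num)
        linarith
      rw [e1, abs_div, abs_of_pos hden]
      have key : 1 / (2 * 9 ^ s.length) ≤ |((b:ℝ) + Y) - (a + X)| := by
        by_cases hab : a = b
        · subst hab
          have hI' : Inc s t := by
            refine ⟨fun h => hI.1 ((List.prefix_cons_inj a).2 h),
              fun h => hI.2 ((List.prefix_cons_inj a).2 h)⟩
          have := ih' hI'
          rw [show ((a:ℝ) + Y) - (a + X) = -(X - Y) by ring, abs_neg]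
          exact this
        · have hgap : MM - mm ≤ 1 / 2 := by norm_num [mm, MM]
          have hle : 1 / (2 * (9:ℝ) ^ s.length) ≤ 1 / 2 := by
            apply one_div_le_one_div_of_le (by norm_num)
            linarith
          refine hle.trans ?_
          rw [le_abs]
          rcases ha with h | h <;> rcases hb with h' | h'
          · exact absurd (by exact_mod_cast h.trans h'.symm) hab
          · left; rw [h, h']; linarith
          · right; rw [h, h']; linarith
          · exact absurd (by exact_mod_cast h.trans h'.symm) hab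
      rw [le_div_iff₀ hden, pow_succ]
      have h9 : 1 / (2 * ((9:ℝ) ^ s.length * 9)) * ((a + X) * (b + Y)) ≤
          1 / (2 * ((9:ℝ) ^ s.length * 9)) * 9 :=
        mul_le_mul_of_nonneg_left hden9 (by positivity)
      refine h9.trans (le_trans (le_of_eq ?_) key)
      field_simp

/-- total size -/
noncomputable def tot (a b c : List ℕ) : ℝ := size a + size b + size c

/-- The size of a refinement is not too small. -/
lemma size_append_ge {w s : List ℕ} (hw : Pos w) (hs : W12 s) :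
    size s * size w ≤ size (w ++ s) := by
  have h1 : size (w ++ s) = |app w (app s MM) - app w (app s mm)| := by
    have h2 := size_pos (hw.append hs.pos)
    rw [← abs_of_pos h2]
    unfold size hi lo
    by_cases he : Even (w ++ s).length
    · rw [if_pos he, if_pos he, app_append, app_append]
    · rw [if_neg he, if_neg he, app_append, app_append, abs_sub_comm]
  have h3 : size s = |app s MM - app s mm| := by
    have h2 := size_pos hs.pos
    rw [← abs_of_pos h2]
    unfold size hi lo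
    by_cases he : Even s.length
    · rw [if_pos he, if_pos he]
    · rw [if_neg he, if_neg he, abs_sub_comm]
  rw [h1, h3]
  obtain ⟨a1, a2⟩ := app_hull hs le_rfl mm_lt_MM.le
  obtain ⟨a3, a4⟩ := app_hull hs mm_lt_MM.le le_rfl
  exact abs_app_sub_ge hw a1 a2 a3 a4

/-- Separation of incomparable refinements. -/
lemma sep_append {w s t : List ℕ} (hw : Pos w) (hs : W12 s) (ht : W12 t) (hI : Inc s t)
    {x y : ℝ} (h1 : lo (w ++ s) ≤ x) (h2 : x ≤ hi (w ++ s)) (h3 : lo (w ++ t) ≤ y)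
    (h4 : y ≤ hi (w ++ t)) : size w / (2 * 9 ^ s.length) ≤ |x - y| := by
  obtain ⟨u, hu, hu', rfl⟩ := exists_t (hw.append hs.pos) h1 h2
  obtain ⟨v, hv, hv', rfl⟩ := exists_t (hw.append ht.pos) h3 h4
  rw [app_append, app_append]
  obtain ⟨a1, a2⟩ := app_hull hs hu hu'
  obtain ⟨a3, a4⟩ := app_hull ht hv hv'
  refine le_trans ?_ (abs_app_sub_ge hw a3 a4 a1 a2)
  have h5 := dist_inc hs ht hI hu hu' hv hv'
  have h6 := size_pos hw
  rw [div_eq_mul_one_div, mul_comm]
  exact mul_le_mul_of_nonneg_right h5 h6.le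

section construction

variable {P : List ℕ → List ℕ → List ℕ → Prop} {j : ℕ}

/-- The children `f 0`, `f 1` of a state: refinements in `P`, with words of length `≤ N`. -/
structure Child (N : ℕ) (β : ℝ) (σ τ0 τ1 : St P j) : Prop where
  ext0 : σ.Ext τ0
  ext1 : σ.Ext τ1
  tot0 : β * tot σ.a σ.b σ.c ≤ tot τ0.a τ0.b τ0.c
  tot1 : β * tot σ.a σ.b σ.c ≤ tot τ1.a τ1.b τ1.c
  len0 : σ.len < τ0.len
  len1 : σ.len < τ1.len
  sep : (∃ s t, W12 s ∧ W12 t ∧ s.length ≤ N ∧ t.length ≤ N ∧ Inc s t ∧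
      τ0.a = σ.a ++ s ∧ τ1.a = σ.a ++ t) ∨
    (∃ s t, W12 s ∧ W12 t ∧ s.length ≤ N ∧ t.length ≤ N ∧ Inc s t ∧
      τ0.b = σ.b ++ s ∧ τ1.b = σ.b ++ t) ∨
    (∃ s t, W12 s ∧ W12 t ∧ s.length ≤ N ∧ t.length ≤ N ∧ Inc s t ∧
      τ0.c = σ.c ++ s ∧ τ1.c = σ.c ++ t)

lemma exists_step' (N : ℕ) (β : ℝ)
    (hstep : ∀ a b c, P a b c → ∃ s1 s2 s3 t1 t2 t3 : List ℕ, W12 s1 ∧ W12 s2 ∧ W12 s3 ∧
      W12 t1 ∧ W12 t2 ∧ W12 t3 ∧ P (a ++ s1) (b ++ s2) (c ++ s3) ∧
      P (a ++ t1) (b ++ t2) (c ++ t3) ∧ (Inc s1 t1 ∨ Inc s2 t2 ∨ Inc s3 t3) ∧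
      (s1.length ≤ N ∧ s2.length ≤ N ∧ s3.length ≤ N ∧ t1.length ≤ N ∧ t2.length ≤ N ∧
        t3.length ≤ N) ∧
      β * tot a b c ≤ tot (a ++ s1) (b ++ s2) (c ++ s3) ∧
      β * tot a b c ≤ tot (a ++ t1) (b ++ t2) (c ++ t3))
    (σ : St P j) : ∃ f : Fin 2 → St P j, Child N β σ (f 0) (f 1) := by
  obtain ⟨s1, s2, s3, t1, t2, t3, hs1, hs2, hs3, ht1, ht2, ht3, hs, ht, hI, hN, hβ1, hβ2⟩ :=
    hstep σ.a σ.b σ.c σ.hP
  obtain ⟨n1, n2, n3, n4, n5, n6⟩ := hN
  let σ1 : St P j := ⟨_, _, _, hs, hs1.adm_append σ.ha, hs2.adm_append σ.hb, hs3.adm_append σ.hc⟩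
  let σ2 : St P j := ⟨_, _, _, ht, ht1.adm_append σ.ha, ht2.adm_append σ.hb, ht3.adm_append σ.hc⟩
  have l1 : 1 ≤ s1.length + s2.length + s3.length := by
    rcases hI with h | h | h
    · have := h.length_left; omega
    · have := h.length_left; omega
    · have := h.length_left; omega
  have l2 : 1 ≤ t1.length + t2.length + t3.length := by
    rcases hI with h | h | h
    · have := h.symm.length_left; omega
    · have := h.symm.length_left; omega
    · have := h.symm.length_left; omega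
  refine ⟨![σ1, σ2], ?_⟩
  show Child N β σ σ1 σ2
  refine ⟨⟨⟨s1, hs1, rfl⟩, ⟨s2, hs2, rfl⟩, ⟨s3, hs3, rfl⟩⟩,
    ⟨⟨t1, ht1, rfl⟩, ⟨t2, ht2, rfl⟩, ⟨t3, ht3, rfl⟩⟩, hβ1, hβ2, ?_, ?_, ?_⟩
  · simp only [St.len, σ1, List.length_append]; omega
  · simp only [St.len, σ2, List.length_append]; omega
  · rcases hI with h | h | h
    · exact Or.inl ⟨s1, t1, hs1, ht1, n1, n4, h, rfl, rfl⟩
    · exact Or.inr (Or.inl ⟨s2, t2, hs2, ht2, n2, n5, h, rfl, rfl⟩)
    · exact Or.inr (Or.inr ⟨s3, t3, hs3, ht3, n3, n6, h, rfl, rfl⟩)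

/-- The sequence of states of a binary sequence. -/
def seqSt' (f : St P j → Fin 2 → St P j) (σ0 : St P j) (ε : ℕ → Fin 2) : ℕ → St P j
  | 0 => σ0
  | n + 1 => f (seqSt' f σ0 ε n) (ε n)

lemma seqSt'_congr (f : St P j → Fin 2 → St P j) (σ0 : St P j) {ε ε' : ℕ → Fin 2} {n : ℕ}
    (h : ∀ m < n, ε m = ε' m) : seqSt' f σ0 ε n = seqSt' f σ0 ε' n := by
  induction n with
  | zero => rfl
  | succ n ih =>
    simp only [seqSt']
    rw [ih (fun m hm => h m (by omega)), h n (by omega)]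

end construction

/-- Sorting does not change the dimension. -/
lemma dimH_T_le (j : ℕ) : dimH (T j) ≤ dimH (S j) := by
  refine (dimH_mono (T_subset j)).trans ?_
  have l1 : LipschitzWith 1 (fun t : ℝ × ℝ × ℝ => t.1) := LipschitzWith.prod_fst
  have l2 : LipschitzWith 1 (fun t : ℝ × ℝ × ℝ => t.2.1) := by
    have h := (LipschitzWith.prod_fst (α := ℝ) (β := ℝ)).comp
      (LipschitzWith.prod_snd (α := ℝ) (β := ℝ × ℝ))
    rw [one_mul] at h
    exact h
  have l3 : LipschitzWith 1 (fun t : ℝ × ℝ × ℝ => t.2.2) := by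
    have h := (LipschitzWith.prod_snd (α := ℝ) (β := ℝ)).comp
      (LipschitzWith.prod_snd (α := ℝ) (β := ℝ × ℝ))
    rw [one_mul] at h
    exact h
  have key : ∀ p q r : ℝ × ℝ × ℝ → ℝ, LipschitzWith 1 p → LipschitzWith 1 q → LipschitzWith 1 r →
      dimH ((fun t => (p t, q t, r t)) '' S j) ≤ dimH (S j) := by
    intro p q r hp hq hr
    have h := hp.prodMk (hq.prodMk hr)
    exact h.dimH_image_le _
  rw [dimH_union, dimH_union, dimH_union, dimH_union, dimH_union]
  refine max_le (max_le (max_le (max_le (max_le ?_ ?_) ?_) ?_) ?_) ?_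
  · exact key _ _ _ l1 l2 l3
  · exact key _ _ _ l1 l3 l2
  · exact key _ _ _ l2 l1 l3
  · exact key _ _ _ l2 l3 l1
  · exact key _ _ _ l3 l1 l2
  · exact key _ _ _ l3 l2 l1

/-- A set of points coded by binary sequences with separation `c0 β^n` has dimension at least
`log 2 / log (1/β)`. -/
lemma dimH_ge_of_coding {X : Type*} [MetricSpace X] (g : (ℕ → Fin 2) → X) (c0 β : ℝ) (hc0 : 0 < c0)
    (hβ0 : 0 < β) (hβ1 : β < 1)
    (hsep : ∀ ε ε' : ℕ → Fin 2, ∀ n, (∀ m < n, ε m = ε' m) → ε n ≠ ε' n →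
      c0 * β ^ n ≤ dist (g ε) (g ε')) :
    ENNReal.ofReal (Real.log 2 / Real.log (1 / β)) ≤ dimH (range g) := by
  have hlog : 0 < Real.log (1 / β) := Real.log_pos (by rw [lt_div_iff₀ hβ0]; linarith)
  set s : ℝ := Real.log 2 / Real.log (1 / β) with hs
  have hs0 : 0 < s := div_pos (Real.log_pos (by norm_num)) hlog
  have hβs : β ^ s = 1 / 2 := by
    rw [Real.rpow_def_of_pos hβ0, hs]
    have h1 : Real.log β = - Real.log (1 / β) := by
      rw [one_div, Real.log_inv]; ring
    rw [h1]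
    have h2 : -Real.log (1 / β) * (Real.log 2 / Real.log (1 / β)) = -Real.log 2 := by
      field_simp
    rw [h2, Real.exp_neg, Real.exp_log (by norm_num)]
    norm_num
  have hfirst : ∀ ε ε' : ℕ → Fin 2, ε ≠ ε' → ∃ n, ε n ≠ ε' n ∧ ∀ m < n, ε m = ε' m := by
    intro ε ε' hne
    classical
    have hex : ∃ n, ε n ≠ ε' n := by
      by_contra h
      push Not at h
      exact hne (funext h)
    refine ⟨Nat.find hex, Nat.find_spec hex, fun m hm => ?_⟩
    have := Nat.find_min hex hm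
    push Not at this
    exact this
  have hinj : Function.Injective g := by
    intro ε ε' hg
    by_contra hne
    obtain ⟨n, hn, hm⟩ := hfirst ε ε' hne
    have h1 := hsep ε ε' n hm hn
    rw [hg, dist_self] at h1
    have : 0 < c0 * β ^ n := by positivity
    linarith
  let F : X → ℝ := fun p => Real.ofDigits (Function.invFun g p)
  have hF : ∀ ε, F (g ε) = Real.ofDigits ε := by
    intro ε
    show Real.ofDigits (Function.invFun g (g ε)) = _
    rw [Function.leftInverse_invFun hinj ε]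
  have hC : 0 ≤ (1 / c0) ^ s := by positivity
  have hH : HolderOnWith (Real.toNNReal ((1 / c0) ^ s)) (Real.toNNReal s) F (range g) := by
    rintro _ ⟨ε, rfl⟩ _ ⟨ε', rfl⟩
    rw [hF, hF, edist_dist, edist_dist]
    have hs' : ((Real.toNNReal s : NNReal) : ℝ) = s := Real.coe_toNNReal _ hs0.le
    rw [hs', ENNReal.ofReal_rpow_of_nonneg dist_nonneg hs0.le]
    have hC' : ((Real.toNNReal ((1 / c0) ^ s) : NNReal) : ENNReal) =
        ENNReal.ofReal ((1 / c0) ^ s) := rfl
    rw [hC', ← ENNReal.ofReal_mul hC]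
    apply ENNReal.ofReal_le_ofReal
    by_cases hne : ε = ε'
    · subst hne
      rw [dist_self]
      positivity
    · obtain ⟨n, hn, hm⟩ := hfirst ε ε' hne
      have h1 := hsep ε ε' n hm hn
      have h2 := Real.abs_ofDigits_sub_ofDigits_le (b := 2) (n := n) hm
      rw [Real.dist_eq]
      refine h2.trans ?_
      have h3 : β ^ n ≤ 1 / c0 * dist (g ε) (g ε') := by
        rw [one_div, inv_mul_eq_div, le_div_iff₀ hc0]; linarith
      have h4 : (((2 : ℕ) : ℝ) ^ n)⁻¹ = (β ^ n) ^ s := by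
        rw [← Real.rpow_natCast β n, ← Real.rpow_mul hβ0.le, mul_comm, Real.rpow_mul hβ0.le, hβs,
          Real.rpow_natCast]
        simp
      rw [h4, ← Real.mul_rpow (by positivity) dist_nonneg]
      exact Real.rpow_le_rpow (by positivity) h3 hs0.le
  have hs1 : 0 < Real.toNNReal s := Real.toNNReal_pos.2 hs0
  have h1 := hH.dimH_image_le hs1
  have h2 : Icc (0:ℝ) 1 ⊆ F '' range g := by
    intro y hy
    obtain ⟨ε, -, hε⟩ := Real.ofDigits_SurjOn (b := 2) (by norm_num) hy
    exact ⟨g ε, ⟨ε, rfl⟩, by rw [hF, hε]⟩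
  have h3 : dimH (Icc (0:ℝ) 1) = 1 := by
    have := Real.dimH_of_nonempty_interior (s := Icc (0:ℝ) 1) (by
      rw [interior_Icc]; exact ⟨1 / 2, by norm_num, by norm_num⟩)
    rw [this]; simp
  have h4 : (1 : ENNReal) ≤ dimH (range g) / (Real.toNNReal s : ENNReal) := by
    rw [← h3]
    exact (dimH_mono h2).trans h1
  have h5 : ((Real.toNNReal s : NNReal) : ENNReal) = ENNReal.ofReal s := rfl
  rw [h5] at h4
  rw [ENNReal.le_div_iff_mul_le (Or.inl (by simpa using hs0)) (Or.inl ENNReal.ofReal_ne_top),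
    one_mul] at h4
  exact h4

/-- **Dimension bound.** -/
theorem dimH_ge_of_closed (K : ℝ) (N : ℕ) (β : ℝ) (hβ0 : 0 < β) (hβ1 : β < 1) (j : ℕ)
    (P : List ℕ → List ℕ → List ℕ → Prop)
    (hS : ∀ a b c, P a b c → lo a + lo b + lo c ≤ 1 ∧ 1 ≤ hi a + hi b + hi c)
    (hsz : ∀ a b c, P a b c → size a + size b + size c ≤ K * size a ∧
      size a + size b + size c ≤ K * size b ∧ size a + size b + size c ≤ K * size c)
    (hstep : ∀ a b c, P a b c → ∃ s1 s2 s3 t1 t2 t3 : List ℕ, W12 s1 ∧ W12 s2 ∧ W12 s3 ∧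
      W12 t1 ∧ W12 t2 ∧ W12 t3 ∧ P (a ++ s1) (b ++ s2) (c ++ s3) ∧
      P (a ++ t1) (b ++ t2) (c ++ t3) ∧ (Inc s1 t1 ∨ Inc s2 t2 ∨ Inc s3 t3) ∧
      (s1.length ≤ N ∧ s2.length ≤ N ∧ s3.length ≤ N ∧ t1.length ≤ N ∧ t2.length ≤ N ∧
        t3.length ≤ N) ∧
      β * tot a b c ≤ tot (a ++ s1) (b ++ s2) (c ++ s3) ∧
      β * tot a b c ≤ tot (a ++ t1) (b ++ t2) (c ++ t3))
    (h0 : ∃ a b c, P a b c ∧ Adm j a ∧ Adm j b ∧ Adm j c) :
    ENNReal.ofReal (Real.log 2 / Real.log (1 / β)) ≤ dimH (S j) := by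
  classical
  obtain ⟨a0, b0, c0, hP0, ha0, hb0, hc0⟩ := h0
  let σ0 : St P j := ⟨a0, b0, c0, hP0, ha0, hb0, hc0⟩
  choose f hf using (exists_step' (P := P) (j := j) N β hstep)
  set q : (ℕ → Fin 2) → ℕ → St P j := seqSt' f σ0 with hq
  have hqs : ∀ ε n, q ε (n + 1) = f (q ε n) (ε n) := fun ε n => rfl
  have hfin : ∀ e : Fin 2, e = 0 ∨ e = 1 := by decide
  have hExt : ∀ ε n, (q ε n).Ext (q ε (n + 1)) := by
    intro ε n
    rw [hqs]
    rcases hfin (ε n) with h | h
    · rw [h]; exact (hf _).ext0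
    · rw [h]; exact (hf _).ext1
  have hLen : ∀ ε n, (q ε n).len < (q ε (n + 1)).len := by
    intro ε n
    rw [hqs]
    rcases hfin (ε n) with h | h
    · rw [h]; exact (hf _).len0
    · rw [h]; exact (hf _).len1
  have hTot : ∀ ε n, β * tot (q ε n).a (q ε n).b (q ε n).c ≤
      tot (q ε (n + 1)).a (q ε (n + 1)).b (q ε (n + 1)).c := by
    intro ε n
    rw [hqs]
    rcases hfin (ε n) with h | h
    · rw [h]; exact (hf _).tot0
    · rw [h]; exact (hf _).tot1
  have htot0 : 0 < tot a0 b0 c0 := by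
    have h2 := size_pos ha0.pos
    have h3 := size_pos hb0.pos
    have h4 := size_pos hc0.pos
    unfold tot; linarith
  have hTot' : ∀ ε n, β ^ n * tot a0 b0 c0 ≤ tot (q ε n).a (q ε n).b (q ε n).c := by
    intro ε n
    induction n with
    | zero => simp [hq, seqSt', σ0]
    | succ n ih =>
      refine le_trans ?_ (hTot ε n)
      rw [pow_succ, mul_comm (β ^ n) β, mul_assoc]
      exact mul_le_mul_of_nonneg_left ih hβ0.le
  -- the constant
  have hKpos : 0 < K := by
    have h1 := (hsz a0 b0 c0 hP0).1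
    have h2 := size_pos ha0.pos
    have h3 := size_pos hb0.pos
    have h4 := size_pos hc0.pos
    by_contra hK
    push Not at hK
    nlinarith
  -- lengths
  have hlen : ∀ ε n, n ≤ (q ε n).len := by
    intro ε n
    induction n with
    | zero => exact Nat.zero_le _
    | succ n ih =>
      have := hLen ε n
      omega
  -- total size tends to zero
  have hsum : ∀ ε n, (size (q ε n).a + size (q ε n).b + size (q ε n).c) * (n + 3) ≤ 6 * K := by
    intro ε n
    obtain ⟨h1, h2, h3⟩ := hsz _ _ _ (q ε n).hP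
    have h4 := hlen ε n
    unfold St.len at h4
    have key : ∀ w : List ℕ, Pos w → n ≤ 3 * w.length → size w * (n + 3) ≤ 6 := by
      intro w hw hn
      have h5 := size_le hw
      have h6 : (n : ℝ) ≤ 3 * w.length := by exact_mod_cast hn
      have h7 := size_pos hw
      nlinarith
    have hcase : n ≤ 3 * (q ε n).a.length ∨ n ≤ 3 * (q ε n).b.length ∨
        n ≤ 3 * (q ε n).c.length := by omega
    have hn3 : (0:ℝ) ≤ (n:ℝ) + 3 := by positivity
    rcases hcase with h | h | h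
    · have h5 := key _ (q ε n).ha.pos h
      nlinarith [mul_le_mul_of_nonneg_right h1 hn3, mul_le_mul_of_nonneg_left h5 hKpos.le]
    · have h5 := key _ (q ε n).hb.pos h
      nlinarith [mul_le_mul_of_nonneg_right h2 hn3, mul_le_mul_of_nonneg_left h5 hKpos.le]
    · have h5 := key _ (q ε n).hc.pos h
      nlinarith [mul_le_mul_of_nonneg_right h3 hn3, mul_le_mul_of_nonneg_left h5 hKpos.le]
  have hsmall : ∀ δ : ℝ, 0 < δ → ∀ ε, ∃ n,
      size (q ε n).a + size (q ε n).b + size (q ε n).c < δ := by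
    intro δ hδ ε
    obtain ⟨n, hn⟩ := exists_nat_gt (6 * K / δ)
    refine ⟨n, ?_⟩
    have h1 := hsum ε n
    by_contra h2
    push Not at h2
    rw [div_lt_iff₀ hδ] at hn
    have hn3 : (0:ℝ) ≤ (n:ℝ) + 3 := by positivity
    nlinarith [mul_le_mul_of_nonneg_right h2 hn3]
  -- all lengths tend to infinity
  have hlong : ∀ (g : St P j → List ℕ), (∀ σ, Adm j (g σ)) →
      (∀ σ, size (g σ) ≤ size σ.a + size σ.b + size σ.c) →
      ∀ ε N, ∃ n, N ≤ (g (q ε n)).length := by
    intro g hg hg2 ε N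
    obtain ⟨n, hn⟩ := hsmall ((MM - mm) / 16 ^ N) (by
      have := sub_pos.2 mm_lt_MM
      positivity) ε
    refine ⟨n, ?_⟩
    by_contra h
    push Not at h
    have h1 := size_ge (hg (q ε n)).pos (hg (q ε n)).le_three
    have h2 := hg2 (q ε n)
    have h3 : (MM - mm) / 16 ^ N ≤ (MM - mm) / 16 ^ (g (q ε n)).length := by
      apply div_le_div_of_nonneg_left (sub_nonneg.2 mm_lt_MM.le) (by positivity)
      exact pow_le_pow_right₀ (by norm_num) h.le
    linarith
  have hna : ∀ σ : St P j, 0 < size σ.a := fun σ => size_pos σ.ha.pos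
  have hnb : ∀ σ : St P j, 0 < size σ.b := fun σ => size_pos σ.hb.pos
  have hnc : ∀ σ : St P j, 0 < size σ.c := fun σ => size_pos σ.hc.pos
  -- the points
  have hx : ∀ ε, ∃ x, ∀ n, lo (q ε n).a ≤ x ∧ x ≤ hi (q ε n).a := fun ε =>
    exists_point (fun n => (q ε n).ha.pos) (fun n => (hExt ε n).1)
  have hy : ∀ ε, ∃ x, ∀ n, lo (q ε n).b ≤ x ∧ x ≤ hi (q ε n).b := fun ε =>
    exists_point (fun n => (q ε n).hb.pos) (fun n => (hExt ε n).2.1)
  have hz : ∀ ε, ∃ x, ∀ n, lo (q ε n).c ≤ x ∧ x ≤ hi (q ε n).c := fun ε =>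
    exists_point (fun n => (q ε n).hc.pos) (fun n => (hExt ε n).2.2)
  choose x hx using hx
  choose y hy using hy
  choose z hz using hz
  have hxB : ∀ ε, x ε ∈ B2 j := fun ε =>
    mem_B2 (fun n => (q ε n).ha) (hlong (fun σ => σ.a) (fun σ => σ.ha)
      (fun σ => by have := hnb σ; have := hnc σ; linarith) ε) (hx ε)
  have hyB : ∀ ε, y ε ∈ B2 j := fun ε =>
    mem_B2 (fun n => (q ε n).hb) (hlong (fun σ => σ.b) (fun σ => σ.hb)
      (fun σ => by have := hna σ; have := hnc σ; linarith) ε) (hy ε)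
  have hzB : ∀ ε, z ε ∈ B2 j := fun ε =>
    mem_B2 (fun n => (q ε n).hc) (hlong (fun σ => σ.c) (fun σ => σ.hc)
      (fun σ => by have := hna σ; have := hnb σ; linarith) ε) (hz ε)
  have hone : ∀ ε, x ε + y ε + z ε = 1 := by
    intro ε
    by_contra hne
    obtain ⟨n, hn⟩ := hsmall |x ε + y ε + z ε - 1| (abs_pos.2 (sub_ne_zero.2 hne)) ε
    have h1 := hx ε n
    have h2 := hy ε n
    have h3 := hz ε n
    have h4 := hS _ _ _ (q ε n).hP
    have h5 : |x ε + y ε + z ε - 1| ≤ size (q ε n).a + size (q ε n).b + size (q ε n).c := by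
      unfold size
      rw [abs_le]
      constructor <;> linarith
    linarith
  let g : (ℕ → Fin 2) → ℝ × ℝ × ℝ := fun ε => (x ε, y ε, z ε)
  have hgT : range g ⊆ T j := by
    rintro _ ⟨ε, rfl⟩
    exact ⟨hxB ε, hyB ε, hzB ε, hone ε⟩
  refine le_trans ?_ (le_trans (dimH_mono hgT) (dimH_T_le j))
  refine dimH_ge_of_coding g (tot a0 b0 c0 / (K * (2 * 9 ^ N))) β (by positivity) hβ0 hβ1 ?_
  intro ε ε' n hm hn
  have hqn : q ε n = q ε' n := seqSt'_congr f σ0 hm
  have hK1 := hsz _ _ _ (q ε n).hP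
  have hT1 := hTot' ε n
  -- the general separation estimate in one coordinate
  have main : ∀ (w s t : List ℕ) (X Y : ℝ), Pos w → W12 s → W12 t → s.length ≤ N → Inc s t →
      lo (w ++ s) ≤ X → X ≤ hi (w ++ s) → lo (w ++ t) ≤ Y → Y ≤ hi (w ++ t) →
      tot (q ε n).a (q ε n).b (q ε n).c ≤ K * size w →
      tot a0 b0 c0 / (K * (2 * 9 ^ N)) * β ^ n ≤ |X - Y| := by
    intro w s t X Y hw hs ht hsN hI h1 h2 h3 h4 h5
    refine le_trans ?_ (sep_append hw hs ht hI h1 h2 h3 h4)
    have h6 : (9:ℝ) ^ s.length ≤ 9 ^ N := pow_le_pow_right₀ (by norm_num) hsN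
    have h7 := size_pos hw
    have h8 : size w / (2 * 9 ^ N) ≤ size w / (2 * 9 ^ s.length) := by
      apply div_le_div_of_nonneg_left h7.le (by positivity)
      linarith
    refine le_trans ?_ h8
    rw [div_mul_eq_mul_div, div_le_div_iff₀ (by positivity) (by positivity)]
    have h9 : tot a0 b0 c0 * β ^ n ≤ K * size w := by linarith
    calc tot a0 b0 c0 * β ^ n * (2 * 9 ^ N) ≤ (K * size w) * (2 * 9 ^ N) :=
          mul_le_mul_of_nonneg_right h9 (by positivity)
      _ = size w * (K * (2 * 9 ^ N)) := by ring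
  have hdist : ∀ i : Fin 3, |(![x ε, y ε, z ε] : Fin 3 → ℝ) i - (![x ε', y ε', z ε'] : Fin 3 → ℝ) i|
      ≤ dist (g ε) (g ε') := by
    intro i
    have hd : dist (g ε) (g ε') = max |x ε - x ε'| (max |y ε - y ε'| |z ε - z ε'|) := by
      simp [g, Prod.dist_eq, Real.dist_eq]
    rw [hd]
    fin_cases i
    · exact le_max_left _ _
    · exact le_trans (le_max_left _ _) (le_max_right _ _)
    · exact le_trans (le_max_right _ _) (le_max_right _ _)
  have d0 : |x ε - x ε'| ≤ dist (g ε) (g ε') := hdist 0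
  have d1 : |y ε - y ε'| ≤ dist (g ε) (g ε') := hdist 1
  have d2 : |z ε - z ε'| ≤ dist (g ε) (g ε') := hdist 2
  have hch := hf (q ε n)
  -- symmetric treatment of the two cases
  have fin : ∀ (η η' : ℕ → Fin 2), q η n = q ε n → q η' n = q ε n → η n = 0 → η' n = 1 →
      (tot a0 b0 c0 / (K * (2 * 9 ^ N)) * β ^ n ≤ |x η - x η'|) ∨
      (tot a0 b0 c0 / (K * (2 * 9 ^ N)) * β ^ n ≤ |y η - y η'|) ∨
      (tot a0 b0 c0 / (K * (2 * 9 ^ N)) * β ^ n ≤ |z η - z η'|) := by
    intro η η' hq1 hq2 h0 h1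
    have hq3 : q η (n + 1) = f (q ε n) 0 := by rw [hqs, hq1, h0]
    have hq4 : q η' (n + 1) = f (q ε n) 1 := by rw [hqs, hq2, h1]
    rcases hch.sep with ⟨s, t, hs, ht, hsN, htN, hI, e1, e2⟩ | ⟨s, t, hs, ht, hsN, htN, hI, e1, e2⟩ |
      ⟨s, t, hs, ht, hsN, htN, hI, e1, e2⟩
    · left
      have hx1 := hx η (n + 1)
      have hx2 := hx η' (n + 1)
      rw [hq3, e1] at hx1
      rw [hq4, e2] at hx2
      exact main _ s t _ _ (q ε n).ha.pos hs ht hsN hI hx1.1 hx1.2 hx2.1 hx2.2 hK1.1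
    · right; left
      have hx1 := hy η (n + 1)
      have hx2 := hy η' (n + 1)
      rw [hq3, e1] at hx1
      rw [hq4, e2] at hx2
      exact main _ s t _ _ (q ε n).hb.pos hs ht hsN hI hx1.1 hx1.2 hx2.1 hx2.2 hK1.2.1
    · right; right
      have hx1 := hz η (n + 1)
      have hx2 := hz η' (n + 1)
      rw [hq3, e1] at hx1
      rw [hq4, e2] at hx2
      exact main _ s t _ _ (q ε n).hc.pos hs ht hsN hI hx1.1 hx1.2 hx2.1 hx2.2 hK1.2.2
  rcases hfin (ε n) with h | h <;> rcases hfin (ε' n) with h' | h'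
  · exact absurd (h.trans h'.symm) hn
  · rcases fin ε ε' rfl hqn.symm h h' with h2 | h2 | h2
    · exact h2.trans d0
    · exact h2.trans d1
    · exact h2.trans d2
  · rcases fin ε' ε hqn.symm rfl h' h with h2 | h2 | h2
    · rw [abs_sub_comm] at h2; exact h2.trans d0
    · rw [abs_sub_comm] at h2; exact h2.trans d1
    · rw [abs_sub_comm] at h2; exact h2.trans d2
  · exact absurd (h.trans h'.symm) hn

end CF3
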