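import Pool.Agent.CF3.Step2

/-!
# Existence of a solution in a closed family, and the link with the certificate
-/

namespace CF3

open Set

lemma exists_step1 {P : List ℕ → List ℕ → List ℕ → Prop} {j : ℕ}
    (hstep : ∀ a b c, P a b c → ∃ s1 s2 s3 : List ℕ, W12 s1 ∧ W12 s2 ∧ W12 s3 ∧
      0 < s1.length + s2.length + s3.length ∧ P (a ++ s1) (b ++ s2) (c ++ s3))
    (σ : St P j) : ∃ τ : St P j, σ.Ext τ ∧ σ.len < τ.len := by
  obtain ⟨s1, s2, s3, hs1, hs2, hs3, hl, hs⟩ := hstep σ.a σ.b σ.c σ.hP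
  let σ1 : St P j := ⟨_, _, _, hs, hs1.adm_append σ.ha, hs2.adm_append σ.hb, hs3.adm_append σ.hc⟩
  refine ⟨σ1, ⟨⟨s1, hs1, rfl⟩, ⟨s2, hs2, rfl⟩, ⟨s3, hs3, rfl⟩⟩, ?_⟩
  show σ.len < σ1.len
  simp only [St.len, σ1, List.length_append]; omega

theorem exists_of_closed (K : ℝ) (j : ℕ) (P : List ℕ → List ℕ → List ℕ → Prop)
    (hS : ∀ a b c, P a b c → lo a + lo b + lo c ≤ 1 ∧ 1 ≤ hi a + hi b + hi c)
    (hsz : ∀ a b c, P a b c → size a + size b + size c ≤ K * size a ∧
      size a + size b + size c ≤ K * size b ∧ size a + size b + size c ≤ K * size c)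
    (hstep : ∀ a b c, P a b c → ∃ s1 s2 s3 : List ℕ, W12 s1 ∧ W12 s2 ∧ W12 s3 ∧
      0 < s1.length + s2.length + s3.length ∧ P (a ++ s1) (b ++ s2) (c ++ s3))
    {a0 b0 c0 : List ℕ} (hP0 : P a0 b0 c0) (ha0 : Adm j a0) (hb0 : Adm j b0) (hc0 : Adm j c0) :
    ∃ x y z : ℝ, x ∈ B2 j ∧ y ∈ B2 j ∧ z ∈ B2 j ∧ x + y + z = 1 ∧ (lo a0 ≤ x ∧ x ≤ hi a0) ∧
      (lo b0 ≤ y ∧ y ≤ hi b0) ∧ (lo c0 ≤ z ∧ z ≤ hi c0) := by
  classical
  let σ0 : St P j := ⟨a0, b0, c0, hP0, ha0, hb0, hc0⟩
  choose f hf1 hf2 using (exists_step1 (P := P) (j := j) hstep)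
  let q : ℕ → St P j := fun n => Nat.rec σ0 (fun _ σ => f σ) n
  have hqs : ∀ n, q (n + 1) = f (q n) := fun n => rfl
  have hq0 : q 0 = σ0 := rfl
  have hKpos : 0 ≤ K := by
    have h1 := (hsz a0 b0 c0 hP0).1
    have h2 := size_pos ha0.pos
    have h3 := size_pos hb0.pos
    have h4 := size_pos hc0.pos
    by_contra hK
    push Not at hK
    nlinarith
  have hlen : ∀ n, n ≤ (q n).len := by
    intro n
    induction n with
    | zero => exact Nat.zero_le _
    | succ n ih =>
      have := hf2 (q n)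
      rw [hqs]
      omega
  have hsum : ∀ n : ℕ, (size (q n).a + size (q n).b + size (q n).c) * (n + 3) ≤ 6 * K := by
    intro n
    obtain ⟨h1, h2, h3⟩ := hsz _ _ _ (q n).hP
    have h4 := hlen n
    unfold St.len at h4
    have key : ∀ w : List ℕ, Pos w → n ≤ 3 * w.length → size w * (n + 3) ≤ 6 := by
      intro w hw hn
      have h5 := size_le hw
      have h6 : (n : ℝ) ≤ 3 * w.length := by exact_mod_cast hn
      have h7 := size_pos hw
      nlinarith
    have hcase : n ≤ 3 * (q n).a.length ∨ n ≤ 3 * (q n).b.length ∨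
        n ≤ 3 * (q n).c.length := by omega
    have hn3 : (0:ℝ) ≤ (n:ℝ) + 3 := by positivity
    rcases hcase with h | h | h
    · have h5 := key _ (q n).ha.pos h
      nlinarith [mul_le_mul_of_nonneg_right h1 hn3, mul_le_mul_of_nonneg_left h5 hKpos]
    · have h5 := key _ (q n).hb.pos h
      nlinarith [mul_le_mul_of_nonneg_right h2 hn3, mul_le_mul_of_nonneg_left h5 hKpos]
    · have h5 := key _ (q n).hc.pos h
      nlinarith [mul_le_mul_of_nonneg_right h3 hn3, mul_le_mul_of_nonneg_left h5 hKpos]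
  have hsmall : ∀ δ : ℝ, 0 < δ → ∃ n,
      size (q n).a + size (q n).b + size (q n).c < δ := by
    intro δ hδ
    obtain ⟨n, hn⟩ := exists_nat_gt (6 * K / δ)
    refine ⟨n, ?_⟩
    have h1 := hsum n
    by_contra h2
    push Not at h2
    rw [div_lt_iff₀ hδ] at hn
    have hn3 : (0:ℝ) ≤ (n:ℝ) + 3 := by positivity
    nlinarith [mul_le_mul_of_nonneg_right h2 hn3]
  have hlong : ∀ (g : St P j → List ℕ), (∀ σ, Adm j (g σ)) →
      (∀ σ, size (g σ) ≤ size σ.a + size σ.b + size σ.c) →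
      ∀ N, ∃ n, N ≤ (g (q n)).length := by
    intro g hg hg2 N
    obtain ⟨n, hn⟩ := hsmall ((MM - mm) / 16 ^ N) (by
      have := sub_pos.2 mm_lt_MM
      positivity)
    refine ⟨n, ?_⟩
    by_contra h
    push Not at h
    have h1 := size_ge (hg (q n)).pos (hg (q n)).le_three
    have h2 := hg2 (q n)
    have h3 : (MM - mm) / 16 ^ N ≤ (MM - mm) / 16 ^ (g (q n)).length := by
      apply div_le_div_of_nonneg_left (sub_nonneg.2 mm_lt_MM.le) (by positivity)
      exact pow_le_pow_right₀ (by norm_num) h.le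
    linarith
  have hna : ∀ σ : St P j, 0 < size σ.a := fun σ => size_pos σ.ha.pos
  have hnb : ∀ σ : St P j, 0 < size σ.b := fun σ => size_pos σ.hb.pos
  have hnc : ∀ σ : St P j, 0 < size σ.c := fun σ => size_pos σ.hc.pos
  obtain ⟨x, hx⟩ : ∃ x, ∀ n, lo (q n).a ≤ x ∧ x ≤ hi (q n).a :=
    exists_point (fun n => (q n).ha.pos) (fun n => by rw [hqs]; exact (hf1 _).1)
  obtain ⟨y, hy⟩ : ∃ x, ∀ n, lo (q n).b ≤ x ∧ x ≤ hi (q n).b :=
    exists_point (fun n => (q n).hb.pos) (fun n => by rw [hqs]; exact (hf1 _).2.1)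
  obtain ⟨z, hz⟩ : ∃ x, ∀ n, lo (q n).c ≤ x ∧ x ≤ hi (q n).c :=
    exists_point (fun n => (q n).hc.pos) (fun n => by rw [hqs]; exact (hf1 _).2.2)
  have hxB : x ∈ B2 j :=
    mem_B2 (fun n => (q n).ha) (hlong (fun σ => σ.a) (fun σ => σ.ha)
      (fun σ => by have := hnb σ; have := hnc σ; linarith)) hx
  have hyB : y ∈ B2 j :=
    mem_B2 (fun n => (q n).hb) (hlong (fun σ => σ.b) (fun σ => σ.hb)
      (fun σ => by have := hna σ; have := hnc σ; linarith)) hy
  have hzB : z ∈ B2 j :=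
    mem_B2 (fun n => (q n).hc) (hlong (fun σ => σ.c) (fun σ => σ.hc)
      (fun σ => by have := hna σ; have := hnb σ; linarith)) hz
  have hone : x + y + z = 1 := by
    by_contra hne
    obtain ⟨n, hn⟩ := hsmall |x + y + z - 1| (abs_pos.2 (sub_ne_zero.2 hne))
    have h1 := hx n
    have h2 := hy n
    have h3 := hz n
    have h4 := hS _ _ _ (q n).hP
    have h5 : |x + y + z - 1| ≤ size (q n).a + size (q n).b + size (q n).c := by
      unfold size
      rw [abs_le]
      constructor <;> linarith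
    linarith
  exact ⟨x, y, z, hxB, hyB, hzB, hone, hx 0, hy 0, hz 0⟩

/-! ## The family of a certificate -/

/-- The outside view of a word. -/
noncomputable def co (w : List ℕ) : Co := ⟨par w, size w, w.getLast? == some 1⟩

/-- The type conditions for a word. -/
def Ty (w : List ℕ) : Prop := InTy (w.getLast? == some 1) (rho w)

/-- The family. -/
def PP (T0 T1 : Tree) (a b c : List ℕ) : Prop :=
  (Pos a ∧ Pos b ∧ Pos c) ∧ (Ty a ∧ Ty b ∧ Ty c) ∧
  Good T0 T1 0 (co a) (co b) (co c) (1 - lo a - lo b - lo c) (hi a + hi b + hi c - 1)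

lemma InTy.hull {t : Bool} {r : ℝ} (h : InTy t r) : mm ≤ r ∧ r ≤ MM := by
  unfold InTy at h
  unfold mm MM
  cases t
  · simp only [Bool.false_eq_true, if_false] at h
    constructor
    · refine le_trans ?_ h.1; norm_num
    · refine le_trans h.2 ?_; norm_num
  · simp only [if_true] at h
    constructor
    · refine le_trans ?_ h.1; norm_num
    · exact h.2

lemma InTy.of_hull1 {r : ℝ} (h1 : mm ≤ r) (h2 : r ≤ MM) : InTy true (1 / ((1:ℕ) + r)) := by
  unfold InTy
  unfold mm at h1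
  unfold MM at h2
  have : (0:ℝ) < (1:ℕ) + r := by push_cast; linarith
  simp only [if_true]
  constructor
  · rw [le_div_iff₀ this]; push_cast; linarith
  · rw [div_le_iff₀ this]; push_cast; linarith

lemma InTy.of_hull2 {r : ℝ} (h1 : mm ≤ r) (h2 : r ≤ MM) : InTy false (1 / ((2:ℕ) + r)) := by
  unfold InTy
  unfold mm at h1
  unfold MM at h2
  have : (0:ℝ) < (2:ℕ) + r := by push_cast; linarith
  simp only [Bool.false_eq_true, if_false]
  constructor
  · rw [le_div_iff₀ this]; push_cast; linarith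
  · rw [div_le_iff₀ this]; push_cast; linarith

lemma Ty.append {w s : List ℕ} (hw : Pos w) (h : Ty w) (hs : W12 s) : Ty (w ++ s) := by
  rcases List.eq_nil_or_concat' s with rfl | ⟨s', d, rfl⟩
  · simpa using h
  · have hs' : W12 s' := fun k hk => hs k (by simp [hk])
    have hd : d = 1 ∨ d = 2 := hs d (by simp)
    have hr := rho_hull hw h.hull.1 h.hull.2 s' hs'
    have e : w ++ (s' ++ [d]) = (w ++ s') ++ [d] := by simp
    have hp : Pos (w ++ s') := hw.append hs'.pos
    unfold Ty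
    rw [e, rho_snoc hp d (by omega)]
    rw [List.getLast?_append]
    rcases hd with rfl | rfl
    · simpa using InTy.of_hull1 hr.1 hr.2
    · simpa using InTy.of_hull2 hr.1 hr.2

lemma par_eq (w : List ℕ) : par w = decide (Even w.length) := by
  unfold par
  rw [Bool.eq_iff_iff]
  simp [Nat.even_iff]

lemma par_append (w s : List ℕ) : par (w ++ s) = if par s then par w else !par w := by
  unfold par
  rw [List.length_append]
  rcases Nat.mod_two_eq_zero_or_one w.length with h1 | h1 <;>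
    rcases Nat.mod_two_eq_zero_or_one s.length with h2 | h2 <;>
    simp [Nat.add_mod, h1, h2]

lemma co_append {w s : List ℕ} (hw : Pos w) (hs : W12 s) : co (w ++ s) = (co w).ap (rho w) s := by
  unfold co Co.ap
  simp only [Co.mk.injEq]
  refine ⟨par_append w s, ?_, ?_⟩
  · rw [size_append hw hs]; unfold cm cM; ring
  · unfold newty
    rcases List.eq_nil_or_concat' s with rfl | ⟨s', d, rfl⟩
    · simp
    · rw [← List.append_assoc, List.getLast?_append, List.getLast?_append]
      simp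

lemma lo_app {w s : List ℕ} (hw : Pos w) (hs : W12 s) :
    lo (w ++ s) = lo w + du (co w) (rho w) s := by
  unfold du co
  simp only [par_eq]
  by_cases he : Even w.length
  · simp only [he, decide_true, if_true]
    rw [lo_append_even hw he hs]; unfold cm; ring
  · simp only [he, decide_false, Bool.false_eq_true, if_false]
    rw [lo_append_odd hw he hs]; unfold cM; ring

lemma hi_app {w s : List ℕ} (hw : Pos w) (hs : W12 s) :
    hi (w ++ s) = hi w - dv (co w) (rho w) s := by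
  unfold dv co
  simp only [par_eq]
  by_cases he : Even w.length
  · simp only [he, decide_true, if_true]
    rw [hi_append_even hw he hs]; unfold cM; ring
  · simp only [he, decide_false, Bool.false_eq_true, if_false]
    rw [hi_append_odd hw he hs]; unfold cm; ring

lemma PP_step {T0 T1 : Tree} (hT : OK T0 T1) (a b c : List ℕ) (h : PP T0 T1 a b c) :
    ∃ s1 s2 s3 : List ℕ, W12 s1 ∧ W12 s2 ∧ W12 s3 ∧
      0 < s1.length + s2.length + s3.length ∧ PP T0 T1 (a ++ s1) (b ++ s2) (c ++ s3) := by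
  obtain ⟨⟨pa, pb, pc⟩, ⟨ta, tb, tc⟩, hg⟩ := h
  have huv : (1 - lo a - lo b - lo c) + (hi a + hi b + hi c - 1) =
      (co a).l + (co b).l + (co c).l := by
    unfold co size; simp only; ring
  obtain ⟨s1, s2, s3, h1, h2, h3, hl, hg'⟩ := good_step hT (x := co a) (y := co b) (z := co c)
    (size_pos pa) (size_pos pb) (size_pos pc) huv ta tb tc hg
  refine ⟨s1, s2, s3, h1, h2, h3, hl, ⟨pa.append h1.pos, pb.append h2.pos, pc.append h3.pos⟩,
    ⟨ta.append pa h1, tb.append pb h2, tc.append pc h3⟩, ?_⟩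
  rw [co_append pa h1, co_append pb h2, co_append pc h3, lo_app pa h1, lo_app pb h2, lo_app pc h3,
    hi_app pa h1, hi_app pb h2, hi_app pc h3]
  have e1 : 1 - (lo a + du (co a) (rho a) s1) - (lo b + du (co b) (rho b) s2) -
      (lo c + du (co c) (rho c) s3) = 1 - lo a - lo b - lo c - du (co a) (rho a) s1 -
      du (co b) (rho b) s2 - du (co c) (rho c) s3 := by ring
  have e2 : hi a - dv (co a) (rho a) s1 + (hi b - dv (co b) (rho b) s2) +
      (hi c - dv (co c) (rho c) s3) - 1 = hi a + hi b + hi c - 1 - dv (co a) (rho a) s1 -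
      dv (co b) (rho b) s2 - dv (co c) (rho c) s3 := by ring
  rw [e1, e2]
  exact hg'

/-- Existence of a solution in a good triple of cylinders. -/
theorem exists_solution {T0 T1 : Tree} (hT : OK T0 T1) {j : ℕ} {a0 b0 c0 : List ℕ}
    (hP0 : PP T0 T1 a0 b0 c0) (ha0 : Adm j a0) (hb0 : Adm j b0) (hc0 : Adm j c0) :
    ∃ x y z : ℝ, x ∈ B2 j ∧ y ∈ B2 j ∧ z ∈ B2 j ∧ x + y + z = 1 ∧ (lo a0 ≤ x ∧ x ≤ hi a0) ∧
      (lo b0 ≤ y ∧ y ≤ hi b0) ∧ (lo c0 ≤ z ∧ z ≤ hi c0) := by
  refine exists_of_closed 25 j (PP T0 T1) ?_ ?_ (PP_step hT) hP0 ha0 hb0 hc0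
  · rintro a b c ⟨⟨pa, pb, pc⟩, -, hg⟩
    have huv : (1 - lo a - lo b - lo c) + (hi a + hi b + hi c - 1) =
      (co a).l + (co b).l + (co c).l := by
      unfold co size; simp only; ring
    obtain ⟨h1, h2, -⟩ := hg.facts (size_pos pa) (size_pos pb) (size_pos pc) huv
    constructor <;> linarith
  · rintro a b c ⟨⟨pa, pb, pc⟩, -, hg⟩
    have huv : (1 - lo a - lo b - lo c) + (hi a + hi b + hi c - 1) =
      (co a).l + (co b).l + (co c).l := by
      unfold co size; simp only; ring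
    obtain ⟨-, -, h⟩ := hg.facts (size_pos pa) (size_pos pb) (size_pos pc) huv
    exact h

end CF3
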