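import Pool.Agent.CF3.Exist
import Pool.Agent.CF3.Asm

/-!
# An infinite family of good triples of cylinders
-/

namespace CF3

open Set

/-- block -/
def blA : List ℕ := [1, 2, 1, 1, 2, 1]
/-- block -/
def blB : List ℕ := [2, 1, 1, 2, 1, 1]
/-- block -/
def blC : List ℕ := [1, 1, 2, 1, 1, 2]

/-- first family of words -/
def fA : ℕ → List ℕ
  | 0 => [3]
  | k + 1 => fA k ++ blA
/-- second family of words -/
def fB : ℕ → List ℕ
  | 0 => [3, 2]
  | k + 1 => fB k ++ blB
/-- third family of words -/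
def fC : ℕ → List ℕ
  | 0 => [2, 3]
  | k + 1 => fC k ++ blC

lemma W12_blA : W12 blA := by unfold W12 blA; decide
lemma W12_blB : W12 blB := by unfold W12 blB; decide
lemma W12_blC : W12 blC := by unfold W12 blC; decide

lemma mat_blA : mat blA = ⟨13, 18, 18, 25⟩ := rfl
lemma mat_blB : mat blB = ⟨7, 12, 18, 31⟩ := rfl
lemma mat_blC : mat blC = ⟨7, 18, 12, 31⟩ := rfl

lemma fam_mat (k : ℕ) : ∃ e f : ℕ, (mat (fB k)).c = 3 * f ∧ (mat (fB k)).d = e ∧
    (mat (fC k)).c = 2 * f ∧ (mat (fC k)).d = e ∧ 5 * (mat (fA k)).c + e = 12 * f ∧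
    5 * (mat (fA k)).d + 6 * f = 3 * e ∧ 0 < f ∧ 0 < e ∧ 14 * e ≤ 100 * f ∧ 100 * f ≤ 20 * e ∧
    (1 ≤ k → 19367 * e ≤ 100000 * f ∧ 100000 * f ≤ 19372 * e) := by
  induction k with
  | zero => exact ⟨7, 1, by decide, by decide, by decide, by decide, by decide, by decide,
      by norm_num, by norm_num, by norm_num, by norm_num, fun h => by omega⟩
  | succ k ih =>
    obtain ⟨e, f, h1, h2, h3, h4, h5, h6, h7, h8, h9, h10, -⟩ := ih
    refine ⟨36 * f + 31 * e, 7 * f + 6 * e, ?_⟩
    simp only [fA, fB, fC, mat_append, mat_blA, mat_blB, mat_blC]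
    refine ⟨?_, ?_, ?_, ?_, ?_, ?_, ?_, ?_, ?_, ?_, ?_⟩
    · rw [h1, h2]; ring
    · rw [h1, h2]; ring
    · rw [h3, h4]; ring
    · rw [h3, h4]; ring
    · omega
    · omega
    · omega
    · omega
    · omega
    · omega
    · intro _; constructor <;> omega

lemma len_fA (k : ℕ) : (fA k).length % 2 = 1 := by
  induction k with
  | zero => rfl
  | succ k ih => simp only [fA, List.length_append, blA, List.length_cons, List.length_nil]; omega
lemma len_fB (k : ℕ) : (fB k).length % 2 = 0 := by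
  induction k with
  | zero => rfl
  | succ k ih => simp only [fB, List.length_append, blB, List.length_cons, List.length_nil]; omega
lemma len_fC (k : ℕ) : (fC k).length % 2 = 0 := by
  induction k with
  | zero => rfl
  | succ k ih => simp only [fC, List.length_append, blC, List.length_cons, List.length_nil]; omega

lemma adm_fA {j : ℕ} (hj : 2 ≤ j) (k : ℕ) : Adm j (fA k) := by
  induction k with
  | zero =>
    intro i hi
    simp only [fA, List.length_cons, List.length_nil] at hi
    have : i = 0 := by omega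
    subst this
    refine ⟨by simp [fA], by simp [fA], fun h => by omega⟩
  | succ k ih => exact W12_blA.adm_append ih
lemma adm_fB {j : ℕ} (hj : 2 ≤ j) (k : ℕ) : Adm j (fB k) := by
  induction k with
  | zero =>
    intro i hi
    simp only [fB, List.length_cons, List.length_nil] at hi
    have : i = 0 ∨ i = 1 := by omega
    rcases this with rfl | rfl
    · refine ⟨by simp [fB], by simp [fB], fun h => by omega⟩
    · refine ⟨by simp [fB], by simp [fB], fun h => by omega⟩
  | succ k ih => exact W12_blB.adm_append ih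
lemma adm_fC {j : ℕ} (hj : 2 ≤ j) (k : ℕ) : Adm j (fC k) := by
  induction k with
  | zero =>
    intro i hi
    simp only [fC, List.length_cons, List.length_nil] at hi
    have : i = 0 ∨ i = 1 := by omega
    rcases this with rfl | rfl
    · refine ⟨by simp [fC], by simp [fC], fun h => by omega⟩
    · refine ⟨by simp [fC], by simp [fC], fun h => by omega⟩
  | succ k ih => exact W12_blC.adm_append ih

/-! ### The limit point -/

lemma sq10 : Real.sqrt 10 * Real.sqrt 10 = 10 := Real.mul_self_sqrt (by norm_num)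
lemma s10_lo : (3.16227 : ℝ) ≤ Real.sqrt 10 := Real.le_sqrt_of_sq_le (by norm_num)
lemma s10_hi : Real.sqrt 10 ≤ (3.16228 : ℝ) := Real.sqrt_le_iff.2 ⟨by norm_num, by norm_num⟩

/-- tail of the first number -/
noncomputable def ta : ℝ := (-1 + Real.sqrt 10) / 3
/-- tail of the second number -/
noncomputable def tb : ℝ := (-2 + Real.sqrt 10) / 3
/-- tail of the third number -/
noncomputable def tc : ℝ := (-2 + Real.sqrt 10) / 2

lemma ta_b : (0.72075:ℝ) ≤ ta ∧ ta ≤ 0.72077 := by
  unfold ta; constructor <;> linarith [s10_lo, s10_hi]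
lemma tb_b : (0.38742:ℝ) ≤ tb ∧ tb ≤ 0.38743 := by
  unfold tb; constructor <;> linarith [s10_lo, s10_hi]
lemma tc_b : (0.58113:ℝ) ≤ tc ∧ tc ≤ 0.58115 := by
  unfold tc; constructor <;> linarith [s10_lo, s10_hi]

lemma app_blA : app blA ta = ta := by
  have h := ta_b
  have hp : Pos blA := W12_blA.pos
  rw [app_eq hp (by linarith), mat_blA]
  push_cast
  rw [div_eq_iff (by nlinarith)]
  unfold ta
  nlinarith [sq10]
lemma app_blB : app blB tb = tb := by
  have h := tb_b
  have hp : Pos blB := W12_blB.pos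
  rw [app_eq hp (by linarith), mat_blB]
  push_cast
  rw [div_eq_iff (by nlinarith)]
  unfold tb
  nlinarith [sq10]
lemma app_blC : app blC tc = tc := by
  have h := tc_b
  have hp : Pos blC := W12_blC.pos
  rw [app_eq hp (by linarith), mat_blC]
  push_cast
  rw [div_eq_iff (by nlinarith)]
  unfold tc
  nlinarith [sq10]

lemma app_fA (k : ℕ) : app (fA k) ta = (8 - Real.sqrt 10) / 18 := by
  induction k with
  | zero =>
    have h := ta_b
    simp only [fA, app]
    push_cast
    rw [div_eq_iff (by linarith)]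
    unfold ta
    nlinarith [sq10]
  | succ k ih => simp only [fA]; rw [app_append, app_blA, ih]
lemma app_fB (k : ℕ) : app (fB k) tb = (10 + Real.sqrt 10) / 45 := by
  induction k with
  | zero =>
    have h := tb_b
    have hp : Pos (fB 0) := by intro k hk; simp [fB] at hk; omega
    rw [app_eq hp (by linarith)]
    have hm : mat (fB 0) = ⟨1, 2, 3, 7⟩ := rfl
    rw [hm]
    push_cast
    rw [div_eq_iff (by nlinarith)]
    unfold tb
    nlinarith [sq10]
  | succ k ih => simp only [fB]; rw [app_append, app_blB, ih]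
lemma app_fC (k : ℕ) : app (fC k) tc = (10 + Real.sqrt 10) / 30 := by
  induction k with
  | zero =>
    have h := tc_b
    have hp : Pos (fC 0) := by intro k hk; simp [fC] at hk; omega
    rw [app_eq hp (by linarith)]
    have hm : mat (fC 0) = ⟨1, 3, 2, 7⟩ := rfl
    rw [hm]
    push_cast
    rw [div_eq_iff (by nlinarith)]
    unfold tc
    nlinarith [sq10]
  | succ k ih => simp only [fC]; rw [app_append, app_blC, ih]

/-! ### Bounds -/

lemma FF_bounds {r0 r r1 t0 t t1 : ℝ} (h0 : 0 ≤ r0) (h1 : r0 ≤ r) (h2 : r ≤ r1)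
    (h3 : mm ≤ t0) (h4 : t0 ≤ t) (h5 : t ≤ t1) (h6 : t1 ≤ MM) :
    FF r0 t0 ≤ FF r t ∧ FF r t ≤ FF r1 t1 := by
  have hm := mm_pos
  have hM := MM_pos
  have hd := sub_pos.2 mm_lt_MM
  have mono : ∀ {a b : ℝ}, mm ≤ a → a ≤ b → FF r a ≤ FF r b := by
    intro a b ha hab
    have hr : 0 ≤ r := h0.trans h1
    have ha' : 0 < a := by linarith
    have hb' : 0 < b := by linarith
    have h := FF_sub hr ha' hb'
    have g1 := gq_pos (s := mm) (t := a) hr hm.le ha'.le
    have g2 := gq_pos (s := MM) (t := b) hr hM.le hb'.le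
    have : 0 ≤ (b - a) / (MM - mm) * (gq r mm a * gq r MM b) := by
      have := sub_nonneg.2 hab
      positivity
    linarith
  constructor
  · exact (FF_mono h0 h1 h3 (by linarith)).trans (mono h3 h4)
  · exact (mono (by linarith) h5).trans (FF_mono (h0.trans h1) h2 (by linarith) h6)

lemma row_gen {R : Row} {s : List ℕ} {r0 r r1 : ℝ} (hs : W12 s) (h0 : 0 ≤ r0) (h1 : r0 ≤ r)
    (h2 : r ≤ r1)
    (ga : (R.a : ℝ) ≤ 65536 * FF r0 (lo s)) (gb : 65536 * FF r1 (lo s) ≤ R.b)
    (gc : (R.c : ℝ) ≤ 65536 * (1 - FF r1 (hi s))) (gd : 65536 * (1 - FF r0 (hi s)) ≤ R.d)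
    (ge : (R.e : ℝ) ≤ 65536 * ((hi s - lo s) / (MM - mm) * (gq r1 mm (lo s) * gq r0 MM (hi s))))
    (gf : 65536 * ((hi s - lo s) / (MM - mm) * (gq r0 mm (lo s) * gq r1 MM (hi s))) ≤ R.f) :
    RowOK R (cm r s) (cM r s) := by
  have hm := mm_pos
  have hM := MM_pos
  have k1 := (lo_hull hs).1
  have k2 := (lo_lt_hi hs.pos).le
  have k3 := (hi_hull hs).2
  have r0' : 0 ≤ r := h0.trans h1
  have r1' : 0 ≤ r1 := r0'.trans h2
  have hlo : 0 < lo s := by linarith
  have hhi : 0 < hi s := by linarith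
  have m1 := FF_mono h0 h1 k1 (k2.trans k3)
  have m2 := FF_mono r0' h2 k1 (k2.trans k3)
  have m3 := FF_mono h0 h1 (k1.trans k2) k3
  have m4 := FF_mono r0' h2 (k1.trans k2) k3
  have hC : 0 ≤ (hi s - lo s) / (MM - mm) := by
    have := sub_pos.2 mm_lt_MM
    have := sub_nonneg.2 k2
    positivity
  have kap : 1 - cm r s - cM r s = (hi s - lo s) / (MM - mm) *
      (gq r mm (lo s) * gq r MM (hi s)) := by
    rw [← FF_sub r0' hlo hhi]; unfold cm cM; ring
  have a1 := gq_anti (s := mm) (t := lo s) r0' h2 hm.le k1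
  have a2 := gq_anti (s := mm) (t := lo s) h0 h1 hm.le k1
  have a3 := gq_mono (s := MM) (t := hi s) r0' h2 hhi.le k3
  have a4 := gq_mono (s := MM) (t := hi s) h0 h1 hhi.le k3
  have p1 := gq_pos (s := mm) (t := lo s) r0' hm.le hlo.le
  have p2 := gq_pos (s := MM) (t := hi s) r0' hM.le hhi.le
  have p3 := gq_pos (s := mm) (t := lo s) r1' hm.le hlo.le
  have p4 := gq_pos (s := MM) (t := hi s) h0 hM.le hhi.le
  refine ⟨?_, ?_, ?_, ?_, ?_, ?_⟩
  · unfold cm; linarith
  · unfold cm; linarith
  · unfold cM; linarith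
  · unfold cM; linarith
  · rw [kap]
    refine ge.trans ?_
    have := mul_le_mul a1 a4 p4.le p1.le
    have := mul_le_mul_of_nonneg_left this hC
    linarith
  · rw [kap]
    refine le_trans ?_ gf
    have := mul_le_mul a2 a3 p2.le (p1.le.trans a2)
    have := mul_le_mul_of_nonneg_left this hC
    linarith

/-- row of the empty word -/
def rw0 : Row := ⟨0, 0, 0, 0, 65536, 65536⟩
/-- row of `[2]` -/
def rw2 : Row := ⟨2, 3, 54350, 54352, 11182, 11183⟩
/-- row of `[1, 2]` -/
def rw12 : Row := ⟨61158, 61160, 0, 1, 4376, 4377⟩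


end CF3
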