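import Pool.Agent.CF3.Family

/-!
# The family is good; infinitely many solutions
-/

namespace CF3

open Set

lemma row0_ok {r : ℝ} (hr : 0 ≤ r) : RowOK rw0 (cm r []) (cM r []) := by
  have hM := MM_pos
  have hd := sub_pos.2 mm_lt_MM
  have e1 : cm r [] = 0 := by unfold cm FF lo; simp [app]
  have e2 : cM r [] = 0 := by
    have : (hi [] : ℝ) = MM := by unfold hi; simp [app]
    unfold cM FF
    rw [this]
    have h2 : 0 < (MM - mm) * (1 + r * MM) := by positivity
    rw [div_self h2.ne']; ring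
  rw [e1, e2]
  unfold rw0
  constructor <;> norm_num

lemma lo_2 : lo [2] = 209 / 571 := by
  unfold lo
  simp only [List.length_cons, List.length_nil]
  rw [if_neg (by decide)]
  norm_num [app, MM]
lemma hi_2 : hi [2] = 153 / 362 := by
  unfold hi
  simp only [List.length_cons, List.length_nil]
  rw [if_neg (by decide)]
  norm_num [app, mm]
lemma lo_12 : lo [1, 2] = 362 / 515 := by
  unfold lo
  simp only [List.length_cons, List.length_nil]
  rw [if_pos (by decide)]
  norm_num [app, mm]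
lemma hi_12 : hi [1, 2] = 571 / 780 := by
  unfold hi
  simp only [List.length_cons, List.length_nil]
  rw [if_pos (by decide)]
  norm_num [app, MM]

lemma W12_2 : W12 [2] := by unfold W12; decide
lemma W12_12 : W12 [1, 2] := by unfold W12; decide
lemma W12_nil : W12 [] := by unfold W12; decide

lemma row2_ok {r : ℝ} (h1 : 0.3873 ≤ r) (h2 : r ≤ 0.3875) : RowOK rw2 (cm r [2]) (cM r [2]) := by
  refine row_gen W12_2 (by norm_num) h1 h2 ?_ ?_ ?_ ?_ ?_ ?_ <;>
    (try rw [lo_2]) <;> (try rw [hi_2]) <;> norm_num [rw2, FF, gq, mm, MM]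

lemma row12_ok {r : ℝ} (h1 : 0.7203 ≤ r) (h2 : r ≤ 0.7209) :
    RowOK rw12 (cm r [1, 2]) (cM r [1, 2]) := by
  refine row_gen W12_12 (by norm_num) h1 h2 ?_ ?_ ?_ ?_ ?_ ?_ <;>
    (try rw [lo_12]) <;> (try rw [hi_12]) <;> norm_num [rw12, FF, gq, mm, MM]

lemma base_cor {a b : ℝ} (a0 : 7430 ≤ a) (a1 : a ≤ 7450) (b0 : 8765 ≤ b) (b1 : b ≤ 8790) :
    Cor false rw0 rw2 rw12 39835 39894 8007 8043 17621 17672 38323 38585 7160 7195 a b := by
  have v1 := vtx_sound false rw0 rw2 rw12 39835 39894 8007 8043 17621 17672 38323 38585 7160 7195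
    7430 8765 (by norm_num) (by decide +kernel)
  have v2 := vtx_sound false rw0 rw2 rw12 39835 39894 8007 8043 17621 17672 38323 38585 7160 7195
    7450 8765 (by norm_num) (by decide +kernel)
  have v3 := vtx_sound false rw0 rw2 rw12 39835 39894 8007 8043 17621 17672 38323 38585 7160 7195
    7430 8790 (by norm_num) (by decide +kernel)
  have v4 := vtx_sound false rw0 rw2 rw12 39835 39894 8007 8043 17621 17672 38323 38585 7160 7195
    7450 8790 (by norm_num) (by decide +kernel)
  refine Cor.box ?_ ?_ ?_ ?_ v1 v2 v3 v4 <;> push_cast <;> assumption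

lemma base_good : chkGood tr0 tr1 0 true false false 39835 39894 8007 8043 17621 17672 38323 38585
    1 2 2 = true := by decide +kernel

lemma quo_lo {D P E b : ℝ} (hD : 0 < D) (hP : 0 < P) (hE : 0 < E) (h : b * P ≤ E) :
    b * (D / E) ≤ D / P := by
  rw [le_div_iff₀ hP, mul_div_assoc', div_mul_eq_mul_div, div_le_iff₀ hE]
  nlinarith

lemma quo_hi {D P E b : ℝ} (hD : 0 < D) (hP : 0 < P) (hE : 0 < E) (h : E ≤ b * P) :
    D / P ≤ b * (D / E) := by
  rw [div_le_iff₀ hP, mul_div_assoc', div_mul_eq_mul_div, le_div_iff₀ hE]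
  nlinarith

/-- bounds for the quadratic monomials -/
def Mon (e f : ℝ) : Prop := f * f ≤ 0.0375275 * (e * e) ∧ 0.037508 * (e * e) ≤ f * f ∧
  f * e ≤ 0.19372 * (e * e) ∧ 0.19367 * (e * e) ≤ f * e ∧ 0 < e * e

lemma mon_of {e f : ℝ} (E : 0 < e) (F : 0 < f) (G1 : 19367 * e ≤ 100000 * f)
    (G2 : 100000 * f ≤ 19372 * e) : Mon e f := by
  refine ⟨?_, ?_, ?_, ?_, by positivity⟩ <;> nlinarith

lemma polyB {e f : ℝ} (h : Mon e f) :
    0.5784 * ((3 * f * mm + e) * (3 * f * MM + e)) ≤ e * e ∧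
    e * e ≤ 0.5786 * ((3 * f * mm + e) * (3 * f * MM + e)) := by
  obtain ⟨u1, l1, u2, l2, p⟩ := h
  unfold mm MM
  constructor <;> linarith

lemma polyC {e f : ℝ} (h : Mon e f) :
    0.6822 * ((2 * f * mm + e) * (2 * f * MM + e)) ≤ e * e ∧
    e * e ≤ 0.6824 * ((2 * f * mm + e) * (2 * f * MM + e)) := by
  obtain ⟨u1, l1, u2, l2, p⟩ := h
  unfold mm MM
  constructor <;> linarith

lemma polyA {e f : ℝ} (h : Mon e f) :
    3.8335 * (((12 * f - e) / 5 * mm + (3 * e - 6 * f) / 5) *
      ((12 * f - e) / 5 * MM + (3 * e - 6 * f) / 5)) ≤ e * e ∧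
    e * e ≤ 3.835 * (((12 * f - e) / 5 * mm + (3 * e - 6 * f) / 5) *
      ((12 * f - e) / 5 * MM + (3 * e - 6 * f) / 5)) := by
  obtain ⟨u1, l1, u2, l2, p⟩ := h
  unfold mm MM
  constructor <;> linarith

lemma last_fB (k : ℕ) : (fB (k + 1)).getLast? = some 1 := by
  simp only [fB, blB]
  rw [List.getLast?_append]; rfl

lemma fam_good (k : ℕ) :
    PP tr0 tr1 (fB (k + 1) ++ []) (fC (k + 1) ++ [2]) (fA (k + 1) ++ [1, 2]) := by
  obtain ⟨e, f, hBc, hBd, hCc, hCd, hAc, hAd, hf, he, -, -, hfine⟩ := fam_mat (k + 1)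
  obtain ⟨g1, g2⟩ := hfine (by omega)
  have pB : Pos (fB (k + 1)) := (adm_fB le_rfl _).pos
  have pC : Pos (fC (k + 1)) := (adm_fC le_rfl _).pos
  have pA : Pos (fA (k + 1)) := (adm_fA le_rfl _).pos
  have oB := len_fB (k + 1)
  have oC := len_fC (k + 1)
  have oA := len_fA (k + 1)
  have lB := last_fB k
  have xA := app_fA (k + 1)
  have xB := app_fB (k + 1)
  have xC := app_fC (k + 1)
  generalize fB (k + 1) = B at *
  generalize fC (k + 1) = C at *
  generalize fA (k + 1) = A at *
  have E : (0:ℝ) < e := by exact_mod_cast he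
  have F : (0:ℝ) < f := by exact_mod_cast hf
  have G1 : (19367:ℝ) * e ≤ 100000 * f := by exact_mod_cast g1
  have G2 : (100000:ℝ) * f ≤ 19372 * e := by exact_mod_cast g2
  have RA1 : 5 * ((mat A).c : ℝ) + e = 12 * f := by exact_mod_cast hAc
  have RA2 : 5 * ((mat A).d : ℝ) + 6 * f = 3 * e := by exact_mod_cast hAd
  have dA : (0:ℝ) < (mat A).d := by exact_mod_cast mat_d_pos pA
  -- rho
  have rB : rho B = 3 * (f / e) := by unfold rho; rw [hBc, hBd]; push_cast; ring
  have rC : rho C = 2 * (f / e) := by unfold rho; rw [hCc, hCd]; push_cast; ring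
  have hg1 : (0.19367:ℝ) ≤ f / e := by rw [le_div_iff₀ E]; linarith
  have hg2 : (f:ℝ) / e ≤ 0.19372 := by rw [div_le_iff₀ E]; linarith
  have rA1 : (0.7203:ℝ) ≤ rho A := by unfold rho; rw [le_div_iff₀ dA]; linarith
  have rA2 : rho A ≤ 0.7209 := by unfold rho; rw [div_le_iff₀ dA]; linarith
  -- sizes
  have hD := sub_pos.2 mm_lt_MM
  have EE : (0:ℝ) < e * e := by positivity
  have hM := mon_of E F G1 G2
  have sB := size_eq pB
  have sC := size_eq pC
  have sA := size_eq pA
  have PB : (0:ℝ) < ((mat B).c * mm + (mat B).d) * ((mat B).c * MM + (mat B).d) :=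
    mul_pos (den_pos pB mm_pos) (den_pos pB MM_pos)
  have PC : (0:ℝ) < ((mat C).c * mm + (mat C).d) * ((mat C).c * MM + (mat C).d) :=
    mul_pos (den_pos pC mm_pos) (den_pos pC MM_pos)
  have PA : (0:ℝ) < ((mat A).c * mm + (mat A).d) * ((mat A).c * MM + (mat A).d) :=
    mul_pos (den_pos pA mm_pos) (den_pos pA MM_pos)
  have cA : ((mat A).c : ℝ) = (12 * f - e) / 5 := by linarith
  have dA' : ((mat A).d : ℝ) = (3 * e - 6 * f) / 5 := by linarith
  have QB1 : 0.5784 * ((MM - mm) / (e * e)) ≤ size B := by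
    rw [sB]
    apply quo_lo hD PB EE
    rw [hBc, hBd]; push_cast; exact (polyB hM).1
  have QB2 : size B ≤ 0.5786 * ((MM - mm) / (e * e)) := by
    rw [sB]
    apply quo_hi hD PB EE
    rw [hBc, hBd]; push_cast; exact (polyB hM).2
  have QC1 : 0.6822 * ((MM - mm) / (e * e)) ≤ size C := by
    rw [sC]
    apply quo_lo hD PC EE
    rw [hCc, hCd]; push_cast; exact (polyC hM).1
  have QC2 : size C ≤ 0.6824 * ((MM - mm) / (e * e)) := by
    rw [sC]
    apply quo_hi hD PC EE
    rw [hCc, hCd]; push_cast; exact (polyC hM).2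
  have QA1 : 3.8335 * ((MM - mm) / (e * e)) ≤ size A := by
    rw [sA]
    apply quo_lo hD PA EE
    rw [cA, dA']; exact (polyA hM).1
  have QA2 : size A ≤ 3.835 * ((MM - mm) / (e * e)) := by
    rw [sA]
    apply quo_hi hD PA EE
    rw [cA, dA']; exact (polyA hM).2
  have hκ : 0 < (MM - mm) / ((e:ℝ) * e) := by positivity
  generalize (MM - mm) / ((e:ℝ) * e) = κ at *
  have zB := size_pos pB
  have zC := size_pos pC
  have zA := size_pos pA
  -- position
  have bA := ta_b
  have bB := tb_b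
  have bC := tc_b
  have yA := app_odd pA (by rw [Nat.even_iff]; omega) (t := ta) (by linarith)
  have yB := app_even pB (by rw [Nat.even_iff]; omega) (t := tb) (by linarith)
  have yC := app_even pC (by rw [Nat.even_iff]; omega) (t := tc) (by linarith)
  have fA' := FF_bounds (r0 := 0.7203) (r := rho A) (r1 := 0.7209) (t0 := 0.72075) (t := ta)
    (t1 := 0.72077) (by norm_num) rA1 rA2 (by norm_num [mm]) bA.1 bA.2 (by norm_num [MM])
  have fB' := FF_bounds (r0 := 0.581) (r := rho B) (r1 := 0.5812) (t0 := 0.38742) (t := tb)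
    (t1 := 0.38743) (by norm_num) (by rw [rB]; linarith) (by rw [rB]; linarith)
    (by norm_num [mm]) bB.1 bB.2 (by norm_num [MM])
  have fC' := FF_bounds (r0 := 0.3873) (r := rho C) (r1 := 0.3875) (t0 := 0.58113) (t := tc)
    (t1 := 0.58115) (by norm_num) (by rw [rC]; linarith) (by rw [rC]; linarith)
    (by norm_num [mm]) bC.1 bC.2 (by norm_num [MM])
  have nA0 : (0.9743:ℝ) ≤ FF 0.7203 0.72075 := by norm_num [FF, mm, MM]
  have nA1 : FF 0.7209 0.72077 ≤ (0.9744:ℝ) := by norm_num [FF, mm, MM]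
  have nB0 : (0.068:ℝ) ≤ FF 0.581 0.38742 := by norm_num [FF, mm, MM]
  have nB1 : FF 0.5812 0.38743 ≤ (0.0681:ℝ) := by norm_num [FF, mm, MM]
  have nC0 : (0.6157:ℝ) ≤ FF 0.3873 0.58113 := by norm_num [FF, mm, MM]
  have nC1 : FF 0.3875 0.58115 ≤ (0.6158:ℝ) := by norm_num [FF, mm, MM]
  have hu : 1 - lo B - lo C - lo A = FF (rho B) tb * size B + FF (rho C) tc * size C +
      (1 - FF (rho A) ta) * size A := by
    have h1 : hi A = lo A + size A := by unfold size; ring
    have h2 : app A ta + app B tb + app C tc = 1 := by rw [xA, xB, xC]; ring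
    rw [yA, yB, yC, h1] at h2
    linarith
  have m1 := mul_le_mul_of_nonneg_right (nB0.trans fB'.1) zB.le
  have m2 := mul_le_mul_of_nonneg_right (fB'.2.trans nB1) zB.le
  have m3 := mul_le_mul_of_nonneg_right (nC0.trans fC'.1) zC.le
  have m4 := mul_le_mul_of_nonneg_right (fC'.2.trans nC1) zC.le
  have m5 := mul_le_mul_of_nonneg_right (nA0.trans fA'.1) zA.le
  have m6 := mul_le_mul_of_nonneg_right (fA'.2.trans nA1) zA.le
  have hS : 0 < size B + size C + size A := by positivity
  have huv : (1 - lo B - lo C - lo A) + (hi B + hi C + hi A - 1) = size B + size C + size A := by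
    unfold size; ring
  have tB : (co B).t = true := by unfold co; simp only; rw [lB]; rfl
  have pB' : par B = true := by unfold par; simp [oB]
  have pC' : par C = true := by unfold par; simp [oC]
  have pA' : par A = false := by unfold par; simp [oA]
  have hgood := image_good (T0 := tr0) (T1 := tr1) (n := 0) (cls := false) (e1 := true)
    (e2 := false) (e3 := false) (R1 := rw0) (R2 := rw2) (R3 := rw12)
    (x0 := 39835) (x1 := 39894) (y0 := 8007) (y1 := 8043) (z0 := 17621) (z1 := 17672)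
    (w0 := 38323) (w1 := 38585) (u0 := 7160) (u1 := 7195) (tx := 1) (ty := 2) (tz := 2)
    (x := co B) (y := co C) (z := co A) (u := 1 - lo B - lo C - lo A)
    (v := hi B + hi C + hi A - 1) (s := size B + size C + size A)
    (r1 := rho B) (r2 := rho C) (r3 := rho A) (s1 := []) (s2 := [2]) (s3 := [1, 2])
    hS zB zC zA rfl huv (by show par B = par C; rw [pB', pC'])
    (by show par A = !(par B); rw [pA', pB']; rfl)
    (base_cor
      (by show 7430 ≤ nrm (size B) _; unfold nrm; rw [le_div_iff₀ hS]; linarith)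
      (by show nrm (size B) _ ≤ 7450; unfold nrm; rw [div_le_iff₀ hS]; linarith)
      (by show 8765 ≤ nrm (size C) _; unfold nrm; rw [le_div_iff₀ hS]; linarith)
      (by show nrm (size C) _ ≤ 8790; unfold nrm; rw [div_le_iff₀ hS]; linarith))
    (by
      have : (co B).o = true := pB'
      rw [this, if_pos rfl, hu]
      push_cast
      unfold nrm; rw [le_div_iff₀ hS]; linarith)
    (by
      have : (co B).o = true := pB'
      rw [this, if_pos rfl, hu]
      push_cast
      unfold nrm; rw [div_le_iff₀ hS]; linarith)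
    (rho_nonneg _) (rho_nonneg _) (rho_nonneg _) W12_nil W12_2 W12_12
    (row0_ok (rho_nonneg _)) (row2_ok (by rw [rC]; linarith) (by rw [rC]; linarith))
    (row12_ok rA1 rA2) (by unfold Side; norm_num) (by norm_num) (by norm_num) (by norm_num)
    (by norm_num) (by decide) (by decide) (by decide)
    ⟨fun _ => by show newty (co B).t [] = true; rw [tB]; rfl, fun h => by omega⟩
    ⟨fun h => by omega, fun _ => rfl⟩ ⟨fun h => by omega, fun _ => rfl⟩ base_good
  refine ⟨⟨pB.append W12_nil.pos, pC.append W12_2.pos, pA.append W12_12.pos⟩, ⟨?_, ?_, ?_⟩, ?_⟩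
  · unfold Ty
    rw [List.append_nil, lB, rB]
    have : ((some 1 : Option ℕ) == some 1) = true := rfl
    rw [this]
    unfold InTy
    simp only [if_true]
    constructor <;> linarith
  · unfold Ty
    rw [rho_snoc pC 2 (by norm_num), rC, List.getLast?_append]
    have : (((([2] : List ℕ).getLast?).or C.getLast?) == some 1) = false := rfl
    rw [this]
    apply InTy.of_hull2
    · unfold mm; linarith
    · unfold MM; linarith
  · unfold Ty
    have ea : A ++ [1, 2] = (A ++ [1]) ++ [2] := by simp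
    have hp1 : Pos (A ++ [1]) := pA.append (by intro k hk; simp at hk; omega)
    rw [ea, rho_snoc hp1 2 (by norm_num), rho_snoc pA 1 le_rfl, List.getLast?_append]
    have : (((([2] : List ℕ).getLast?).or (A ++ [1]).getLast?) == some 1) = false := rfl
    rw [this]
    have h1 := step1 (t := rho A) (by unfold mm; linarith) (by unfold MM; linarith)
    push_cast at h1 ⊢
    exact_mod_cast InTy.of_hull2 h1.1 h1.2
  · rw [co_append pB W12_nil, co_append pC W12_2, co_append pA W12_12, lo_app pB W12_nil,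
      lo_app pC W12_2, lo_app pA W12_12, hi_app pB W12_nil, hi_app pC W12_2, hi_app pA W12_12]
    have e1 : 1 - (lo B + du (co B) (rho B) []) - (lo C + du (co C) (rho C) [2]) -
        (lo A + du (co A) (rho A) [1, 2]) = 1 - lo B - lo C - lo A - du (co B) (rho B) [] -
        du (co C) (rho C) [2] - du (co A) (rho A) [1, 2] := by ring
    have e2 : hi B - dv (co B) (rho B) [] + (hi C - dv (co C) (rho C) [2]) +
        (hi A - dv (co A) (rho A) [1, 2]) - 1 = hi B + hi C + hi A - 1 - dv (co B) (rho B) [] -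
        dv (co C) (rho C) [2] - dv (co A) (rho A) [1, 2] := by ring
    rw [e1, e2]
    exact hgood

lemma fC_ext (k m : ℕ) : ∃ t, fC (k + m + 1) = fC k ++ (1 :: t) := by
  induction m with
  | zero => exact ⟨[1, 2, 1, 1, 2], rfl⟩
  | succ m ih =>
    obtain ⟨t, ht⟩ := ih
    refine ⟨t ++ blC, ?_⟩
    have : fC (k + (m + 1) + 1) = fC (k + m + 1) ++ blC := rfl
    rw [this, ht]; simp

lemma fC_inc {k k' : ℕ} (h : k < k') : Inc (fC k ++ [2]) (fC k' ++ [2]) := by
  obtain ⟨m, rfl⟩ : ∃ m, k' = k + m + 1 := ⟨k' - k - 1, by omega⟩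
  obtain ⟨t, ht⟩ := fC_ext k m
  rw [ht, List.append_assoc]
  apply inc_append
  constructor
  · intro h; simp at h
  · intro h; simp at h

theorem S_infinite_of (hT : OK tr0 tr1) {j : ℕ} (hj : 2 ≤ j) : (S j).Infinite := by
  have h : ∀ k : ℕ, ∃ x y z : ℝ, x ∈ B2 j ∧ y ∈ B2 j ∧ z ∈ B2 j ∧ x + y + z = 1 ∧
      (lo (fC (k + 1) ++ [2]) ≤ y ∧ y ≤ hi (fC (k + 1) ++ [2])) := by
    intro k
    obtain ⟨x, y, z, hx, hy, hz, hs, -, hl, -⟩ := exists_solution hT (fam_good k)
      (W12_nil.adm_append (adm_fB hj _)) (W12_2.adm_append (adm_fC hj _))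
      (W12_12.adm_append (adm_fA hj _))
    exact ⟨x, y, z, hx, hy, hz, hs, hl⟩
  choose x y z hx hy hz hs hl using h
  have pos : ∀ k, Pos (fC (k + 1) ++ [2]) := fun k => (W12_2.adm_append (adm_fC hj _)).pos
  have key : ∀ k k', k < k' → y k ≠ y k' := by
    intro k k' hk he
    have h1 := hl k
    have h2 := hl k'
    rw [← he] at h2
    exact inc_disjoint (pos k) (pos k') (fC_inc (by omega)) h1.1 h1.2 h2.1 h2.2
  have inj : Function.Injective (fun k => ((x k, y k, z k) : ℝ × ℝ × ℝ)) := by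
    intro k k' he
    have he' : y k = y k' := congrArg (fun t : ℝ × ℝ × ℝ => t.2.1) he
    rcases lt_trichotomy k k' with h | h | h
    · exact absurd he' (key k k' h)
    · exact h
    · exact absurd he'.symm (key k' k h)
  have hTinf : (T j).Infinite :=
    Set.infinite_of_injective_forall_mem inj (fun k => ⟨hx k, hy k, hz k, hs k⟩)
  intro hfin
  apply hTinf
  apply Set.Finite.subset _ (T_subset j)
  refine ((((Set.Finite.union ?_ ?_).union ?_).union ?_).union ?_).union ?_ <;>
    exact hfin.image _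

theorem S_infinite {j : ℕ} (hj : 2 ≤ j) : (S j).Infinite := S_infinite_of ⟨tr0_ok, tr1_ok⟩ hj

end CF3
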