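import Pool.Agent.CF3.Opt

namespace CF3

/-- A cylinder seen from outside: orientation (`true`: even length), size, type (`true`: last
digit `1`, `false`: last digit `2`). -/
structure Co where
  o : Bool
  l : ℝ
  t : Bool

/-- normalised value -/
noncomputable def nrm (p s : ℝ) : ℝ := 65536 * p / s

/-- The admitted range of normalised states. -/
def Rng (a b c u : ℝ) : Prop :=
  3200 ≤ a ∧ a ≤ 47232 ∧ 3200 ≤ b ∧ b ≤ 47232 ∧ 3200 ≤ c ∧ c ≤ 47232 ∧ 6528 ≤ u ∧ u ≤ 59008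

/-- The state `(x, y, z; u, v)` is in canonical order and lies in the region. -/
def Can (T0 T1 : Tree) (n : ℕ) (x y z : Co) (u v : ℝ) : Prop :=
  x.o = y.o ∧ y.l ≤ x.l ∧
  Rng (nrm x.l (x.l + y.l + z.l)) (nrm y.l (x.l + y.l + z.l)) (nrm z.l (x.l + y.l + z.l))
    (nrm (if x.o then u else v) (x.l + y.l + z.l)) ∧
  ((z.o = x.o ∧ z.l ≤ y.l ∧ Mem T1 (nrm x.l (x.l + y.l + z.l)) (nrm y.l (x.l + y.l + z.l))
      (nrm (if x.o then u else v) (x.l + y.l + z.l)) x.t y.t z.t n) ∨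
   (z.o ≠ x.o ∧ Mem T0 (nrm x.l (x.l + y.l + z.l)) (nrm y.l (x.l + y.l + z.l))
      (nrm (if x.o then u else v) (x.l + y.l + z.l)) x.t y.t z.t n))

/-- The state is in the region, in some order. -/
def Good (T0 T1 : Tree) (n : ℕ) (x y z : Co) (u v : ℝ) : Prop :=
  Can T0 T1 n x y z u v ∨ Can T0 T1 n y x z u v ∨ Can T0 T1 n x z y u v ∨
  Can T0 T1 n y z x u v ∨ Can T0 T1 n z x y u v ∨ Can T0 T1 n z y x u v

variable {T0 T1 : Tree} {n : ℕ}

lemma Good.swap12 {x y z : Co} {u v : ℝ} (h : Good T0 T1 n x y z u v) : Good T0 T1 n y x z u v := by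
  unfold Good at *; tauto

lemma Good.swap23 {x y z : Co} {u v : ℝ} (h : Good T0 T1 n x y z u v) : Good T0 T1 n x z y u v := by
  unfold Good at *; tauto

lemma q0_sound {T : Tree} {x0 x1 y0 y1 z0 z1 u0 u1 tx ty tz : ℕ}
    (h : q0 T n x0 x1 y0 y1 z0 z1 u0 u1 tx ty tz = true)
    {a b c u : ℝ} {x y z : Bool} (hs : a + b + c = 65536) (hba : b ≤ a)
    (hx0 : x0 ≤ a) (hx1 : a ≤ x1) (hy0 : y0 ≤ b) (hy1 : b ≤ y1) (hz0 : z0 ≤ c) (hz1 : c ≤ z1)
    (hu0 : u0 ≤ u) (hu1 : u ≤ u1) (hx : Cp tx x) (hy : Cp ty y) (hz : Cp tz z) :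
    Mem T a b u x y z n := by
  unfold q0 at h
  simp only [frc_eq, Bool.or_eq_true, Nat.blt_eq] at h
  rcases h with h | h | h
  · exfalso
    have h' : (x1 : ℝ) < max (x0 : ℝ) y0 := by rw [← mx_eq]; exact_mod_cast h
    rcases max_choice (x0 : ℝ) y0 with e | e <;> rw [e] at h' <;> linarith
  · exfalso
    have h' : min (y1 : ℝ) x1 < y0 := by rw [← mn_le_iff]; exact_mod_cast h
    rcases min_choice (y1 : ℝ) x1 with e | e <;> rw [e] at h' <;> linarith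
  · refine query_sound T n false _ _ _ _ _ _ _ _ _ _ _ h a b c u x y z hs hba (by simp) ?_ hx1 hy0 ?_
      hz0 hz1 hu0 hu1 hx hy hz
    · rw [mx_eq]; exact max_le hx0 (by linarith)
    · rw [mn_le_iff]; exact le_min hy1 (by linarith)

lemma q1_sound {T : Tree} {x0 x1 y0 y1 z0 z1 u0 u1 tx ty tz : ℕ}
    (h : q1 T n x0 x1 y0 y1 z0 z1 u0 u1 tx ty tz = true)
    {a b c u : ℝ} {x y z : Bool} (hs : a + b + c = 65536) (hba : b ≤ a) (hcb : c ≤ b)
    (hx0 : x0 ≤ a) (hx1 : a ≤ x1) (hy0 : y0 ≤ b) (hy1 : b ≤ y1) (hz0 : z0 ≤ c) (hz1 : c ≤ z1)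
    (hu0 : u0 ≤ u) (hu1 : u ≤ u1) (hx : Cp tx x) (hy : Cp ty y) (hz : Cp tz z) :
    Mem T a b u x y z n := by
  unfold q1 at h
  simp only [frc_eq, Bool.or_eq_true, Nat.blt_eq] at h
  have e1 : ((mx y0 z0 : ℕ) : ℝ) ≤ b := by rw [mx_eq]; exact max_le hy0 (by linarith)
  have e2 : ((mx x0 (mx y0 z0) : ℕ) : ℝ) ≤ a := by rw [mx_eq]; exact max_le hx0 (by linarith)
  have e3 : b ≤ ((mn y1 x1 : ℕ) : ℝ) := by rw [mn_le_iff]; exact le_min hy1 (by linarith)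
  have e4 : c ≤ ((mn z1 (mn y1 x1) : ℕ) : ℝ) := by rw [mn_le_iff]; exact le_min hz1 (by linarith)
  rcases h with h | h | h | h
  · exfalso
    have h' : (x1 : ℝ) < (mx x0 (mx y0 z0) : ℕ) := by exact_mod_cast h
    linarith
  · exfalso
    have h' : ((mn y1 x1 : ℕ) : ℝ) < (mx y0 z0 : ℕ) := by exact_mod_cast h
    linarith
  · exfalso
    have h' : ((mn z1 (mn y1 x1) : ℕ) : ℝ) < z0 := by exact_mod_cast h
    linarith
  · exact query_sound T n true _ _ _ _ _ _ _ _ _ _ _ h a b c u x y z hs hba (fun _ => hcb) e2 hx1 e1 e3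
      hz0 e4 hu0 hu1 hx hy hz

/-- range hypothesis for a normalised quantity -/
def In (p s : ℝ) (a b : ℕ) : Prop := (a : ℝ) ≤ nrm p s ∧ nrm p s ≤ b

lemma nrm_sum {x y z s : ℝ} (hs : 0 < s) (h : x + y + z = s) :
    nrm x s + nrm y s + nrm z s = 65536 := by
  unfold nrm
  rw [← add_div, ← add_div, div_eq_iff hs.ne']
  rw [← h]; ring

lemma nrm_le {x y s : ℝ} (hs : 0 < s) (h : x ≤ y) : nrm x s ≤ nrm y s := by
  unfold nrm
  gcongr

/-- numeric side conditions -/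
def Side (x0 x1 y0 y1 z0 z1 w0 w1 : ℕ) : Prop :=
  3200 ≤ x0 ∧ x1 ≤ 47232 ∧ 3200 ≤ y0 ∧ y1 ≤ 47232 ∧ 3200 ≤ z0 ∧ z1 ≤ 47232 ∧ 6528 ≤ w0 ∧ w1 ≤ 59008

lemma q02_sound {x0 x1 y0 y1 z0 z1 w0 w1 tx ty tz : ℕ}
    (h : q02 T0 n x0 x1 y0 y1 z0 z1 w0 w1 tx ty tz = true) {x y z : Co} {u v s : ℝ}
    (hs : 0 < s) (hxyz : x.l + y.l + z.l = s) (hxy : x.o = y.o) (hz : z.o ≠ x.o)
    (side : Side x0 x1 y0 y1 z0 z1 w0 w1)
    (ix : In x.l s x0 x1) (iy : In y.l s y0 y1) (iz : In z.l s z0 z1)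
    (iw : In (if x.o then u else v) s w0 w1) (cx : Cp tx x.t) (cy : Cp ty y.t) (cz : Cp tz z.t) :
    Good T0 T1 n x y z u v := by
  unfold q02 at h
  rw [Bool.and_eq_true] at h
  obtain ⟨s1, s2, s3, s4, s5, s6, s7, s8⟩ := side
  have r1 : (3200:ℝ) ≤ x0 := by exact_mod_cast s1
  have r2 : (x1:ℝ) ≤ 47232 := by exact_mod_cast s2
  have r3 : (3200:ℝ) ≤ y0 := by exact_mod_cast s3
  have r4 : (y1:ℝ) ≤ 47232 := by exact_mod_cast s4
  have r5 : (3200:ℝ) ≤ z0 := by exact_mod_cast s5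
  have r6 : (z1:ℝ) ≤ 47232 := by exact_mod_cast s6
  have r7 : (6528:ℝ) ≤ w0 := by exact_mod_cast s7
  have r8 : (w1:ℝ) ≤ 59008 := by exact_mod_cast s8
  rcases le_total y.l x.l with hle | hle
  · left
    refine ⟨hxy, hle, ?_, Or.inr ⟨hz, ?_⟩⟩
    · rw [hxyz]
      exact ⟨r1.trans ix.1, ix.2.trans r2, r3.trans iy.1, iy.2.trans r4, r5.trans iz.1,
        iz.2.trans r6, r7.trans iw.1, iw.2.trans r8⟩
    · rw [hxyz]
      exact q0_sound h.1 (nrm_sum hs hxyz) (nrm_le hs hle) ix.1 ix.2 iy.1 iy.2 iz.1 iz.2 iw.1 iw.2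
        cx cy cz
  · right; left
    have hyxz : y.l + x.l + z.l = s := by linarith
    refine ⟨hxy.symm, hle, ?_, Or.inr ⟨by rw [← hxy]; exact hz, ?_⟩⟩
    · rw [hyxz, ← hxy]
      exact ⟨r3.trans iy.1, iy.2.trans r4, r1.trans ix.1, ix.2.trans r2, r5.trans iz.1,
        iz.2.trans r6, r7.trans iw.1, iw.2.trans r8⟩
    · rw [hyxz, ← hxy]
      exact q0_sound h.2 (nrm_sum hs hyxz) (nrm_le hs hle) iy.1 iy.2 ix.1 ix.2 iz.1 iz.2 iw.1 iw.2
        cy cx cz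

lemma can1 {x0 x1 y0 y1 z0 z1 w0 w1 tx ty tz : ℕ}
    (h : q1 T1 n x0 x1 y0 y1 z0 z1 w0 w1 tx ty tz = true) {x y z : Co} {u v s : ℝ}
    (hs : 0 < s) (hxyz : x.l + y.l + z.l = s) (hxy : x.o = y.o) (hz : z.o = x.o)
    (hyx : y.l ≤ x.l) (hzy : z.l ≤ y.l)
    (side : Side x0 x1 y0 y1 z0 z1 w0 w1)
    (ix : In x.l s x0 x1) (iy : In y.l s y0 y1) (iz : In z.l s z0 z1)
    (iw : In (if x.o then u else v) s w0 w1) (cx : Cp tx x.t) (cy : Cp ty y.t) (cz : Cp tz z.t) :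
    Can T0 T1 n x y z u v := by
  obtain ⟨s1, s2, s3, s4, s5, s6, s7, s8⟩ := side
  have r1 : (3200:ℝ) ≤ x0 := by exact_mod_cast s1
  have r2 : (x1:ℝ) ≤ 47232 := by exact_mod_cast s2
  have r3 : (3200:ℝ) ≤ y0 := by exact_mod_cast s3
  have r4 : (y1:ℝ) ≤ 47232 := by exact_mod_cast s4
  have r5 : (3200:ℝ) ≤ z0 := by exact_mod_cast s5
  have r6 : (z1:ℝ) ≤ 47232 := by exact_mod_cast s6
  have r7 : (6528:ℝ) ≤ w0 := by exact_mod_cast s7
  have r8 : (w1:ℝ) ≤ 59008 := by exact_mod_cast s8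
  refine ⟨hxy, hyx, ?_, Or.inl ⟨hz, hzy, ?_⟩⟩
  · rw [hxyz]
    exact ⟨r1.trans ix.1, ix.2.trans r2, r3.trans iy.1, iy.2.trans r4, r5.trans iz.1,
      iz.2.trans r6, r7.trans iw.1, iw.2.trans r8⟩
  · rw [hxyz]
    exact q1_sound h (nrm_sum hs hxyz) (nrm_le hs hyx) (nrm_le hs hzy) ix.1 ix.2 iy.1 iy.2 iz.1 iz.2
      iw.1 iw.2 cx cy cz

lemma q16_sound {x0 x1 y0 y1 z0 z1 w0 w1 tx ty tz : ℕ}
    (h : q16 T1 n x0 x1 y0 y1 z0 z1 w0 w1 tx ty tz = true) {x y z : Co} {u v s : ℝ}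
    (hs : 0 < s) (hxyz : x.l + y.l + z.l = s) (hxy : x.o = y.o) (hz : z.o = x.o)
    (side : Side x0 x1 y0 y1 z0 z1 w0 w1)
    (ix : In x.l s x0 x1) (iy : In y.l s y0 y1) (iz : In z.l s z0 z1)
    (iw : In (if x.o then u else v) s w0 w1) (cx : Cp tx x.t) (cy : Cp ty y.t) (cz : Cp tz z.t) :
    Good T0 T1 n x y z u v := by
  unfold q16 at h
  simp only [Bool.and_eq_true] at h
  obtain ⟨h1, h2, h3, h4, h5, h6⟩ := h
  obtain ⟨s1, s2, s3, s4, s5, s6, s7, s8⟩ := side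
  have iwy : In (if y.o then u else v) s w0 w1 := by rw [← hxy]; exact iw
  have iwz : In (if z.o then u else v) s w0 w1 := by rw [hz]; exact iw
  rcases le_total y.l x.l with a | a <;> rcases le_total z.l y.l with b | b <;>
    rcases le_total z.l x.l with c | c
  · exact Or.inl (can1 h1 hs hxyz hxy hz a b ⟨s1, s2, s3, s4, s5, s6, s7, s8⟩ ix iy iz iw cx cy cz)
  · exact Or.inl (can1 h1 hs hxyz hxy hz a b ⟨s1, s2, s3, s4, s5, s6, s7, s8⟩ ix iy iz iw cx cy cz)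
  · exact Or.inr (Or.inr (Or.inl (can1 h3 hs (by linarith) hz.symm hxy.symm c b
      ⟨s1, s2, s5, s6, s3, s4, s7, s8⟩ ix iz iy iw cx cz cy)))
  · exact Or.inr (Or.inr (Or.inr (Or.inr (Or.inl (can1 h5 hs (by linarith) hz (hxy.symm.trans hz.symm) c a
      ⟨s5, s6, s1, s2, s3, s4, s7, s8⟩ iz ix iy iwz cz cx cy)))))
  · exact Or.inr (Or.inl (can1 h2 hs (by linarith) hxy.symm (hz.trans hxy) a c
      ⟨s3, s4, s1, s2, s5, s6, s7, s8⟩ iy ix iz iwy cy cx cz))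
  · exact Or.inr (Or.inr (Or.inr (Or.inl (can1 h4 hs (by linarith) (hxy.symm.trans hz.symm) hxy b c
      ⟨s3, s4, s5, s6, s1, s2, s7, s8⟩ iy iz ix iwy cy cz cx))))
  · exact Or.inr (Or.inr (Or.inr (Or.inr (Or.inr (can1 h6 hs (by linarith) (hz.trans hxy) hz.symm b a
      ⟨s5, s6, s3, s4, s1, s2, s7, s8⟩ iz iy ix iwz cz cy cx)))))
  · exact Or.inr (Or.inr (Or.inr (Or.inr (Or.inr (can1 h6 hs (by linarith) (hz.trans hxy) hz.symm b a
      ⟨s5, s6, s3, s4, s1, s2, s7, s8⟩ iz iy ix iwz cz cy cx)))))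

lemma Good.rot {x y z : Co} {u v : ℝ} (h : Good T0 T1 n y z x u v) : Good T0 T1 n x y z u v := by
  unfold Good at *; tauto

lemma in_mirror {w w' s : ℝ} {w0 w1 : ℕ} (hs : 0 < s) (h : w + w' = s) (hi : In w s w0 w1)
    (h0 : w0 ≤ 65536) (h1 : w1 ≤ 65536) : In w' s (65536 - w1) (65536 - w0) := by
  have e : nrm w' s = 65536 - nrm w s := by
    unfold nrm
    have : w' = s - w := by linarith
    rw [this]
    field_simp
  constructor
  · rw [e, Nat.cast_sub h1]; push_cast; linarith [hi.2]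
  · rw [e, Nat.cast_sub h0]; push_cast; linarith [hi.1]

lemma chkGood_sound {e1 e2 e3 : Bool} {x0 x1 y0 y1 z0 z1 w0 w1 tx ty tz : ℕ}
    (h : chkGood T0 T1 n e1 e2 e3 x0 x1 y0 y1 z0 z1 w0 w1 tx ty tz = true)
    {x y z : Co} {u v s : ℝ} {o : Bool}
    (hs : 0 < s) (hxyz : x.l + y.l + z.l = s) (huv : u + v = s)
    (ox : x.o = if e1 then o else !o) (oy : y.o = if e2 then o else !o)
    (oz : z.o = if e3 then o else !o)
    (side : Side x0 x1 y0 y1 z0 z1 w0 w1)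
    (ix : In x.l s x0 x1) (iy : In y.l s y0 y1) (iz : In z.l s z0 z1)
    (iw : In (if o then u else v) s w0 w1) (cx : Cp tx x.t) (cy : Cp ty y.t) (cz : Cp tz z.t) :
    Good T0 T1 n x y z u v := by
  obtain ⟨s1, s2, s3, s4, s5, s6, s7, s8⟩ := side
  have side := (⟨s1, s2, s3, s4, s5, s6, s7, s8⟩ : Side x0 x1 y0 y1 z0 z1 w0 w1)
  have hw01 : w0 ≤ 59008 := by
    have : (w0 : ℝ) ≤ w1 := iw.1.trans iw.2
    have : w0 ≤ w1 := by exact_mod_cast this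
    omega
  have hw11 : 6528 ≤ w1 := by
    have : (w0 : ℝ) ≤ w1 := iw.1.trans iw.2
    have : w0 ≤ w1 := by exact_mod_cast this
    omega
  have iw' : In (if o then v else u) s (65536 - w1) (65536 - w0) := by
    refine in_mirror hs ?_ iw (by omega) (by omega)
    cases o <;> simp <;> linarith
  have side' : Side x0 x1 y0 y1 z0 z1 (65536 - w1) (65536 - w0) :=
    ⟨s1, s2, s3, s4, s5, s6, by omega, by omega⟩
  have perm : ∀ {a b c d e f g i : ℕ}, Side a b c d e f g i → Side a b e f c d g i :=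
    fun ⟨p1, p2, p3, p4, p5, p6, p7, p8⟩ => ⟨p1, p2, p5, p6, p3, p4, p7, p8⟩
  have perm' : ∀ {a b c d e f g i : ℕ}, Side a b c d e f g i → Side c d e f a b g i :=
    fun ⟨p1, p2, p3, p4, p5, p6, p7, p8⟩ => ⟨p3, p4, p5, p6, p1, p2, p7, p8⟩
  unfold chkGood at h
  simp only [frc_eq, Nat.sub_eq] at h
  cases e1 <;> cases e2 <;> cases e3 <;>
    simp only [cond_true, cond_false, if_true, if_false, Bool.false_eq_true] at h ox oy oz
  · -- fff
    refine q16_sound h hs hxyz (ox.trans oy.symm) (oz.trans ox.symm) side' ix iy iz ?_ cx cy cz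
    rw [ox]; cases o <;> simpa using iw'
  · -- fft
    refine q02_sound h hs hxyz (ox.trans oy.symm) (by rw [oz, ox]; cases o <;> simp) side' ix iy iz ?_ cx cy cz
    rw [ox]; cases o <;> simpa using iw'
  · -- ftf : e1=f, e2=t, e3=f : x,z majority
    refine Good.swap23 (q02_sound h hs (by linarith) (ox.trans oz.symm) (by rw [oy, ox]; cases o <;> simp)
      (perm side') ix iz iy ?_ cx cz cy)
    rw [ox]; cases o <;> simpa using iw'
  · -- ftt : y,z majority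
    refine Good.rot (q02_sound h hs (by linarith) (oy.trans oz.symm) (by rw [oy, ox]; cases o <;> simp)
      (perm' side) iy iz ix ?_ cy cz cx)
    rw [oy]; cases o <;> simpa using iw
  · -- tff : y,z majority mirrored
    refine Good.rot (q02_sound h hs (by linarith) (oy.trans oz.symm) (by rw [oy, ox]; cases o <;> simp)
      (perm' side') iy iz ix ?_ cy cz cx)
    rw [oy]; cases o <;> simpa using iw'
  · -- tft : x,z majority
    refine Good.swap23 (q02_sound h hs (by linarith) (ox.trans oz.symm) (by rw [oy, ox]; cases o <;> simp)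
      (perm side) ix iz iy ?_ cx cz cy)
    rw [ox]; cases o <;> simpa using iw
  · -- ttf
    refine q02_sound h hs hxyz (ox.trans oy.symm) (by rw [oz, ox]; cases o <;> simp) side ix iy iz ?_ cx cy cz
    rw [ox]; cases o <;> simpa using iw
  · -- ttt
    refine q16_sound h hs hxyz (ox.trans oy.symm) (oz.trans ox.symm) side ix iy iz ?_ cx cy cz
    rw [ox]; cases o <;> simpa using iw

end CF3
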