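import Pool.Agent.CF3.Abstract

/-!
# Reduction of `uncountable_of_closed` to a numeric closed region
-/

namespace CF3

open Set

/-- Numeric data of a word. -/
structure Co where
  /-- even length -/
  o : Bool
  /-- size -/
  l : ℝ
  /-- last digit is `1` -/
  t : Bool

/-- even length -/
def par (s : List ℕ) : Bool := s.length % 2 == 0

/-- The range of `rho` for the given last digit. -/
def InTy (t : Bool) (r : ℝ) : Prop :=
  if t = true then (209 / 362 ≤ r ∧ r ≤ 153 / 209) else (209 / 571 ≤ r ∧ r ≤ 153 / 362)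

/-- relative cut at the `mm` end -/
noncomputable def cm (r : ℝ) (s : List ℕ) : ℝ := FF r (lo s)

/-- relative cut at the `MM` end -/
noncomputable def cM (r : ℝ) (s : List ℕ) : ℝ := 1 - FF r (hi s)

/-- type of the last digit after appending -/
def newty (t : Bool) (s : List ℕ) : Bool :=
  match s.getLast? with
  | none => t
  | some d => d == 1

/-- append a word -/
noncomputable def Co.ap (x : Co) (r : ℝ) (s : List ℕ) : Co :=
  ⟨if par s then x.o else !x.o, x.l * (1 - cm r s - cM r s), newty x.t s⟩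

/-- decrease of `u` -/
noncomputable def du (x : Co) (r : ℝ) (s : List ℕ) : ℝ := x.l * (if x.o then cm r s else cM r s)

/-- decrease of `v` -/
noncomputable def dv (x : Co) (r : ℝ) (s : List ℕ) : ℝ := x.l * (if x.o then cM r s else cm r s)

/-- numeric data of a word -/
noncomputable def co (w : List ℕ) : Co := ⟨par w, size w, w.getLast? == some 1⟩

lemma cm_nil (r : ℝ) : cm r [] = 0 := by
  simp [cm, lo, app, FF]

lemma cM_nil {r : ℝ} (hr : 0 ≤ r) : cM r [] = 0 := by
  have h1 := one_sub_FF (r := r) (t := MM) hr mm_lt_MM.le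
  have h2 : hi [] = MM := by simp [hi, app]
  unfold cM
  rw [h2, h1]; simp

lemma par_iff (s : List ℕ) : par s = true ↔ Even s.length := by
  unfold par
  rw [beq_iff_eq, Nat.even_iff]

lemma InTy.bounds {t : Bool} {r : ℝ} (h : InTy t r) : mm ≤ r ∧ r ≤ MM := by
  unfold InTy at h
  unfold mm MM
  split_ifs at h with h1
  · constructor <;> linarith [h.1, h.2]
  · constructor <;> linarith [h.1, h.2]

lemma InTy.nonneg {t : Bool} {r : ℝ} (h : InTy t r) : 0 ≤ r :=
  le_trans mm_pos.le h.bounds.1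

lemma inTy_one {r : ℝ} (h1 : mm ≤ r) (h2 : r ≤ MM) : InTy true (1 / (1 + r)) := by
  unfold InTy
  rw [if_pos rfl]
  unfold mm at h1
  unfold MM at h2
  have h3 : (0:ℝ) < 1 + r := by linarith
  constructor
  · rw [le_div_iff₀ h3]; linarith
  · rw [div_le_iff₀ h3]; linarith

lemma inTy_two {r : ℝ} (h1 : mm ≤ r) (h2 : r ≤ MM) : InTy false (1 / (2 + r)) := by
  unfold InTy
  rw [if_neg (by simp)]
  unfold mm at h1
  unfold MM at h2
  have h3 : (0:ℝ) < 2 + r := by linarith
  constructor
  · rw [le_div_iff₀ h3]; linarith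
  · rw [div_le_iff₀ h3]; linarith

lemma newty_snoc (t : Bool) (s : List ℕ) (d : ℕ) : newty t (s ++ [d]) = (d == 1) := by
  unfold newty
  rw [List.getLast?_append]
  simp

lemma newty_getLast (w s : List ℕ) :
    ((w ++ s).getLast? == some 1) = newty (w.getLast? == some 1) s := by
  rcases List.eq_nil_or_concat s with rfl | ⟨s', d, rfl⟩
  · simp [newty]
  · rw [List.concat_eq_append, newty_snoc, ← List.append_assoc, List.getLast?_append]
    simp only [List.getLast?_singleton, Option.some_or]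
    rfl

lemma inTy_append {t : Bool} {w : List ℕ} (hw : Pos w) (h : InTy t (rho w)) (s : List ℕ)
    (hs : W12 s) : InTy (newty t s) (rho (w ++ s)) := by
  rcases List.eq_nil_or_concat s with rfl | ⟨s', d, rfl⟩
  · simpa [newty] using h
  · rw [List.concat_eq_append] at hs ⊢
    rw [newty_snoc, ← List.append_assoc]
    have hs' : W12 s' := fun k hk => hs k (by simp [hk])
    have hd : d = 1 ∨ d = 2 := hs d (by simp)
    obtain ⟨h1, h2⟩ := rho_hull hw h.bounds.1 h.bounds.2 s' hs'
    have hp : Pos (w ++ s') := hw.append hs'.pos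
    rcases hd with rfl | rfl
    · rw [rho_snoc hp 1 le_rfl]
      have := inTy_one h1 h2
      simpa using this
    · rw [rho_snoc hp 2 (by norm_num)]
      have := inTy_two h1 h2
      simpa using this

lemma co_append {w s : List ℕ} (hw : Pos w) (hs : W12 s) : co (w ++ s) = (co w).ap (rho w) s := by
  unfold co Co.ap
  simp only [Co.mk.injEq]
  refine ⟨?_, ?_, newty_getLast w s⟩
  · have h1 : (par (w ++ s) = true) ↔ (par s = true ↔ par w = true) := by
      rw [par_iff, par_iff, par_iff, List.length_append, Nat.even_add]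
      tauto
    cases h2 : par (w ++ s) <;> cases h3 : par s <;> cases h4 : par w <;> simp_all
  · rw [size_append hw hs]
    unfold cm cM
    ring

lemma du_co {w s : List ℕ} (hw : Pos w) (hs : W12 s) : lo (w ++ s) = lo w + du (co w) (rho w) s := by
  unfold du co
  simp only
  by_cases h : Even w.length
  · rw [if_pos ((par_iff w).2 h), lo_append_even hw h hs]
    unfold cm; ring
  · rw [if_neg (fun h' => h ((par_iff w).1 h')), lo_append_odd hw h hs]
    unfold cM; ring

lemma dv_co {w s : List ℕ} (hw : Pos w) (hs : W12 s) : hi (w ++ s) = hi w - dv (co w) (rho w) s := by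
  unfold dv co
  simp only
  by_cases h : Even w.length
  · rw [if_pos ((par_iff w).2 h), hi_append_even hw h hs]
    unfold cM; ring
  · rw [if_neg (fun h' => h ((par_iff w).1 h')), hi_append_odd hw h hs]
    unfold cm; ring

/-- **Numeric form of `uncountable_of_closed`.** -/
theorem uncountable_of_num (j : ℕ) (K : ℝ) (G : Co → Co → Co → ℝ → ℝ → Prop)
    (hpos : ∀ x y z u v, G x y z u v → 0 ≤ u ∧ 0 ≤ v ∧ x.l + y.l + z.l ≤ K * x.l ∧
      x.l + y.l + z.l ≤ K * y.l ∧ x.l + y.l + z.l ≤ K * z.l)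
    (hstep : ∀ x y z u v r1 r2 r3, InTy x.t r1 → InTy y.t r2 → InTy z.t r3 → 0 < x.l → 0 < y.l →
      0 < z.l → u + v = x.l + y.l + z.l → G x y z u v →
      ∃ s1 s2 s3 t1 t2 t3 : List ℕ, W12 s1 ∧ W12 s2 ∧ W12 s3 ∧ W12 t1 ∧ W12 t2 ∧ W12 t3 ∧
        (Inc s1 t1 ∨ Inc s2 t2 ∨ Inc s3 t3) ∧
        G (x.ap r1 s1) (y.ap r2 s2) (z.ap r3 s3) (u - du x r1 s1 - du y r2 s2 - du z r3 s3)
          (v - dv x r1 s1 - dv y r2 s2 - dv z r3 s3) ∧
        G (x.ap r1 t1) (y.ap r2 t2) (z.ap r3 t3) (u - du x r1 t1 - du y r2 t2 - du z r3 t3)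
          (v - dv x r1 t1 - dv y r2 t2 - dv z r3 t3))
    (h0 : ∃ a b c : List ℕ, Adm j a ∧ Adm j b ∧ Adm j c ∧ InTy (co a).t (rho a) ∧
      InTy (co b).t (rho b) ∧ InTy (co c).t (rho c) ∧
      G (co a) (co b) (co c) (1 - lo a - lo b - lo c) (hi a + hi b + hi c - 1)) :
    ¬ (S j).Countable := by
  refine uncountable_of_closed K j (fun a b c => Pos a ∧ Pos b ∧ Pos c ∧ InTy (co a).t (rho a) ∧
    InTy (co b).t (rho b) ∧ InTy (co c).t (rho c) ∧
    G (co a) (co b) (co c) (1 - lo a - lo b - lo c) (hi a + hi b + hi c - 1)) ?_ ?_ ?_ ?_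
  · rintro a b c ⟨-, -, -, -, -, -, hG⟩
    have h := hpos _ _ _ _ _ hG
    constructor <;> linarith [h.1, h.2.1]
  · rintro a b c ⟨-, -, -, -, -, -, hG⟩
    have h := hpos _ _ _ _ _ hG
    exact h.2.2
  · rintro a b c ⟨pa, pb, pc, ta, tb, tc, hG⟩
    have key : (1 - lo a - lo b - lo c) + (hi a + hi b + hi c - 1) =
        (co a).l + (co b).l + (co c).l := by
      unfold co size; simp only; ring
    obtain ⟨s1, s2, s3, t1, t2, t3, w1, w2, w3, w4, w5, w6, hinc, g1, g2⟩ :=
      hstep (co a) (co b) (co c) _ _ (rho a) (rho b) (rho c) ta tb tc (size_pos pa) (size_pos pb)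
        (size_pos pc) key hG
    have main : ∀ s1 s2 s3 : List ℕ, W12 s1 → W12 s2 → W12 s3 →
        G ((co a).ap (rho a) s1) ((co b).ap (rho b) s2) ((co c).ap (rho c) s3)
          (1 - lo a - lo b - lo c - du (co a) (rho a) s1 - du (co b) (rho b) s2
            - du (co c) (rho c) s3)
          (hi a + hi b + hi c - 1 - dv (co a) (rho a) s1 - dv (co b) (rho b) s2
            - dv (co c) (rho c) s3) →
        Pos (a ++ s1) ∧ Pos (b ++ s2) ∧ Pos (c ++ s3) ∧
          InTy (co (a ++ s1)).t (rho (a ++ s1)) ∧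
          InTy (co (b ++ s2)).t (rho (b ++ s2)) ∧ InTy (co (c ++ s3)).t (rho (c ++ s3)) ∧
          G (co (a ++ s1)) (co (b ++ s2)) (co (c ++ s3))
            (1 - lo (a ++ s1) - lo (b ++ s2) - lo (c ++ s3))
            (hi (a ++ s1) + hi (b ++ s2) + hi (c ++ s3) - 1) := by
      intro s1 s2 s3 w1 w2 w3 g
      refine ⟨pa.append w1.pos, pb.append w2.pos, pc.append w3.pos, ?_, ?_, ?_, ?_⟩
      · rw [co_append pa w1]; exact inTy_append pa ta s1 w1
      · rw [co_append pb w2]; exact inTy_append pb tb s2 w2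
      · rw [co_append pc w3]; exact inTy_append pc tc s3 w3
      · rw [co_append pa w1, co_append pb w2, co_append pc w3, du_co pa w1, du_co pb w2,
          du_co pc w3, dv_co pa w1, dv_co pb w2, dv_co pc w3]
        have e1 : 1 - (lo a + du (co a) (rho a) s1) - (lo b + du (co b) (rho b) s2) -
            (lo c + du (co c) (rho c) s3) = 1 - lo a - lo b - lo c - du (co a) (rho a) s1
            - du (co b) (rho b) s2 - du (co c) (rho c) s3 := by ring
        have e2 : hi a - dv (co a) (rho a) s1 + (hi b - dv (co b) (rho b) s2) +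
            (hi c - dv (co c) (rho c) s3) - 1 = hi a + hi b + hi c - 1 - dv (co a) (rho a) s1
            - dv (co b) (rho b) s2 - dv (co c) (rho c) s3 := by ring
        rw [e1, e2]
        exact g
    exact ⟨s1, s2, s3, t1, t2, t3, w1, w2, w3, w4, w5, w6, main s1 s2 s3 w1 w2 w3 g1,
      main t1 t2 t3 w4 w5 w6 g2, hinc⟩
  · obtain ⟨a, b, c, ha, hb, hc, ta, tb, tc, g⟩ := h0
    exact ⟨a, b, c, ⟨ha.pos, hb.pos, hc.pos, ta, tb, tc, g⟩, ha, hb, hc⟩

end CF3
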