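import Pool.Agent.CF3.Sound

namespace CF3

/-- The row `R` bounds the costs `m`, `M` and the relative size `1 - m - M`. -/
structure RowOK (R : Row) (m M : ℝ) : Prop where
  a : (R.a : ℝ) ≤ 65536 * m
  b : 65536 * m ≤ R.b
  c : (R.c : ℝ) ≤ 65536 * M
  d : 65536 * M ≤ R.d
  e : (R.e : ℝ) ≤ 65536 * (1 - m - M)
  f : 65536 * (1 - m - M) ≤ R.f

lemma lin3 (k0 k1 k2 k3 A0 A1 B0 B1 a b : ℝ) (ha0 : A0 ≤ a) (ha1 : a ≤ A1) (hb0 : B0 ≤ b)
    (hb1 : b ≤ B1)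
    (h00 : 0 ≤ k1 * A0 + k2 * B0 + k3 * (65536 - A0 - B0) + k0)
    (h10 : 0 ≤ k1 * A1 + k2 * B0 + k3 * (65536 - A1 - B0) + k0)
    (h01 : 0 ≤ k1 * A0 + k2 * B1 + k3 * (65536 - A0 - B1) + k0)
    (h11 : 0 ≤ k1 * A1 + k2 * B1 + k3 * (65536 - A1 - B1) + k0) :
    0 ≤ k1 * a + k2 * b + k3 * (65536 - a - b) + k0 := by
  rcases le_total 0 (k1 - k3) with h1 | h1 <;> rcases le_total 0 (k2 - k3) with h2 | h2
  · nlinarith [mul_le_mul_of_nonneg_left ha0 h1, mul_le_mul_of_nonneg_left hb0 h2]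
  · nlinarith [mul_le_mul_of_nonneg_left ha0 h1, mul_le_mul_of_nonpos_left hb1 h2]
  · nlinarith [mul_le_mul_of_nonpos_left ha1 h1, mul_le_mul_of_nonneg_left hb0 h2]
  · nlinarith [mul_le_mul_of_nonpos_left ha1 h1, mul_le_mul_of_nonpos_left hb1 h2]

/-- the eight inequalities at a corner -/
structure Cor (cls : Bool) (R1 R2 R3 : Row) (x0 x1 y0 y1 z0 z1 w0 w1 u0 u1 : ℕ) (a b : ℝ) :
    Prop where
  x0 : 0 ≤ ((65536 - x0) * R1.e) * a + (-(x0 * R2.f)) * b + (-(x0 * R3.f)) * (65536 - a - b) + (0:ℝ)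
  x1 : 0 ≤ (-((65536 - x1) * R1.f)) * a + (x1 * R2.e) * b + (x1 * R3.e) * (65536 - a - b) + (0:ℝ)
  y0 : 0 ≤ (-(y0 * R1.f)) * a + ((65536 - y0) * R2.e) * b + (-(y0 * R3.f)) * (65536 - a - b) + (0:ℝ)
  y1 : 0 ≤ (y1 * R1.e) * a + (-((65536 - y1) * R2.f)) * b + (y1 * R3.e) * (65536 - a - b) + (0:ℝ)
  z0 : 0 ≤ (-(z0 * R1.f)) * a + (-(z0 * R2.f)) * b + ((65536 - z0) * R3.e) * (65536 - a - b) + (0:ℝ)
  z1 : 0 ≤ (z1 * R1.e) * a + (z1 * R2.e) * b + (-((65536 - z1) * R3.f)) * (65536 - a - b) + (0:ℝ)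
  w0 : 0 ≤ (w0 * (R1.b + R1.c) - 65536 * R1.b) * a + (w0 * (R2.b + R2.c) - 65536 * R2.b) * b +
    (w0 * ((if cls then R3.b else R3.d : ℕ) + (if cls then R3.c else R3.a : ℕ)) -
      65536 * (if cls then R3.b else R3.d : ℕ)) * (65536 - a - b) +
      ((4294967296 * u0 - w0 * 4294967296 : ℝ))
  w1 : 0 ≤ (65536 * R1.a - w1 * (R1.a + R1.d)) * a + (65536 * R2.a - w1 * (R2.a + R2.d)) * b +
    (65536 * (if cls then R3.a else R3.c : ℕ) -
      w1 * ((if cls then R3.a else R3.c : ℕ) + (if cls then R3.d else R3.b : ℕ))) * (65536 - a - b) +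
      ((w1 * 4294967296 - 4294967296 * u1 : ℝ))

lemma vtx_sound (cls : Bool) (R1 R2 R3 : Row) (x0 x1 y0 y1 z0 z1 w0 w1 u0 u1 a b : ℕ)
    (hab : a + b ≤ 65536)
    (h : vtx cls R1 R2 R3 x0 x1 y0 y1 z0 z1 w0 w1 u0 u1 a b = true) :
    Cor cls R1 R2 R3 x0 x1 y0 y1 z0 z1 w0 w1 u0 u1 a b := by
  obtain ⟨c, hc⟩ : ∃ c : ℕ, a + b + c = 65536 := ⟨65536 - (a + b), by omega⟩
  have hsub : 65536 - (a + b) = c := by omega
  have hc' : (65536 : ℝ) - a - b = c := by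
    have : (a : ℝ) + b + c = 65536 := by exact_mod_cast hc
    linarith
  unfold vtx at h
  simp only [frc_eq, Nat.sub_eq, Nat.add_eq, Nat.mul_eq, Bool.and_eq_true, Nat.ble_eq, hsub] at h
  obtain ⟨h1, h2, h3, h4, h5, h6, h7, h8⟩ := h
  have g1 : (x0 : ℝ) * (R1.e * a + (R2.f * b + R3.f * c)) ≤ 65536 * (R1.e * a) := by exact_mod_cast h1
  have g2 : (65536 : ℝ) * (R1.f * a) ≤ x1 * (R1.f * a + (R2.e * b + R3.e * c)) := by exact_mod_cast h2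
  have g3 : (y0 : ℝ) * (R2.e * b + (R1.f * a + R3.f * c)) ≤ 65536 * (R2.e * b) := by exact_mod_cast h3
  have g4 : (65536 : ℝ) * (R2.f * b) ≤ y1 * (R2.f * b + (R1.e * a + R3.e * c)) := by exact_mod_cast h4
  have g5 : (z0 : ℝ) * (R3.e * c + (R1.f * a + R2.f * b)) ≤ 65536 * (R3.e * c) := by exact_mod_cast h5
  have g6 : (65536 : ℝ) * (R3.f * c) ≤ z1 * (R3.f * c + (R1.e * a + R2.e * b)) := by exact_mod_cast h6
  cases cls
  · simp only [cond_false] at h7 h8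
    have g7 : (w0 : ℝ) * 4294967296 + 65536 * (R1.b * a + (R2.b * b + R3.d * c)) ≤
        4294967296 * u0 + w0 * (R1.b * a + (R2.b * b + R3.d * c) +
          (R1.c * a + (R2.c * b + R3.a * c))) := by exact_mod_cast h7
    have g8 : (4294967296 : ℝ) * u1 + w1 * (R1.a * a + (R2.a * b + R3.c * c) +
          (R1.d * a + (R2.d * b + R3.b * c))) ≤
        w1 * 4294967296 + 65536 * (R1.a * a + (R2.a * b + R3.c * c)) := by exact_mod_cast h8
    constructor <;> rw [hc'] <;> (try simp only [Bool.false_eq_true, if_false]) <;> linarith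
  · simp only [cond_true] at h7 h8
    have g7 : (w0 : ℝ) * 4294967296 + 65536 * (R1.b * a + (R2.b * b + R3.b * c)) ≤
        4294967296 * u0 + w0 * (R1.b * a + (R2.b * b + R3.b * c) +
          (R1.c * a + (R2.c * b + R3.c * c))) := by exact_mod_cast h7
    have g8 : (4294967296 : ℝ) * u1 + w1 * (R1.a * a + (R2.a * b + R3.a * c) +
          (R1.d * a + (R2.d * b + R3.d * c))) ≤
        w1 * 4294967296 + 65536 * (R1.a * a + (R2.a * b + R3.a * c)) := by exact_mod_cast h8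
    constructor <;> rw [hc'] <;> (try simp only [if_true]) <;> linarith

lemma Cor.box {cls : Bool} {R1 R2 R3 : Row} {x0 x1 y0 y1 z0 z1 w0 w1 u0 u1 : ℕ}
    {A0 A1 B0 B1 a b : ℝ} (ha0 : A0 ≤ a) (ha1 : a ≤ A1) (hb0 : B0 ≤ b) (hb1 : b ≤ B1)
    (h00 : Cor cls R1 R2 R3 x0 x1 y0 y1 z0 z1 w0 w1 u0 u1 A0 B0)
    (h10 : Cor cls R1 R2 R3 x0 x1 y0 y1 z0 z1 w0 w1 u0 u1 A1 B0)
    (h01 : Cor cls R1 R2 R3 x0 x1 y0 y1 z0 z1 w0 w1 u0 u1 A0 B1)
    (h11 : Cor cls R1 R2 R3 x0 x1 y0 y1 z0 z1 w0 w1 u0 u1 A1 B1) :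
    Cor cls R1 R2 R3 x0 x1 y0 y1 z0 z1 w0 w1 u0 u1 a b :=
  ⟨lin3 _ _ _ _ _ _ _ _ _ _ ha0 ha1 hb0 hb1 h00.x0 h10.x0 h01.x0 h11.x0,
   lin3 _ _ _ _ _ _ _ _ _ _ ha0 ha1 hb0 hb1 h00.x1 h10.x1 h01.x1 h11.x1,
   lin3 _ _ _ _ _ _ _ _ _ _ ha0 ha1 hb0 hb1 h00.y0 h10.y0 h01.y0 h11.y0,
   lin3 _ _ _ _ _ _ _ _ _ _ ha0 ha1 hb0 hb1 h00.y1 h10.y1 h01.y1 h11.y1,
   lin3 _ _ _ _ _ _ _ _ _ _ ha0 ha1 hb0 hb1 h00.z0 h10.z0 h01.z0 h11.z0,
   lin3 _ _ _ _ _ _ _ _ _ _ ha0 ha1 hb0 hb1 h00.z1 h10.z1 h01.z1 h11.z1,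
   lin3 _ _ _ _ _ _ _ _ _ _ ha0 ha1 hb0 hb1 h00.w0 h10.w0 h01.w0 h11.w0,
   lin3 _ _ _ _ _ _ _ _ _ _ ha0 ha1 hb0 hb1 h00.w1 h10.w1 h01.w1 h11.w1⟩

/-- lower bound of a share -/
lemma ratio_lo {X P p Q q : ℝ} (hX0 : 0 ≤ X) (hX : X ≤ 65536) (h1 : p ≤ P) (h2 : Q ≤ q)
    (h : X * (p + q) ≤ 65536 * p) : X * (P + Q) ≤ 65536 * P := by
  nlinarith [mul_nonneg (sub_nonneg.2 hX) (sub_nonneg.2 h1), mul_nonneg hX0 (sub_nonneg.2 h2)]

/-- upper bound of a share -/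
lemma ratio_hi {X P p Q q : ℝ} (hX0 : 0 ≤ X) (hX : X ≤ 65536) (h1 : P ≤ p) (h2 : q ≤ Q)
    (h : 65536 * p ≤ X * (p + q)) : 65536 * P ≤ X * (P + Q) := by
  nlinarith [mul_nonneg (sub_nonneg.2 hX) (sub_nonneg.2 h1), mul_nonneg hX0 (sub_nonneg.2 h2)]

/-- The image of a state under a refinement. -/
lemma opt_bounds {cls : Bool} {R1 R2 R3 : Row} {x0 x1 y0 y1 z0 z1 w0 w1 u0 u1 : ℕ}
    {a b c u m1 M1 m2 M2 m3 M3 : ℝ}
    (h : Cor cls R1 R2 R3 x0 x1 y0 y1 z0 z1 w0 w1 u0 u1 a b)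
    (hx0 : x0 ≤ 65536) (hx1 : x1 ≤ 65536) (hy0 : y0 ≤ 65536) (hy1 : y1 ≤ 65536)
    (hz0 : z0 ≤ 65536) (hz1 : z1 ≤ 65536) (hw0 : w0 ≤ 65536) (hw1 : w1 ≤ 65536)
    (hs : a + b + c = 65536) (ha : 0 ≤ a) (hb : 0 ≤ b) (hc : 0 ≤ c) (hu0 : u0 ≤ u) (hu1 : u ≤ u1)
    (h1 : RowOK R1 m1 M1) (h2 : RowOK R2 m2 M2) (h3 : RowOK R3 m3 M3) (P1 P2 P3 U V : ℝ)
    (hP1 : P1 = 65536 * (1 - m1 - M1) * a) (hP2 : P2 = 65536 * (1 - m2 - M2) * b)
    (hP3 : P3 = 65536 * (1 - m3 - M3) * c)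
    (hU : U = 65536 * u - 65536 * (m1 * a + m2 * b + (if cls then m3 else M3) * c))
    (hV : V = 65536 * (65536 - u) - 65536 * (M1 * a + M2 * b + (if cls then M3 else m3) * c)) :
    (x0 * (P1 + P2 + P3) ≤ 65536 * P1 ∧ 65536 * P1 ≤ x1 * (P1 + P2 + P3)) ∧
    (y0 * (P1 + P2 + P3) ≤ 65536 * P2 ∧ 65536 * P2 ≤ y1 * (P1 + P2 + P3)) ∧
    (z0 * (P1 + P2 + P3) ≤ 65536 * P3 ∧ 65536 * P3 ≤ z1 * (P1 + P2 + P3)) ∧
    (w0 * (P1 + P2 + P3) ≤ 65536 * U ∧ 65536 * U ≤ w1 * (P1 + P2 + P3)) ∧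
    P1 + P2 + P3 = U + V := by
  have hc' : (65536 : ℝ) - a - b = c := by linarith
  obtain ⟨c1, c2, c3, c4, c5, c6, c7, c8⟩ := h
  rw [hc'] at c1 c2 c3 c4 c5 c6 c7 c8
  have bx0 : (x0 : ℝ) ≤ 65536 := by exact_mod_cast hx0
  have bx1 : (x1 : ℝ) ≤ 65536 := by exact_mod_cast hx1
  have by0 : (y0 : ℝ) ≤ 65536 := by exact_mod_cast hy0
  have by1 : (y1 : ℝ) ≤ 65536 := by exact_mod_cast hy1
  have bz0 : (z0 : ℝ) ≤ 65536 := by exact_mod_cast hz0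
  have bz1 : (z1 : ℝ) ≤ 65536 := by exact_mod_cast hz1
  have bw0 : (w0 : ℝ) ≤ 65536 := by exact_mod_cast hw0
  have bw1 : (w1 : ℝ) ≤ 65536 := by exact_mod_cast hw1
  have l1 : (R1.e : ℝ) * a ≤ P1 := by rw [hP1]; exact mul_le_mul_of_nonneg_right h1.e ha
  have l2 : (R2.e : ℝ) * b ≤ P2 := by rw [hP2]; exact mul_le_mul_of_nonneg_right h2.e hb
  have l3 : (R3.e : ℝ) * c ≤ P3 := by rw [hP3]; exact mul_le_mul_of_nonneg_right h3.e hc
  have r1 : P1 ≤ (R1.f : ℝ) * a := by rw [hP1]; exact mul_le_mul_of_nonneg_right h1.f ha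
  have r2 : P2 ≤ (R2.f : ℝ) * b := by rw [hP2]; exact mul_le_mul_of_nonneg_right h2.f hb
  have r3 : P3 ≤ (R3.f : ℝ) * c := by rw [hP3]; exact mul_le_mul_of_nonneg_right h3.f hc
  have m1a := mul_le_mul_of_nonneg_right h1.a ha
  have m1b := mul_le_mul_of_nonneg_right h1.b ha
  have m1c := mul_le_mul_of_nonneg_right h1.c ha
  have m1d := mul_le_mul_of_nonneg_right h1.d ha
  have m2a := mul_le_mul_of_nonneg_right h2.a hb
  have m2b := mul_le_mul_of_nonneg_right h2.b hb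
  have m2c := mul_le_mul_of_nonneg_right h2.c hb
  have m2d := mul_le_mul_of_nonneg_right h2.d hb
  have m3a := mul_le_mul_of_nonneg_right h3.a hc
  have m3b := mul_le_mul_of_nonneg_right h3.b hc
  have m3c := mul_le_mul_of_nonneg_right h3.c hc
  have m3d := mul_le_mul_of_nonneg_right h3.d hc
  have hUV : P1 + P2 + P3 = U + V := by
    rw [hP1, hP2, hP3, hU, hV]
    cases cls
    · simp only [Bool.false_eq_true, if_false]
      have : (65536 : ℝ) * 65536 = 65536 * (a + b + c) := by rw [hs]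
      linarith
    · simp only [if_true]
      have : (65536 : ℝ) * 65536 = 65536 * (a + b + c) := by rw [hs]
      linarith
  refine ⟨⟨?_, ?_⟩, ⟨?_, ?_⟩, ⟨?_, ?_⟩, ⟨?_, ?_⟩, hUV⟩
  · have := ratio_lo (X := x0) (P := P1) (p := R1.e * a) (Q := P2 + P3) (q := R2.f * b + R3.f * c)
      (by positivity) bx0 l1 (by linarith) (by linarith)
    linarith
  · have := ratio_hi (X := x1) (P := P1) (p := R1.f * a) (Q := P2 + P3) (q := R2.e * b + R3.e * c)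
      (by positivity) bx1 r1 (by linarith) (by linarith)
    linarith
  · have := ratio_lo (X := y0) (P := P2) (p := R2.e * b) (Q := P1 + P3) (q := R1.f * a + R3.f * c)
      (by positivity) by0 l2 (by linarith) (by linarith)
    linarith
  · have := ratio_hi (X := y1) (P := P2) (p := R2.f * b) (Q := P1 + P3) (q := R1.e * a + R3.e * c)
      (by positivity) by1 r2 (by linarith) (by linarith)
    linarith
  · have := ratio_lo (X := z0) (P := P3) (p := R3.e * c) (Q := P1 + P2) (q := R1.f * a + R2.f * b)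
      (by positivity) bz0 l3 (by linarith) (by linarith)
    linarith
  · have := ratio_hi (X := z1) (P := P3) (p := R3.f * c) (Q := P1 + P2) (q := R1.e * a + R2.e * b)
      (by positivity) bz1 r3 (by linarith) (by linarith)
    linarith
  · rw [hUV]
    cases cls
    · simp only [Bool.false_eq_true, if_false] at hU hV c7
      refine ratio_lo (p := 65536 * u0 - (R1.b * a + R2.b * b + R3.d * c))
        (q := 65536 * (65536 - u0) - (R1.c * a + R2.c * b + R3.a * c)) (by positivity) bw0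
        ?_ ?_ ?_
      · rw [hU]; linarith
      · rw [hV]; linarith
      · linarith
    · simp only [if_true] at hU hV c7
      refine ratio_lo (p := 65536 * u0 - (R1.b * a + R2.b * b + R3.b * c))
        (q := 65536 * (65536 - u0) - (R1.c * a + R2.c * b + R3.c * c)) (by positivity) bw0
        ?_ ?_ ?_
      · rw [hU]; linarith
      · rw [hV]; linarith
      · linarith
  · rw [hUV]
    cases cls
    · simp only [Bool.false_eq_true, if_false] at hU hV c8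
      refine ratio_hi (p := 65536 * u1 - (R1.a * a + R2.a * b + R3.c * c))
        (q := 65536 * (65536 - u1) - (R1.d * a + R2.d * b + R3.b * c)) (by positivity) bw1
        ?_ ?_ ?_
      · rw [hU]; linarith
      · rw [hV]; linarith
      · linarith
    · simp only [if_true] at hU hV c8
      refine ratio_hi (p := 65536 * u1 - (R1.a * a + R2.a * b + R3.a * c))
        (q := 65536 * (65536 - u1) - (R1.d * a + R2.d * b + R3.d * c)) (by positivity) bw1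
        ?_ ?_ ?_
      · rw [hU]; linarith
      · rw [hV]; linarith
      · linarith

end CF3
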