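import Pool.Agent.CF3.Cert

namespace CF3

lemma ble_t {a b : ℕ} (h : a ≤ b) : Nat.ble a b = true := by rw [Nat.ble_eq]; exact h
lemma ble_f {a b : ℕ} (h : ¬ a ≤ b) : Nat.ble a b = false := by
  rw [← Bool.not_eq_true, Nat.ble_eq]; exact h
lemma blt_t {a b : ℕ} (h : a < b) : Nat.blt a b = true := by rw [Nat.blt_eq]; exact h
lemma blt_f {a b : ℕ} (h : ¬ a < b) : Nat.blt a b = false := by
  rw [← Bool.not_eq_true, Nat.blt_eq]; exact h
lemma beq_t (a : ℕ) : Nat.beq a a = true := by rw [Nat.beq_eq]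
lemma beq_f {a b : ℕ} (h : a ≠ b) : Nat.beq a b = false := by
  rw [← Bool.not_eq_true, Nat.beq_eq]; exact h

lemma mn_le_iff (a b : ℕ) : (mn a b : ℝ) = min (a : ℝ) b := by
  unfold mn
  by_cases h : a ≤ b
  · rw [ble_t h, cond_true]
    exact (min_eq_left (by exact_mod_cast h)).symm
  · rw [ble_f h, cond_false]
    exact (min_eq_right (by exact_mod_cast (not_le.1 h).le)).symm

lemma mx_eq (a b : ℕ) : (mx a b : ℝ) = max (a : ℝ) b := by
  unfold mx
  by_cases h : a ≤ b
  · rw [ble_t h, cond_true]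
    exact (max_eq_right (by exact_mod_cast h)).symm
  · rw [ble_f h, cond_false]
    exact (max_eq_left (by exact_mod_cast (not_le.1 h).le)).symm

/-- The region of a tree. Types: `true` = last digit `1`. -/
def Mem : Tree → ℝ → ℝ → ℝ → Bool → Bool → Bool → ℕ → Prop
  | .B, _, _, _, _, _, _, _ => False
  | .L k _ _, _, _, _, _, _, _, n => k ≤ n
  | .Y i l r, a, b, u, x, y, z, n =>
      if i = 0 then (if x = true then Mem l a b u x y z n else Mem r a b u x y z n)
      else if i = 1 then (if y = true then Mem l a b u x y z n else Mem r a b u x y z n)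
      else (if z = true then Mem l a b u x y z n else Mem r a b u x y z n)
  | .S i m l r, a, b, u, x, y, z, n =>
      if i = 0 then (if a ≤ m then Mem l a b u x y z n else Mem r a b u x y z n)
      else if i = 1 then (if b ≤ m then Mem l a b u x y z n else Mem r a b u x y z n)
      else (if u ≤ m then Mem l a b u x y z n else Mem r a b u x y z n)

/-- compatibility of a type with the type code of a box (`0`: any, `1`, `2`) -/
def Cp (c : ℕ) (t : Bool) : Prop := (c = 1 → t = true) ∧ (c = 2 → t = false)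

lemma query_sound (t : Tree) : ∀ (n : ℕ) (cls : Bool) (a0 a1 b0 b1 c0 c1 u0 u1 tx ty tz : ℕ)
    (_ : query t n cls a0 a1 b0 b1 c0 c1 u0 u1 tx ty tz = true)
    (a b c u : ℝ) (x y z : Bool), a + b + c = 65536 → b ≤ a → (cls = true → c ≤ b) →
    a0 ≤ a → a ≤ a1 → b0 ≤ b → b ≤ b1 → c0 ≤ c → c ≤ c1 → u0 ≤ u → u ≤ u1 →
    Cp tx x → Cp ty y → Cp tz z → Mem t a b u x y z n := by
  induction t with
  | B =>
    intro n cls a0 a1 b0 b1 c0 c1 u0 u1 tx ty tz h a b c u x y z hs hba hcb ha0 ha1 hb0 hb1 hc0 hc1 _ _ _ _ _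
    exfalso
    have h' : (Nat.blt a1 b0 || (Nat.blt (Nat.add c1 (Nat.add a1 (mn b1 a1))) 65536 ||
        (Nat.blt 65536 (Nat.add c0 (Nat.add (mx a0 b0) b0)) ||
          (cls && Nat.blt (Nat.add a1 (Nat.mul 2 b1)) 65536)))) = true := h
    simp only [Bool.or_eq_true, Bool.and_eq_true, Nat.blt_eq, Nat.add_eq, Nat.mul_eq] at h'
    rcases h' with h1 | h1 | h1 | ⟨h2, h1⟩
    · have : (a1 : ℝ) < b0 := by exact_mod_cast h1
      linarith
    · have : (c1 : ℝ) + (a1 + (mn b1 a1 : ℕ)) < 65536 := by exact_mod_cast h1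
      have e : b ≤ ((mn b1 a1 : ℕ) : ℝ) := by rw [mn_le_iff]; exact le_min hb1 (by linarith)
      linarith
    · have : (65536 : ℝ) < c0 + ((mx a0 b0 : ℕ) + b0) := by exact_mod_cast h1
      have e : ((mx a0 b0 : ℕ) : ℝ) ≤ a := by rw [mx_eq]; exact max_le ha0 (by linarith)
      linarith
    · have : (a1 : ℝ) + 2 * b1 < 65536 := by exact_mod_cast h1
      have := hcb h2
      linarith
  | L k c1' c2' =>
    intro n cls a0 a1 b0 b1 c0 c1 u0 u1 tx ty tz h a b c u x y z _ _ _ _ _ _ _ _ _ _ _ _ _ _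
    have h' : Nat.ble k n = true := h
    simpa [Mem] using h'
  | Y i l r ihl ihr =>
    intro n cls a0 a1 b0 b1 c0 c1 u0 u1 tx ty tz h a b c u x y z hs hba hcb ha0 ha1 hb0 hb1 hc0 hc1 hu0 hu1 hx hy hz
    have h' : (bif Nat.beq i 0 then
        (Nat.beq tx 2 || query l n cls a0 a1 b0 b1 c0 c1 u0 u1 tx ty tz) &&
        (Nat.beq tx 1 || query r n cls a0 a1 b0 b1 c0 c1 u0 u1 tx ty tz)
      else bif Nat.beq i 1 then
        (Nat.beq ty 2 || query l n cls a0 a1 b0 b1 c0 c1 u0 u1 tx ty tz) &&
        (Nat.beq ty 1 || query r n cls a0 a1 b0 b1 c0 c1 u0 u1 tx ty tz)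
      else
        (Nat.beq tz 2 || query l n cls a0 a1 b0 b1 c0 c1 u0 u1 tx ty tz) &&
        (Nat.beq tz 1 || query r n cls a0 a1 b0 b1 c0 c1 u0 u1 tx ty tz)) = true := h
    have key : ∀ (c' : ℕ) (t' : Bool), Cp c' t' →
        ((Nat.beq c' 2 || query l n cls a0 a1 b0 b1 c0 c1 u0 u1 tx ty tz) &&
        (Nat.beq c' 1 || query r n cls a0 a1 b0 b1 c0 c1 u0 u1 tx ty tz)) = true →
        (if t' = true then Mem l a b u x y z n else Mem r a b u x y z n) := by
      intro c' t' hc' hq
      simp only [Bool.and_eq_true, Bool.or_eq_true, Nat.beq_eq] at hq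
      obtain ⟨h1, h2⟩ := hq
      cases ht : t'
      · simp only [Bool.false_eq_true, if_false]
        rcases h2 with h2 | h2
        · have := hc'.1 h2
          rw [ht] at this
          exact absurd this (by simp)
        · exact ihr n cls _ _ _ _ _ _ _ _ _ _ _ h2 a b c u x y z hs hba hcb ha0 ha1 hb0 hb1 hc0 hc1 hu0 hu1 hx hy hz
      · simp only [if_true]
        rcases h1 with h1 | h1
        · have := hc'.2 h1
          rw [ht] at this
          exact absurd this (by simp)
        · exact ihl n cls _ _ _ _ _ _ _ _ _ _ _ h1 a b c u x y z hs hba hcb ha0 ha1 hb0 hb1 hc0 hc1 hu0 hu1 hx hy hz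
    unfold Mem
    by_cases hi0 : i = 0
    · subst hi0
      rw [beq_t, cond_true] at h'
      simpa using key tx x hx h'
    · rw [if_neg hi0]
      have e0 : Nat.beq i 0 = false := beq_f hi0
      rw [e0, cond_false] at h'
      by_cases hi1 : i = 1
      · subst hi1
        rw [beq_t, cond_true] at h'
        simpa using key ty y hy h'
      · rw [if_neg hi1]
        have e1 : Nat.beq i 1 = false := beq_f hi1
        rw [e1, cond_false] at h'
        exact key tz z hz h'
  | S i m l r ihl ihr =>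
    intro n cls a0 a1 b0 b1 c0 c1 u0 u1 tx ty tz h a b c u x y z hs hba hcb ha0 ha1 hb0 hb1 hc0 hc1 hu0 hu1 hx hy hz
    have h' : (bif Nat.beq i 0 then
        bif Nat.ble a1 m then query l n cls a0 a1 b0 b1 c0 c1 u0 u1 tx ty tz
        else bif Nat.blt m a0 then query r n cls a0 a1 b0 b1 c0 c1 u0 u1 tx ty tz
        else query l n cls a0 m b0 b1 c0 c1 u0 u1 tx ty tz && query r n cls m a1 b0 b1 c0 c1 u0 u1 tx ty tz
      else bif Nat.beq i 1 then
        bif Nat.ble b1 m then query l n cls a0 a1 b0 b1 c0 c1 u0 u1 tx ty tz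
        else bif Nat.blt m b0 then query r n cls a0 a1 b0 b1 c0 c1 u0 u1 tx ty tz
        else query l n cls a0 a1 b0 m c0 c1 u0 u1 tx ty tz && query r n cls a0 a1 m b1 c0 c1 u0 u1 tx ty tz
      else
        bif Nat.ble u1 m then query l n cls a0 a1 b0 b1 c0 c1 u0 u1 tx ty tz
        else bif Nat.blt m u0 then query r n cls a0 a1 b0 b1 c0 c1 u0 u1 tx ty tz
        else query l n cls a0 a1 b0 b1 c0 c1 u0 m tx ty tz && query r n cls a0 a1 b0 b1 c0 c1 m u1 tx ty tz) = true := h
    unfold Mem
    by_cases hi0 : i = 0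
    · subst hi0
      rw [beq_t, cond_true] at h'
      rw [if_pos rfl]
      by_cases e1 : a1 ≤ m
      · rw [ble_t e1, cond_true] at h'
        have : a ≤ m := ha1.trans (by exact_mod_cast e1)
        rw [if_pos this]
        exact ihl n cls _ _ _ _ _ _ _ _ _ _ _ h' a b c u x y z hs hba hcb ha0 ha1 hb0 hb1 hc0 hc1 hu0 hu1 hx hy hz
      · have e1' : Nat.ble a1 m = false := ble_f e1
        rw [e1', cond_false] at h'
        by_cases e2 : m < a0
        · rw [blt_t e2, cond_true] at h'
          have : ¬ a ≤ m := by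
            have : (m : ℝ) < a0 := by exact_mod_cast e2
            linarith
          rw [if_neg this]
          exact ihr n cls _ _ _ _ _ _ _ _ _ _ _ h' a b c u x y z hs hba hcb ha0 ha1 hb0 hb1 hc0 hc1 hu0 hu1 hx hy hz
        · have e2' : Nat.blt m a0 = false := blt_f e2
          rw [e2', cond_false, Bool.and_eq_true] at h'
          split_ifs with h3
          · exact ihl n cls _ _ _ _ _ _ _ _ _ _ _ h'.1 a b c u x y z hs hba hcb ha0 h3 hb0 hb1 hc0 hc1 hu0 hu1 hx hy hz
          · exact ihr n cls _ _ _ _ _ _ _ _ _ _ _ h'.2 a b c u x y z hs hba hcb (not_le.1 h3).le ha1 hb0 hb1 hc0 hc1 hu0 hu1 hx hy hz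
    · rw [if_neg hi0]
      have e0 : Nat.beq i 0 = false := beq_f hi0
      rw [e0, cond_false] at h'
      by_cases hi1 : i = 1
      · subst hi1
        rw [beq_t, cond_true] at h'
        rw [if_pos rfl]
        by_cases e1 : b1 ≤ m
        · rw [ble_t e1, cond_true] at h'
          have : b ≤ m := hb1.trans (by exact_mod_cast e1)
          rw [if_pos this]
          exact ihl n cls _ _ _ _ _ _ _ _ _ _ _ h' a b c u x y z hs hba hcb ha0 ha1 hb0 hb1 hc0 hc1 hu0 hu1 hx hy hz
        · have e1' : Nat.ble b1 m = false := ble_f e1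
          rw [e1', cond_false] at h'
          by_cases e2 : m < b0
          · rw [blt_t e2, cond_true] at h'
            have : ¬ b ≤ m := by
              have : (m : ℝ) < b0 := by exact_mod_cast e2
              linarith
            rw [if_neg this]
            exact ihr n cls _ _ _ _ _ _ _ _ _ _ _ h' a b c u x y z hs hba hcb ha0 ha1 hb0 hb1 hc0 hc1 hu0 hu1 hx hy hz
          · have e2' : Nat.blt m b0 = false := blt_f e2
            rw [e2', cond_false, Bool.and_eq_true] at h'
            split_ifs with h3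
            · exact ihl n cls _ _ _ _ _ _ _ _ _ _ _ h'.1 a b c u x y z hs hba hcb ha0 ha1 hb0 h3 hc0 hc1 hu0 hu1 hx hy hz
            · exact ihr n cls _ _ _ _ _ _ _ _ _ _ _ h'.2 a b c u x y z hs hba hcb ha0 ha1 (not_le.1 h3).le hb1 hc0 hc1 hu0 hu1 hx hy hz
      · rw [if_neg hi1]
        have e1 : Nat.beq i 1 = false := beq_f hi1
        rw [e1, cond_false] at h'
        by_cases e1 : u1 ≤ m
        · rw [ble_t e1, cond_true] at h'
          have : u ≤ m := hu1.trans (by exact_mod_cast e1)
          rw [if_pos this]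
          exact ihl n cls _ _ _ _ _ _ _ _ _ _ _ h' a b c u x y z hs hba hcb ha0 ha1 hb0 hb1 hc0 hc1 hu0 hu1 hx hy hz
        · have e1' : Nat.ble u1 m = false := ble_f e1
          rw [e1', cond_false] at h'
          by_cases e2 : m < u0
          · rw [blt_t e2, cond_true] at h'
            have : ¬ u ≤ m := by
              have : (m : ℝ) < u0 := by exact_mod_cast e2
              linarith
            rw [if_neg this]
            exact ihr n cls _ _ _ _ _ _ _ _ _ _ _ h' a b c u x y z hs hba hcb ha0 ha1 hb0 hb1 hc0 hc1 hu0 hu1 hx hy hz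
          · have e2' : Nat.blt m u0 = false := blt_f e2
            rw [e2', cond_false, Bool.and_eq_true] at h'
            split_ifs with h3
            · exact ihl n cls _ _ _ _ _ _ _ _ _ _ _ h'.1 a b c u x y z hs hba hcb ha0 ha1 hb0 hb1 hc0 hc1 hu0 h3 hx hy hz
            · exact ihr n cls _ _ _ _ _ _ _ _ _ _ _ h'.2 a b c u x y z hs hba hcb ha0 ha1 hb0 hb1 hc0 hc1 (not_le.1 h3).le hu1 hx hy hz

end CF3
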