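import Pool.Agent.CF3.TabB

namespace CF3

/-- The lower bounds in the code are at most `65536`. -/
def chkW (code : ℕ) : Bool :=
  frc (Nat.div code 32768) fun m1 => frc (Nat.div m1 131072) fun m2 =>
  frc (Nat.div m2 131072) fun m3 => frc (Nat.div m3 131072) fun m4 =>
  frc (Nat.div m4 131072) fun m5 => frc (Nat.div m5 131072) fun m6 =>
  frc (Nat.div m6 131072) fun m7 =>
  Nat.ble (Nat.mod m1 131072) 65536 && (Nat.ble (Nat.mod m3 131072) 65536 &&
  (Nat.ble (Nat.mod m5 131072) 65536 && Nat.ble (Nat.mod m7 131072) 65536))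

/-- The check of all leaves of the tree `t` (a part of `T0` if `cls` is false, of `T1` if `cls` is
true). Arguments: the box and the type codes. -/
noncomputable def chkT (T0 T1 : Tree) (cls : Bool) (t : Tree) :
    ℕ → ℕ → ℕ → ℕ → ℕ → ℕ → ℕ → ℕ → ℕ → Bool :=
  Tree.rec (motive := fun _ => ℕ → ℕ → ℕ → ℕ → ℕ → ℕ → ℕ → ℕ → ℕ → Bool)
    (fun _ _ _ _ _ _ _ _ _ => true)
    (fun _ c1 _ A0 A1 B0 B1 U0 U1 x y z =>
      Nat.blt 0 (Nat.mod c1 32768) && (chkW c1 && chkOpt T0 T1 cls A0 A1 B0 B1 U0 U1 x y z 0 c1))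
    (fun i _ _ hl hr A0 A1 B0 B1 U0 U1 x y z =>
      bif Nat.beq i 0 then hl A0 A1 B0 B1 U0 U1 1 y z && hr A0 A1 B0 B1 U0 U1 2 y z
      else bif Nat.beq i 1 then hl A0 A1 B0 B1 U0 U1 x 1 z && hr A0 A1 B0 B1 U0 U1 x 2 z
      else hl A0 A1 B0 B1 U0 U1 x y 1 && hr A0 A1 B0 B1 U0 U1 x y 2)
    (fun i m _ _ hl hr A0 A1 B0 B1 U0 U1 x y z =>
      bif Nat.beq i 0 then hl A0 m B0 B1 U0 U1 x y z && hr m A1 B0 B1 U0 U1 x y z
      else bif Nat.beq i 1 then hl A0 A1 B0 m U0 U1 x y z && hr A0 A1 m B1 U0 U1 x y z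
      else hl A0 A1 B0 B1 U0 m x y z && hr A0 A1 B0 B1 m U1 x y z)
    t

/-- Refinement of a cylinder. -/
noncomputable def Co.ap (x : Co) (r : ℝ) (s : List ℕ) : Co :=
  ⟨if par s then x.o else !x.o, x.l * (1 - cm r s - cM r s), newty x.t s⟩

/-- Cost at the lower end of the sum. -/
noncomputable def du (x : Co) (r : ℝ) (s : List ℕ) : ℝ := x.l * (if x.o then cm r s else cM r s)
/-- Cost at the upper end of the sum. -/
noncomputable def dv (x : Co) (r : ℝ) (s : List ℕ) : ℝ := x.l * (if x.o then cM r s else cm r s)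

lemma kap_pos {r : ℝ} (hr : 0 ≤ r) {s : List ℕ} (hs : W12 s) : 0 < 1 - cm r s - cM r s := by
  have h1 := (lo_hull hs).1
  have h2 := lo_lt_hi hs.pos
  have hm := mm_pos
  have e : 1 - cm r s - cM r s = FF r (hi s) - FF r (lo s) := by unfold cm cM; ring
  rw [e, FF_sub hr (by linarith) (by linarith)]
  have h3 := sub_pos.2 mm_lt_MM
  have h4 := gq_pos (s := mm) (t := lo s) hr hm.le (by linarith)
  have h5 := gq_pos (s := MM) (t := hi s) hr MM_pos.le (by linarith)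
  have h6 := sub_pos.2 h2
  positivity

/-- What a refinement step gives. -/
def StepP (T0 T1 : Tree) (x y z : Co) (u v r1 r2 r3 : ℝ) : Prop :=
  ∃ s1 s2 s3 : List ℕ, W12 s1 ∧ W12 s2 ∧ W12 s3 ∧ 0 < s1.length + s2.length + s3.length ∧
    Good T0 T1 0 (x.ap r1 s1) (y.ap r2 s2) (z.ap r3 s3)
      (u - du x r1 s1 - du y r2 s2 - du z r3 s3) (v - dv x r1 s1 - dv y r2 s2 - dv z r3 s3)

/-- The image of a state in a box, from the corner inequalities and the final query. -/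
lemma image_good {T0 T1 : Tree} {n : ℕ} {cls e1 e2 e3 : Bool} {R1 R2 R3 : Row}
    {x0 x1 y0 y1 z0 z1 w0 w1 u0 u1 tx ty tz : ℕ}
    {x y z : Co} {u v s r1 r2 r3 : ℝ} {s1 s2 s3 : List ℕ}
    (hs : 0 < s) (hx : 0 < x.l) (hy : 0 < y.l) (hz : 0 < z.l)
    (hsum : x.l + y.l + z.l = s) (huv : u + v = s)
    (hxy : x.o = y.o) (hzo : z.o = if cls then x.o else !x.o)
    (hc : Cor cls R1 R2 R3 x0 x1 y0 y1 z0 z1 w0 w1 u0 u1 (nrm x.l s) (nrm y.l s))
    (hu0 : (u0:ℝ) ≤ nrm (if x.o then u else v) s) (hu1 : nrm (if x.o then u else v) s ≤ u1)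
    (hr1 : 0 ≤ r1) (hr2 : 0 ≤ r2) (hr3 : 0 ≤ r3) (hw1 : W12 s1) (hw2 : W12 s2) (hw3 : W12 s3)
    (R1ok : RowOK R1 (cm r1 s1) (cM r1 s1)) (R2ok : RowOK R2 (cm r2 s2) (cM r2 s2))
    (R3ok : RowOK R3 (cm r3 s3) (cM r3 s3))
    (side : Side x0 x1 y0 y1 z0 z1 w0 w1)
    (bx0 : x0 ≤ 65536) (by0 : y0 ≤ 65536) (bz0 : z0 ≤ 65536) (bw0 : w0 ≤ 65536)
    (he1 : e1 = par s1) (he2 : e2 = par s2) (he3 : e3 = if cls then par s3 else !(par s3))
    (cx : Cp tx (newty x.t s1)) (cy : Cp ty (newty y.t s2)) (cz : Cp tz (newty z.t s3))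
    (hg : chkGood T0 T1 n e1 e2 e3 x0 x1 y0 y1 z0 z1 w0 w1 tx ty tz = true) :
    Good T0 T1 n (x.ap r1 s1) (y.ap r2 s2) (z.ap r3 s3)
      (u - du x r1 s1 - du y r2 s2 - du z r3 s3) (v - dv x r1 s1 - dv y r2 s2 - dv z r3 s3) := by
  obtain ⟨q1, q2, q3, q4, q5, q6, q7, q8⟩ := side
  have side : Side x0 x1 y0 y1 z0 z1 w0 w1 := ⟨q1, q2, q3, q4, q5, q6, q7, q8⟩
  have k1 := kap_pos hr1 hw1
  have k2 := kap_pos hr2 hw2
  have k3 := kap_pos hr3 hw3
  have ha : 0 ≤ nrm x.l s := by unfold nrm; positivity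
  have hb : 0 ≤ nrm y.l s := by unfold nrm; positivity
  have hc3 : 0 ≤ nrm z.l s := by unfold nrm; positivity
  obtain ⟨bX, bY, bZ, bW, _⟩ := opt_bounds (a := nrm x.l s) (b := nrm y.l s) (c := nrm z.l s)
    (u := nrm (if x.o then u else v) s) hc bx0 (by omega) by0 (by omega) bz0 (by omega) bw0
    (by omega) (nrm_sum hs hsum) ha hb hc3 hu0 hu1 R1ok R2ok R3ok _ _ _ _ _ rfl rfl rfl rfl rfl
  set S' := (x.ap r1 s1).l + (y.ap r2 s2).l + (z.ap r3 s3).l with hS'
  have l1 : (x.ap r1 s1).l = x.l * (1 - cm r1 s1 - cM r1 s1) := rfl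
  have l2 : (y.ap r2 s2).l = y.l * (1 - cm r2 s2 - cM r2 s2) := rfl
  have l3 : (z.ap r3 s3).l = z.l * (1 - cm r3 s3 - cM r3 s3) := rfl
  have p1 : 0 < (x.ap r1 s1).l := by rw [l1]; positivity
  have p2 : 0 < (y.ap r2 s2).l := by rw [l2]; positivity
  have p3 : 0 < (z.ap r3 s3).l := by rw [l3]; positivity
  have hS'pos : 0 < S' := by rw [hS']; positivity
  -- the scaled quantities
  have E1 : 65536 * (1 - cm r1 s1 - cM r1 s1) * nrm x.l s = 4294967296 / s * (x.ap r1 s1).l := by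
    rw [l1]; unfold nrm; ring
  have E2 : 65536 * (1 - cm r2 s2 - cM r2 s2) * nrm y.l s = 4294967296 / s * (y.ap r2 s2).l := by
    rw [l2]; unfold nrm; ring
  have E3 : 65536 * (1 - cm r3 s3 - cM r3 s3) * nrm z.l s = 4294967296 / s * (z.ap r3 s3).l := by
    rw [l3]; unfold nrm; ring
  have hk : 0 < 4294967296 / s := by positivity
  have conv : ∀ {P : ℝ} {a b : ℕ}, (a : ℝ) * (4294967296 / s * S') ≤ 65536 * (4294967296 / s * P) →
      65536 * (4294967296 / s * P) ≤ (b : ℝ) * (4294967296 / s * S') → In P S' a b := by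
    intro P a b h1 h2
    constructor
    · unfold nrm
      rw [le_div_iff₀ hS'pos]
      have : 4294967296 / s * (a * S') ≤ 4294967296 / s * (65536 * P) := by linarith
      exact le_of_mul_le_mul_left this hk
    · unfold nrm
      rw [div_le_iff₀ hS'pos]
      have : 4294967296 / s * (65536 * P) ≤ 4294967296 / s * (b * S') := by linarith
      exact le_of_mul_le_mul_left this hk
  have Esum : 65536 * (1 - cm r1 s1 - cM r1 s1) * nrm x.l s +
      65536 * (1 - cm r2 s2 - cM r2 s2) * nrm y.l s +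
      65536 * (1 - cm r3 s3 - cM r3 s3) * nrm z.l s = 4294967296 / s * S' := by
    rw [E1, E2, E3, hS']; ring
  rw [Esum] at bX bY bZ bW
  rw [E1] at bX
  rw [E2] at bY
  rw [E3] at bZ
  have iX := conv bX.1 bX.2
  have iY := conv bY.1 bY.2
  have iZ := conv bZ.1 bZ.2
  -- the position
  set u' := u - du x r1 s1 - du y r2 s2 - du z r3 s3 with hu'
  set v' := v - dv x r1 s1 - dv y r2 s2 - dv z r3 s3 with hv'
  have hduv : ∀ (c : Co) (r : ℝ) (t : List ℕ), du c r t + dv c r t = c.l - (c.ap r t).l := by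
    intro c r t
    unfold du dv Co.ap
    cases c.o <;> simp <;> ring
  have huv' : u' + v' = S' := by
    have h1 := hduv x r1 s1
    have h2 := hduv y r2 s2
    have h3 := hduv z r3 s3
    rw [hu', hv', hS']
    linarith
  have iW : In (if x.o then u' else v') S' w0 w1 := by
    have EW : 65536 * nrm (if x.o then u else v) s -
        65536 * (cm r1 s1 * nrm x.l s + cm r2 s2 * nrm y.l s +
          (if cls then cm r3 s3 else cM r3 s3) * nrm z.l s) =
        4294967296 / s * (if x.o then u' else v') := by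
      rw [hu', hv']
      unfold du dv nrm
      cases hxo : x.o <;> cases cls <;> rw [← hxy, hzo, hxo] <;> simp <;> ring
    rw [EW] at bW
    exact conv bW.1 bW.2
  refine chkGood_sound (o := x.o) hg hS'pos rfl huv' ?_ ?_ ?_ side iX iY iZ iW cx cy cz
  · show (if par s1 then x.o else !x.o) = _
    rw [he1]
  · show (if par s2 then y.o else !y.o) = _
    rw [he2, hxy]
  · show (if par s3 then z.o else !z.o) = _
    rw [he3, hzo]
    cases cls <;> cases par s3 <;> cases x.o <;> rfl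

end CF3
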