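import Pool.Agent.CF3.Step

namespace CF3

lemma word_len : ∀ i : Fin 31, i.val ≠ 0 → 0 < (word i.val).length := by decide

/-- One refinement of a state in a box. -/
lemma opt_step {T0 T1 : Tree} {cls : Bool} {A0 A1 B0 B1 U0 U1 tx ty tz n code : ℕ}
    (hW : chkW code = true)
    (h : chkOpt T0 T1 cls A0 A1 B0 B1 U0 U1 tx ty tz n code = true)
    {x y z : Co} {u v s r1 r2 r3 : ℝ}
    (hs : 0 < s) (hx : 0 < x.l) (hy : 0 < y.l) (hz : 0 < z.l)
    (hsum : x.l + y.l + z.l = s) (huv : u + v = s)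
    (hxy : x.o = y.o) (hzo : z.o = if cls then x.o else !x.o)
    (a0 : (A0:ℝ) ≤ nrm x.l s) (a1 : nrm x.l s ≤ A1)
    (b0 : (B0:ℝ) ≤ nrm y.l s) (b1 : nrm y.l s ≤ B1)
    (hu0 : (U0:ℝ) ≤ nrm (if x.o then u else v) s) (hu1 : nrm (if x.o then u else v) s ≤ U1)
    (htx : tx < 3) (hty : ty < 3) (htz : tz < 3)
    (cx : Cp tx x.t) (cy : Cp ty y.t) (cz : Cp tz z.t)
    (i1 : InTy x.t r1) (i2 : InTy y.t r2) (i3 : InTy z.t r3) :
    (Nat.mod code 32 ≤ 30 ∧ Nat.mod (Nat.div code 32) 32 ≤ 30 ∧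
      Nat.mod (Nat.div code 1024) 32 ≤ 30) ∧
    Good T0 T1 n (x.ap r1 (word (Nat.mod code 32))) (y.ap r2 (word (Nat.mod (Nat.div code 32) 32)))
      (z.ap r3 (word (Nat.mod (Nat.div code 1024) 32)))
      (u - du x r1 (word (Nat.mod code 32)) - du y r2 (word (Nat.mod (Nat.div code 32) 32)) -
        du z r3 (word (Nat.mod (Nat.div code 1024) 32)))
      (v - dv x r1 (word (Nat.mod code 32)) - dv y r2 (word (Nat.mod (Nat.div code 32) 32)) -
        dv z r3 (word (Nat.mod (Nat.div code 1024) 32))) := by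
  unfold chkW at hW
  unfold chkOpt at h
  simp only [frc_eq, withRow_eq, Bool.and_eq_true, Nat.ble_eq] at h hW
  obtain ⟨b1', b2', b3', b4'⟩ := hW
  obtain ⟨hi, hj, hk, hAB, e1, e2, e3, e4, e5, e6, e7, e8, v1, v2, v3, v4, hg⟩ := h
  generalize Nat.mod code 32 = i at *
  generalize Nat.mod (Nat.div code 32) 32 = j at *
  generalize Nat.mod (Nat.div code 1024) 32 = k at *
  have hAB' : A1 + B1 ≤ 65536 := hAB
  have hA : A0 ≤ A1 := by exact_mod_cast a0.trans a1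
  have hB : B0 ≤ B1 := by exact_mod_cast b0.trans b1
  have c1 := vtx_sound _ _ _ _ _ _ _ _ _ _ _ _ _ _ _ _ (by omega) v1
  have c2 := vtx_sound _ _ _ _ _ _ _ _ _ _ _ _ _ _ _ _ (by omega) v2
  have c3 := vtx_sound _ _ _ _ _ _ _ _ _ _ _ _ _ _ _ _ (by omega) v3
  have c4 := vtx_sound _ _ _ _ _ _ _ _ _ _ _ _ _ _ _ _ hAB' v4
  have hcor := Cor.box a0 a1 b0 b1 c1 c2 c3 c4
  have R1ok := row_sound htx (by omega : i < 31) cx i1
  have R2ok := row_sound hty (by omega : j < 31) cy i2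
  have R3ok := row_sound htz (by omega : k < 31) cz i3
  have n1 := ntI_word ⟨i, by omega⟩ ⟨tx, htx⟩ x.t cx
  have n2 := ntI_word ⟨j, by omega⟩ ⟨ty, hty⟩ y.t cy
  have n3 := ntI_word ⟨k, by omega⟩ ⟨tz, htz⟩ z.t cz
  have p1 := par_word ⟨i, by omega⟩
  have p2 := par_word ⟨j, by omega⟩
  have p3 := par_word ⟨k, by omega⟩
  simp only at n1 n2 n3 p1 p2 p3
  have nonneg : ∀ {t : Bool} {r : ℝ}, InTy t r → 0 ≤ r := by
    intro t r h
    unfold InTy at h
    cases t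
    · simp only [Bool.false_eq_true, if_false] at h; linarith [h.1]
    · simp only [if_true] at h; linarith [h.1]
  refine ⟨⟨hi, hj, hk⟩, ?_⟩
  exact image_good hs hx hy hz hsum huv hxy hzo hcor hu0 hu1 (nonneg i1) (nonneg i2) (nonneg i3)
    (W12_word i) (W12_word j) (W12_word k) R1ok R2ok R3ok ⟨e1, e2, e3, e4, e5, e6, e7, e8⟩
    b1' b2' b3' b4' p1.symm p2.symm
    (by rw [← p3]; cases cls <;> rfl) n1.2 n2.2 n3.2 hg

theorem chkT_sound {T0 T1 : Tree} {cls : Bool} {x y z : Co} {u v s r1 r2 r3 : ℝ}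
    (hs : 0 < s) (hx : 0 < x.l) (hy : 0 < y.l) (hz : 0 < z.l)
    (hsum : x.l + y.l + z.l = s) (huv : u + v = s)
    (hxy : x.o = y.o) (hzo : z.o = if cls then x.o else !x.o)
    (i1 : InTy x.t r1) (i2 : InTy y.t r2) (i3 : InTy z.t r3) (t : Tree) :
    ∀ (A0 A1 B0 B1 U0 U1 tx ty tz : ℕ), chkT T0 T1 cls t A0 A1 B0 B1 U0 U1 tx ty tz = true →
    (A0:ℝ) ≤ nrm x.l s → nrm x.l s ≤ A1 → (B0:ℝ) ≤ nrm y.l s → nrm y.l s ≤ B1 →
    (U0:ℝ) ≤ nrm (if x.o then u else v) s → nrm (if x.o then u else v) s ≤ U1 →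
    tx < 3 → ty < 3 → tz < 3 → Cp tx x.t → Cp ty y.t → Cp tz z.t →
    Mem t (nrm x.l s) (nrm y.l s) (nrm (if x.o then u else v) s) x.t y.t z.t 0 →
    StepP T0 T1 x y z u v r1 r2 r3 := by
  induction t with
  | B => intro A0 A1 B0 B1 U0 U1 tx ty tz _ _ _ _ _ _ _ _ _ _ _ _ _ hm; exact hm.elim
  | L k c1 c2 =>
    intro A0 A1 B0 B1 U0 U1 tx ty tz h a0 a1 b0 b1 hu0 hu1 htx hty htz cx cy cz _
    have h' : (Nat.blt 0 (Nat.mod c1 32768) && (chkW c1 &&
      chkOpt T0 T1 cls A0 A1 B0 B1 U0 U1 tx ty tz 0 c1)) = true := h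
    rw [Bool.and_eq_true, Bool.and_eq_true, Nat.blt_eq] at h'
    obtain ⟨hpos, hW, hopt⟩ := h'
    obtain ⟨⟨hi, hj, hk⟩, hg⟩ := opt_step hW hopt hs hx hy hz hsum huv hxy hzo a0 a1 b0 b1 hu0 hu1
      htx hty htz cx cy cz i1 i2 i3
    refine ⟨_, _, _, W12_word _, W12_word _, W12_word _, ?_, hg⟩
    have w1 := word_len ⟨_, Nat.lt_succ_of_le hi⟩
    have w2 := word_len ⟨_, Nat.lt_succ_of_le hj⟩
    have w3 := word_len ⟨_, Nat.lt_succ_of_le hk⟩
    simp only at w1 w2 w3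
    have hne : Nat.mod c1 32 ≠ 0 ∨ Nat.mod (Nat.div c1 32) 32 ≠ 0 ∨
        Nat.mod (Nat.div c1 1024) 32 ≠ 0 := by
      have hpos' : 0 < c1 % 32768 := hpos
      have : c1 % 32 ≠ 0 ∨ (c1 / 32) % 32 ≠ 0 ∨ (c1 / 1024) % 32 ≠ 0 := by omega
      exact this
    rcases hne with h1 | h1 | h1
    · have := w1 h1; omega
    · have := w2 h1; omega
    · have := w3 h1; omega
  | Y i l r ihl ihr =>
    intro A0 A1 B0 B1 U0 U1 tx ty tz h a0 a1 b0 b1 hu0 hu1 htx hty htz cx cy cz hm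
    have h' : (bif Nat.beq i 0 then chkT T0 T1 cls l A0 A1 B0 B1 U0 U1 1 ty tz &&
        chkT T0 T1 cls r A0 A1 B0 B1 U0 U1 2 ty tz
      else bif Nat.beq i 1 then chkT T0 T1 cls l A0 A1 B0 B1 U0 U1 tx 1 tz &&
        chkT T0 T1 cls r A0 A1 B0 B1 U0 U1 tx 2 tz
      else chkT T0 T1 cls l A0 A1 B0 B1 U0 U1 tx ty 1 &&
        chkT T0 T1 cls r A0 A1 B0 B1 U0 U1 tx ty 2) = true := h
    unfold Mem at hm
    by_cases hi0 : i = 0
    · subst hi0
      rw [beq_t, cond_true, Bool.and_eq_true] at h'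
      rw [if_pos rfl] at hm
      by_cases ht : x.t = true
      · rw [if_pos ht] at hm
        exact ihl _ _ _ _ _ _ _ _ _ h'.1 a0 a1 b0 b1 hu0 hu1 (by norm_num) hty htz
          ⟨fun _ => ht, fun h => by omega⟩ cy cz hm
      · rw [if_neg ht] at hm
        exact ihr _ _ _ _ _ _ _ _ _ h'.2 a0 a1 b0 b1 hu0 hu1 (by norm_num) hty htz
          ⟨fun h => by omega, fun _ => by simpa using ht⟩ cy cz hm
    · rw [beq_f hi0, cond_false] at h'
      rw [if_neg hi0] at hm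
      by_cases hi1 : i = 1
      · subst hi1
        rw [beq_t, cond_true, Bool.and_eq_true] at h'
        rw [if_pos rfl] at hm
        by_cases ht : y.t = true
        · rw [if_pos ht] at hm
          exact ihl _ _ _ _ _ _ _ _ _ h'.1 a0 a1 b0 b1 hu0 hu1 htx (by norm_num) htz
            cx ⟨fun _ => ht, fun h => by omega⟩ cz hm
        · rw [if_neg ht] at hm
          exact ihr _ _ _ _ _ _ _ _ _ h'.2 a0 a1 b0 b1 hu0 hu1 htx (by norm_num) htz
            cx ⟨fun h => by omega, fun _ => by simpa using ht⟩ cz hm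
      · rw [beq_f hi1, cond_false, Bool.and_eq_true] at h'
        rw [if_neg hi1] at hm
        by_cases ht : z.t = true
        · rw [if_pos ht] at hm
          exact ihl _ _ _ _ _ _ _ _ _ h'.1 a0 a1 b0 b1 hu0 hu1 htx hty (by norm_num)
            cx cy ⟨fun _ => ht, fun h => by omega⟩ hm
        · rw [if_neg ht] at hm
          exact ihr _ _ _ _ _ _ _ _ _ h'.2 a0 a1 b0 b1 hu0 hu1 htx hty (by norm_num)
            cx cy ⟨fun h => by omega, fun _ => by simpa using ht⟩ hm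
  | S i m l r ihl ihr =>
    intro A0 A1 B0 B1 U0 U1 tx ty tz h a0 a1 b0 b1 hu0 hu1 htx hty htz cx cy cz hm
    have h' : (bif Nat.beq i 0 then chkT T0 T1 cls l A0 m B0 B1 U0 U1 tx ty tz &&
        chkT T0 T1 cls r m A1 B0 B1 U0 U1 tx ty tz
      else bif Nat.beq i 1 then chkT T0 T1 cls l A0 A1 B0 m U0 U1 tx ty tz &&
        chkT T0 T1 cls r A0 A1 m B1 U0 U1 tx ty tz
      else chkT T0 T1 cls l A0 A1 B0 B1 U0 m tx ty tz &&
        chkT T0 T1 cls r A0 A1 B0 B1 m U1 tx ty tz) = true := h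
    unfold Mem at hm
    by_cases hi0 : i = 0
    · subst hi0
      rw [beq_t, cond_true, Bool.and_eq_true] at h'
      rw [if_pos rfl] at hm
      by_cases ht : nrm x.l s ≤ m
      · rw [if_pos ht] at hm
        exact ihl _ _ _ _ _ _ _ _ _ h'.1 a0 ht b0 b1 hu0 hu1 htx hty htz cx cy cz hm
      · rw [if_neg ht] at hm
        exact ihr _ _ _ _ _ _ _ _ _ h'.2 (not_le.1 ht).le a1 b0 b1 hu0 hu1 htx hty htz cx cy cz hm
    · rw [beq_f hi0, cond_false] at h'
      rw [if_neg hi0] at hm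
      by_cases hi1 : i = 1
      · subst hi1
        rw [beq_t, cond_true, Bool.and_eq_true] at h'
        rw [if_pos rfl] at hm
        by_cases ht : nrm y.l s ≤ m
        · rw [if_pos ht] at hm
          exact ihl _ _ _ _ _ _ _ _ _ h'.1 a0 a1 b0 ht hu0 hu1 htx hty htz cx cy cz hm
        · rw [if_neg ht] at hm
          exact ihr _ _ _ _ _ _ _ _ _ h'.2 a0 a1 (not_le.1 ht).le b1 hu0 hu1 htx hty htz
            cx cy cz hm
      · rw [beq_f hi1, cond_false, Bool.and_eq_true] at h'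
        rw [if_neg hi1] at hm
        by_cases ht : nrm (if x.o then u else v) s ≤ m
        · rw [if_pos ht] at hm
          exact ihl _ _ _ _ _ _ _ _ _ h'.1 a0 a1 b0 b1 hu0 ht htx hty htz cx cy cz hm
        · rw [if_neg ht] at hm
          exact ihr _ _ _ _ _ _ _ _ _ h'.2 a0 a1 b0 b1 (not_le.1 ht).le hu1 htx hty htz
            cx cy cz hm

lemma StepP.swap12 {T0 T1 : Tree} {x y z : Co} {u v r1 r2 r3 : ℝ}
    (h : StepP T0 T1 x y z u v r1 r2 r3) : StepP T0 T1 y x z u v r2 r1 r3 := by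
  obtain ⟨s1, s2, s3, h1, h2, h3, hl, hg⟩ := h
  refine ⟨s2, s1, s3, h2, h1, h3, by omega, ?_⟩
  have := hg.swap12
  have e1 : u - du y r2 s2 - du x r1 s1 - du z r3 s3 = u - du x r1 s1 - du y r2 s2 - du z r3 s3 := by
    ring
  have e2 : v - dv y r2 s2 - dv x r1 s1 - dv z r3 s3 = v - dv x r1 s1 - dv y r2 s2 - dv z r3 s3 := by
    ring
  rw [e1, e2]
  exact this

lemma StepP.swap23 {T0 T1 : Tree} {x y z : Co} {u v r1 r2 r3 : ℝ}
    (h : StepP T0 T1 x y z u v r1 r2 r3) : StepP T0 T1 x z y u v r1 r3 r2 := by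
  obtain ⟨s1, s2, s3, h1, h2, h3, hl, hg⟩ := h
  refine ⟨s1, s3, s2, h1, h3, h2, by omega, ?_⟩
  have := hg.swap23
  have e1 : u - du x r1 s1 - du z r3 s3 - du y r2 s2 = u - du x r1 s1 - du y r2 s2 - du z r3 s3 := by
    ring
  have e2 : v - dv x r1 s1 - dv z r3 s3 - dv y r2 s2 = v - dv x r1 s1 - dv y r2 s2 - dv z r3 s3 := by
    ring
  rw [e1, e2]
  exact this

/-- The hypotheses on the certificate. -/
def OK (T0 T1 : Tree) : Prop :=
  chkT T0 T1 false T0 3200 47232 3200 32896 6528 59008 0 0 0 = true ∧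
  chkT T0 T1 true T1 21632 47232 3200 32896 6528 59008 0 0 0 = true

lemma Cp_zero (t : Bool) : Cp 0 t := ⟨fun h => by omega, fun h => by omega⟩

lemma can_step {T0 T1 : Tree} (hT : OK T0 T1) {x y z : Co} {u v r1 r2 r3 : ℝ}
    (hx : 0 < x.l) (hy : 0 < y.l) (hz : 0 < z.l) (huv : u + v = x.l + y.l + z.l)
    (i1 : InTy x.t r1) (i2 : InTy y.t r2) (i3 : InTy z.t r3)
    (h : Can T0 T1 0 x y z u v) : StepP T0 T1 x y z u v r1 r2 r3 := by
  obtain ⟨hxy, hyx, hR, hM⟩ := h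
  have hs : 0 < x.l + y.l + z.l := by positivity
  obtain ⟨g1, g2, g3, g4, g5, g6, g7, g8⟩ := hR
  have hsum := nrm_sum hs rfl
  have hle := nrm_le hs hyx
  rcases hM with ⟨hzo, hzy, hm⟩ | ⟨hzo, hm⟩
  · have hle2 := nrm_le hs hzy
    refine chkT_sound (cls := true) hs hx hy hz rfl huv hxy (by simpa using hzo) i1 i2 i3 T1
      _ _ _ _ _ _ _ _ _ hT.2 ?_ ?_ ?_ ?_ ?_ ?_ (by norm_num) (by norm_num) (by norm_num)
      (Cp_zero _) (Cp_zero _) (Cp_zero _) hm
    · push_cast; linarith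
    · push_cast; linarith
    · push_cast; linarith
    · push_cast; linarith
    · push_cast; linarith
    · push_cast; linarith
  · refine chkT_sound (cls := false) hs hx hy hz rfl huv hxy ?_ i1 i2 i3 T0
      _ _ _ _ _ _ _ _ _ hT.1 ?_ ?_ ?_ ?_ ?_ ?_ (by norm_num) (by norm_num) (by norm_num)
      (Cp_zero _) (Cp_zero _) (Cp_zero _) hm
    · cases h1 : z.o <;> cases h2 : x.o <;> simp_all
    · push_cast; linarith
    · push_cast; linarith
    · push_cast; linarith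
    · push_cast; linarith
    · push_cast; linarith
    · push_cast; linarith

theorem good_step {T0 T1 : Tree} (hT : OK T0 T1) {x y z : Co} {u v r1 r2 r3 : ℝ}
    (hx : 0 < x.l) (hy : 0 < y.l) (hz : 0 < z.l) (huv : u + v = x.l + y.l + z.l)
    (i1 : InTy x.t r1) (i2 : InTy y.t r2) (i3 : InTy z.t r3)
    (h : Good T0 T1 0 x y z u v) : StepP T0 T1 x y z u v r1 r2 r3 := by
  rcases h with h | h | h | h | h | h
  · exact can_step hT hx hy hz huv i1 i2 i3 h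
  · exact (can_step hT hy hx hz (by linarith) i2 i1 i3 h).swap12
  · exact (can_step hT hx hz hy (by linarith) i1 i3 i2 h).swap23
  · -- y z x
    exact ((can_step hT hy hz hx (by linarith) i2 i3 i1 h).swap23).swap12
  · -- z x y
    exact ((can_step hT hz hx hy (by linarith) i3 i1 i2 h).swap12).swap23
  · -- z y x
    exact (((can_step hT hz hy hx (by linarith) i3 i2 i1 h).swap12).swap23).swap12

/-- The facts used about a good state. -/
lemma Can.facts {T0 T1 : Tree} {n : ℕ} {x y z : Co} {u v : ℝ}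
    (hx : 0 < x.l) (hy : 0 < y.l) (hz : 0 < z.l) (huv : u + v = x.l + y.l + z.l)
    (h : Can T0 T1 n x y z u v) : 0 ≤ u ∧ 0 ≤ v ∧ x.l + y.l + z.l ≤ 25 * x.l ∧
      x.l + y.l + z.l ≤ 25 * y.l ∧ x.l + y.l + z.l ≤ 25 * z.l := by
  obtain ⟨-, -, ⟨g1, g2, g3, g4, g5, g6, g7, g8⟩, -⟩ := h
  set s := x.l + y.l + z.l with hs'
  have hs : 0 < s := by positivity
  unfold nrm at *
  rw [le_div_iff₀ hs] at g1 g3 g5 g7
  rw [div_le_iff₀ hs] at g8
  have hu : 0 ≤ (if x.o then u else v) ∧ (if x.o then u else v) ≤ s := by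
    constructor <;> nlinarith
  have : 0 ≤ u ∧ 0 ≤ v := by
    cases hxo : x.o
    · rw [hxo] at hu; simp only [Bool.false_eq_true, if_false] at hu
      constructor <;> linarith [hu.1, hu.2]
    · rw [hxo] at hu; simp only [if_true] at hu
      constructor <;> linarith [hu.1, hu.2]
  refine ⟨this.1, this.2, ?_, ?_, ?_⟩ <;> linarith

lemma Good.facts {T0 T1 : Tree} {n : ℕ} {x y z : Co} {u v : ℝ}
    (hx : 0 < x.l) (hy : 0 < y.l) (hz : 0 < z.l) (huv : u + v = x.l + y.l + z.l)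
    (h : Good T0 T1 n x y z u v) : 0 ≤ u ∧ 0 ≤ v ∧ x.l + y.l + z.l ≤ 25 * x.l ∧
      x.l + y.l + z.l ≤ 25 * y.l ∧ x.l + y.l + z.l ≤ 25 * z.l := by
  rcases h with h | h | h | h | h | h
  · exact h.facts hx hy hz huv
  · obtain ⟨h1, h2, h3, h4, h5⟩ := h.facts hy hx hz (by linarith)
    refine ⟨h1, h2, ?_, ?_, ?_⟩ <;> linarith
  · obtain ⟨h1, h2, h3, h4, h5⟩ := h.facts hx hz hy (by linarith)
    refine ⟨h1, h2, ?_, ?_, ?_⟩ <;> linarith
  · obtain ⟨h1, h2, h3, h4, h5⟩ := h.facts hy hz hx (by linarith)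
    refine ⟨h1, h2, ?_, ?_, ?_⟩ <;> linarith
  · obtain ⟨h1, h2, h3, h4, h5⟩ := h.facts hz hx hy (by linarith)
    refine ⟨h1, h2, ?_, ?_, ?_⟩ <;> linarith
  · obtain ⟨h1, h2, h3, h4, h5⟩ := h.facts hz hy hx (by linarith)
    refine ⟨h1, h2, ?_, ?_, ?_⟩ <;> linarith

end CF3
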