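import Pool.Agent.CF3.Good

namespace CF3

/-- Cost at the lower end. -/
noncomputable def cm (r : ℝ) (s : List ℕ) : ℝ := FF r (lo s)
/-- Cost at the upper end. -/
noncomputable def cM (r : ℝ) (s : List ℕ) : ℝ := 1 - FF r (hi s)

/-- Parity of the length. -/
def par (s : List ℕ) : Bool := s.length % 2 == 0

/-- The interval of `rho` for a type. -/
def InTy (t : Bool) (r : ℝ) : Prop :=
  if t = true then ((209:ℝ)/362 ≤ r ∧ r ≤ 153/209) else ((209:ℝ)/571 ≤ r ∧ r ≤ 153/362)

/-- New type. -/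
def newty (t : Bool) (s : List ℕ) : Bool :=
  match s.getLast? with
  | none => t
  | some d => d == 1

lemma FF_mono {r r' t : ℝ} (hr : 0 ≤ r) (hrr : r ≤ r') (h1 : mm ≤ t) (h2 : t ≤ MM) :
    FF r t ≤ FF r' t := by
  unfold FF
  have hm := mm_pos
  have hM := MM_pos
  have h3 := sub_pos.2 mm_lt_MM
  have ht : 0 < t := by linarith
  have h4 : 0 ≤ r' := by linarith
  rw [div_le_div_iff₀ (by positivity) (by positivity)]
  have h5 : 0 ≤ (t - mm) * (MM - mm) * ((r' - r) * (MM - t)) := by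
    have := sub_nonneg.2 h1
    have := sub_nonneg.2 h2
    have := sub_nonneg.2 hrr
    positivity
  nlinarith

/-- quotient -/
noncomputable def gq (r s t : ℝ) : ℝ := (1 + r * s) / (1 + r * t)

lemma gq_pos {r s t : ℝ} (hr : 0 ≤ r) (hs : 0 ≤ s) (ht : 0 ≤ t) : 0 < gq r s t := by
  unfold gq; positivity

lemma gq_anti {r r' s t : ℝ} (hr : 0 ≤ r) (hrr : r ≤ r') (hs : 0 ≤ s) (hst : s ≤ t) :
    gq r' s t ≤ gq r s t := by
  unfold gq
  have h1 : 0 ≤ r' := by linarith
  have h2 : 0 ≤ t := by linarith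
  rw [div_le_div_iff₀ (by positivity) (by positivity)]
  nlinarith [mul_nonneg (sub_nonneg.2 hrr) (sub_nonneg.2 hst)]

lemma gq_mono {r r' s t : ℝ} (hr : 0 ≤ r) (hrr : r ≤ r') (ht : 0 ≤ t) (hst : t ≤ s) :
    gq r s t ≤ gq r' s t := by
  unfold gq
  have h1 : 0 ≤ r' := by linarith
  have h2 : 0 ≤ s := by linarith
  rw [div_le_div_iff₀ (by positivity) (by positivity)]
  nlinarith [mul_nonneg (sub_nonneg.2 hrr) (sub_nonneg.2 hst)]

lemma FF_sub {r a b : ℝ} (hr : 0 ≤ r) (ha : 0 < a) (hb : 0 < b) :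
    FF r b - FF r a = (b - a) / (MM - mm) * (gq r mm a * gq r MM b) := by
  unfold FF gq
  have h3 := sub_pos.2 mm_lt_MM
  have h4 : 0 < 1 + r * a := by positivity
  have h5 : 0 < 1 + r * b := by positivity
  field_simp
  ring

/-! ### rational computation -/

/-- `app` over the rationals -/
def appQ : List ℕ → ℚ → ℚ
  | [], t => t
  | a :: w, t => 1 / ((a : ℚ) + appQ w t)

lemma appQ_cast (w : List ℕ) (t : ℚ) : ((appQ w t : ℚ) : ℝ) = app w t := by
  induction w with
  | nil => rfl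
  | cons a w ih => simp only [appQ, app]; push_cast; rw [ih]

/-- `lo` over the rationals -/
def loQ (w : List ℕ) : ℚ := if w.length % 2 = 0 then appQ w (56/153) else appQ w (153/209)
/-- `hi` over the rationals -/
def hiQ (w : List ℕ) : ℚ := if w.length % 2 = 0 then appQ w (153/209) else appQ w (56/153)

lemma loQ_cast (w : List ℕ) : ((loQ w : ℚ) : ℝ) = lo w := by
  unfold loQ lo
  by_cases h : w.length % 2 = 0
  · rw [if_pos h, if_pos (Nat.even_iff.2 h), appQ_cast]; norm_num [mm]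
  · rw [if_neg h, if_neg (fun h' => h (Nat.even_iff.1 h')), appQ_cast]; norm_num [MM]

lemma hiQ_cast (w : List ℕ) : ((hiQ w : ℚ) : ℝ) = hi w := by
  unfold hiQ hi
  by_cases h : w.length % 2 = 0
  · rw [if_pos h, if_pos (Nat.even_iff.2 h), appQ_cast]; norm_num [MM]
  · rw [if_neg h, if_neg (fun h' => h (Nat.even_iff.1 h')), appQ_cast]; norm_num [mm]

/-- lower end of the interval of a type code -/
def rLQ (y : ℕ) : ℚ := if y = 1 then 209/362 else 209/571
/-- upper end -/
def rHQ (y : ℕ) : ℚ := if y = 2 then 153/362 else 153/209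

/-- `FF` over the rationals -/
def FFQ (r t : ℚ) : ℚ := (t - 56/153) * (1 + r * (153/209)) / ((153/209 - 56/153) * (1 + r * t))
/-- `gq` over the rationals -/
def gQ (r s t : ℚ) : ℚ := (1 + r * s) / (1 + r * t)

lemma FFQ_cast (r t : ℚ) : ((FFQ r t : ℚ) : ℝ) = FF r t := by
  unfold FFQ FF mm MM; push_cast; rfl

lemma gQ_cast (r s t : ℚ) : ((gQ r s t : ℚ) : ℝ) = gq r s t := by
  unfold gQ gq; push_cast; rfl

/-- The check of one row of the table. -/
def rowChk (y i : ℕ) : Bool :=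
  let R := rowOf y i
  let al := loQ (word i)
  let be := hiQ (word i)
  let rL := rLQ y
  let rH := rHQ y
  decide ((56:ℚ)/153 ≤ al ∧ al ≤ be ∧ be ≤ 153/209 ∧
    (R.a : ℚ) ≤ 65536 * FFQ rL al ∧ 65536 * FFQ rH al ≤ R.b ∧
    (R.c : ℚ) ≤ 65536 * (1 - FFQ rH be) ∧ 65536 * (1 - FFQ rL be) ≤ R.d ∧
    (R.e : ℚ) ≤ 65536 * ((be - al) / (153/209 - 56/153) * (gQ rH (56/153) al * gQ rL (153/209) be)) ∧
    65536 * ((be - al) / (153/209 - 56/153) * (gQ rL (56/153) al * gQ rH (153/209) be)) ≤ R.f)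

theorem rowChk_all : ∀ y : Fin 3, ∀ i : Fin 31, rowChk y i = true := by decide +kernel

lemma row_sound {y i : ℕ} (hy : y < 3) (hi : i < 31) {t : Bool} (hc : Cp y t) {r : ℝ}
    (hr : InTy t r) : RowOK (rowOf y i) (cm r (word i)) (cM r (word i)) := by
  have h := rowChk_all ⟨y, hy⟩ ⟨i, hi⟩
  simp only [rowChk, decide_eq_true_eq] at h
  obtain ⟨h1, h2, h3, h4, h5, h6, h7, h8, h9⟩ := h
  have k1 : mm ≤ lo (word i) := by
    have h := (Rat.cast_le (K := ℝ)).2 h1
    rw [← loQ_cast]; unfold mm; push_cast at h; exact h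
  have k2 : lo (word i) ≤ CF3.hi (word i) := by
    rw [← loQ_cast, ← hiQ_cast]; exact_mod_cast h2
  have k3 : CF3.hi (word i) ≤ MM := by
    have h := (Rat.cast_le (K := ℝ)).2 h3
    rw [← hiQ_cast]; unfold MM; push_cast at h; exact h
  have hm := mm_pos
  have hM := MM_pos
  have hrL : ((rLQ y : ℚ) : ℝ) ≤ r ∧ r ≤ ((rHQ y : ℚ) : ℝ) := by
    unfold InTy at hr
    have hcases : y = 0 ∨ y = 1 ∨ y = 2 := by omega
    cases t
    · simp only [Bool.false_eq_true, if_false] at hr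
      rcases hcases with rfl | rfl | rfl
      · constructor
        · norm_num [rLQ]; linarith [hr.1]
        · norm_num [rHQ]; linarith [hr.2]
      · exact absurd (hc.1 rfl) (by simp)
      · constructor
        · norm_num [rLQ]; linarith [hr.1]
        · norm_num [rHQ]; linarith [hr.2]
    · simp only [if_true] at hr
      rcases hcases with rfl | rfl | rfl
      · constructor
        · norm_num [rLQ]; linarith [hr.1]
        · norm_num [rHQ]; linarith [hr.2]
      · constructor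
        · norm_num [rLQ]; linarith [hr.1]
        · norm_num [rHQ]; linarith [hr.2]
      · exact absurd (hc.2 rfl) (by simp)
  obtain ⟨q1, q2⟩ := hrL
  have q0 : (0:ℝ) ≤ ((rLQ y : ℚ) : ℝ) := by
    have : (0:ℚ) ≤ rLQ y := by unfold rLQ; split_ifs <;> norm_num
    exact_mod_cast this
  have r0 : 0 ≤ r := q0.trans q1
  have rH0 : (0:ℝ) ≤ ((rHQ y : ℚ) : ℝ) := r0.trans q2
  have g4 : ((rowOf y i).a : ℝ) ≤ 65536 * FF (rLQ y : ℚ) (lo (word i)) := by
    rw [← loQ_cast, ← FFQ_cast]; exact_mod_cast h4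
  have g5 : 65536 * FF (rHQ y : ℚ) (lo (word i)) ≤ ((rowOf y i).b : ℝ) := by
    rw [← loQ_cast, ← FFQ_cast]; exact_mod_cast h5
  have g6 : ((rowOf y i).c : ℝ) ≤ 65536 * (1 - FF (rHQ y : ℚ) (CF3.hi (word i))) := by
    rw [← hiQ_cast, ← FFQ_cast]; exact_mod_cast h6
  have g7 : 65536 * (1 - FF (rLQ y : ℚ) (CF3.hi (word i))) ≤ ((rowOf y i).d : ℝ) := by
    rw [← hiQ_cast, ← FFQ_cast]; exact_mod_cast h7
  have emm : mm = (((56/153 : ℚ)) : ℝ) := by unfold mm; push_cast; rfl
  have eMM : MM = (((153/209 : ℚ)) : ℝ) := by unfold MM; push_cast; rfl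
  have g8 : ((rowOf y i).e : ℝ) ≤ 65536 * ((CF3.hi (word i) - lo (word i)) / (MM - mm) *
      (gq (rHQ y : ℚ) mm (lo (word i)) * gq (rLQ y : ℚ) MM (CF3.hi (word i)))) := by
    rw [← loQ_cast, ← hiQ_cast, emm, eMM, ← gQ_cast, ← gQ_cast]; exact_mod_cast h8
  have g9 : 65536 * ((CF3.hi (word i) - lo (word i)) / (MM - mm) *
      (gq (rLQ y : ℚ) mm (lo (word i)) * gq (rHQ y : ℚ) MM (CF3.hi (word i)))) ≤
      ((rowOf y i).f : ℝ) := by
    rw [← loQ_cast, ← hiQ_cast, emm, eMM, ← gQ_cast, ← gQ_cast]; exact_mod_cast h9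
  have hlo : 0 < lo (word i) := by linarith
  have hhi : 0 < CF3.hi (word i) := by linarith
  have m1 := FF_mono q0 q1 k1 (k2.trans k3)
  have m2 := FF_mono r0 q2 k1 (k2.trans k3)
  have m3 := FF_mono q0 q1 (k1.trans k2) k3
  have m4 := FF_mono r0 q2 (k1.trans k2) k3
  have hC : 0 ≤ (CF3.hi (word i) - lo (word i)) / (MM - mm) := by
    have := sub_pos.2 mm_lt_MM
    have := sub_nonneg.2 k2
    positivity
  have kap : 1 - cm r (word i) - cM r (word i) = (CF3.hi (word i) - lo (word i)) / (MM - mm) *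
      (gq r mm (lo (word i)) * gq r MM (CF3.hi (word i))) := by
    rw [← FF_sub r0 hlo hhi]; unfold cm cM; ring
  have a1 := gq_anti (s := mm) (t := lo (word i)) r0 q2 hm.le k1
  have a2 := gq_anti (s := mm) (t := lo (word i)) q0 q1 hm.le k1
  have a3 := gq_mono (s := MM) (t := CF3.hi (word i)) r0 q2 hhi.le k3
  have a4 := gq_mono (s := MM) (t := CF3.hi (word i)) q0 q1 hhi.le k3
  have p1 := gq_pos (s := mm) (t := lo (word i)) r0 hm.le hlo.le
  have p2 := gq_pos (s := MM) (t := CF3.hi (word i)) r0 hM.le hhi.le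
  have p3 := gq_pos (s := mm) (t := lo (word i)) rH0 hm.le hlo.le
  have p4 := gq_pos (s := MM) (t := CF3.hi (word i)) q0 hM.le hhi.le
  refine ⟨?_, ?_, ?_, ?_, ?_, ?_⟩
  · unfold cm; linarith
  · unfold cm; linarith
  · unfold cM; linarith
  · unfold cM; linarith
  · rw [kap]
    refine g8.trans ?_
    have := mul_le_mul a1 a4 p4.le p1.le
    have := mul_le_mul_of_nonneg_left this hC
    linarith
  · rw [kap]
    refine le_trans ?_ g9
    have := mul_le_mul a2 a3 p2.le (p1.le.trans a2)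
    have := mul_le_mul_of_nonneg_left this hC
    linarith

lemma W12_word (i : ℕ) : W12 (word i) := by
  have h : ∀ w ∈ words, W12 w := by
    unfold W12 words
    decide
  unfold word
  by_cases hi : i < words.length
  · rw [List.getD_eq_getElem _ _ hi]
    exact h _ (List.getElem_mem hi)
  · rw [List.getD_eq_default _ _ (not_lt.1 hi)]
    intro k hk; simp at hk

lemma par_word : ∀ i : Fin 31, par (word i) = parI i := by decide

lemma ntI_word : ∀ i : Fin 31, ∀ y : Fin 3, ∀ t : Bool, Cp y t →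
    (ntI y i < 3 ∧ Cp (ntI y i) (newty t (word i))) := by
  unfold Cp
  decide

end CF3
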