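import Pool.Agent.CF3.Num

/-!
# Bounds for the relative cuts on a range of `r`
-/

namespace CF3

open Set

lemma FF_mono_r {r r' t : ℝ} (h0 : 0 ≤ r) (h : r ≤ r') (h1 : mm ≤ t) (h2 : t ≤ MM) :
    FF r t ≤ FF r' t := by
  have hm := mm_pos
  have hM := MM_pos
  have hd := sub_pos.2 mm_lt_MM
  have ht : 0 < t := by linarith
  have h3 : 0 < 1 + r * t := by positivity
  have h0' : 0 ≤ r' := le_trans h0 h
  have h4 : 0 < 1 + r' * t := by positivity
  unfold FF
  rw [div_le_div_iff₀ (by positivity) (by positivity)]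
  have key : (1 + r * MM) * (1 + r' * t) ≤ (1 + r' * MM) * (1 + r * t) := by
    nlinarith [mul_nonneg (sub_nonneg.2 h) (sub_nonneg.2 h2)]
  have h5 : 0 ≤ (t - mm) * (MM - mm) := mul_nonneg (sub_nonneg.2 h1) hd.le
  calc (t - mm) * (1 + r * MM) * ((MM - mm) * (1 + r' * t))
      = (t - mm) * (MM - mm) * ((1 + r * MM) * (1 + r' * t)) := by ring
    _ ≤ (t - mm) * (MM - mm) * ((1 + r' * MM) * (1 + r * t)) := mul_le_mul_of_nonneg_left key h5
    _ = (t - mm) * (1 + r' * MM) * ((MM - mm) * (1 + r * t)) := by ring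

/-- strict monotonicity in the point -/
lemma FF_mono_t {r t t' : ℝ} (h0 : 0 ≤ r) (h1 : mm ≤ t) (h : t ≤ t') :
    FF r t ≤ FF r t' := by
  have hm := mm_pos
  have hM := MM_pos
  have hd := sub_pos.2 mm_lt_MM
  have ht : 0 < t := by linarith
  have ht' : 0 < t' := by linarith
  have h3 : 0 < 1 + r * t := by positivity
  have h4 : 0 < 1 + r * t' := by positivity
  have h5 : 0 < 1 + r * MM := by positivity
  unfold FF
  rw [div_le_div_iff₀ (by positivity) (by positivity)]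
  have key : (t - mm) * (1 + r * t') ≤ (t' - mm) * (1 + r * t) := by
    nlinarith [mul_nonneg (sub_nonneg.2 h) (mul_nonneg h0 hm.le)]
  have h6 : 0 ≤ (1 + r * MM) * (MM - mm) := (mul_pos h5 hd).le
  calc (t - mm) * (1 + r * MM) * ((MM - mm) * (1 + r * t'))
      = (1 + r * MM) * (MM - mm) * ((t - mm) * (1 + r * t')) := by ring
    _ ≤ (1 + r * MM) * (MM - mm) * ((t' - mm) * (1 + r * t)) := mul_le_mul_of_nonneg_left key h6
    _ = (t' - mm) * (1 + r * MM) * ((MM - mm) * (1 + r * t)) := by ring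

lemma kappa_eq {r al be : ℝ} (h0 : 0 ≤ r) (h1 : mm ≤ al) (h2 : mm ≤ be) :
    FF r be - FF r al = (be - al) / (MM - mm) * ((1 + r * mm) / (1 + r * al)) *
      ((1 + r * MM) / (1 + r * be)) := by
  have hm := mm_pos
  have hM := MM_pos
  have hd := sub_pos.2 mm_lt_MM
  have ha : 0 < al := by linarith
  have hb : 0 < be := by linarith
  have h3 : 0 < 1 + r * al := by positivity
  have h4 : 0 < 1 + r * be := by positivity
  unfold FF
  field_simp
  ring

lemma ratio_anti {r r' a b : ℝ} (h0 : 0 ≤ r) (h : r ≤ r') (hb : 0 ≤ b) (hab : a ≤ b) :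
    (1 + r' * a) / (1 + r' * b) ≤ (1 + r * a) / (1 + r * b) := by
  have h0' : 0 ≤ r' := le_trans h0 h
  have h3 : 0 < 1 + r * b := by positivity
  have h4 : 0 < 1 + r' * b := by positivity
  rw [div_le_div_iff₀ h4 h3]
  nlinarith [mul_nonneg (sub_nonneg.2 h) (sub_nonneg.2 hab)]

lemma ratio_mono {r r' a b : ℝ} (h0 : 0 ≤ r) (h : r ≤ r') (hb : 0 ≤ b) (hab : b ≤ a) :
    (1 + r * a) / (1 + r * b) ≤ (1 + r' * a) / (1 + r' * b) := by
  have h0' : 0 ≤ r' := le_trans h0 h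
  have h3 : 0 < 1 + r * b := by positivity
  have h4 : 0 < 1 + r' * b := by positivity
  rw [div_le_div_iff₀ h3 h4]
  nlinarith [mul_nonneg (sub_nonneg.2 h) (sub_nonneg.2 hab)]

/-- upper bound for the relative size -/
lemma kappa_le {rL rH r al be : ℝ} (h0 : 0 ≤ rL) (hL : rL ≤ r) (hH : r ≤ rH) (h1 : mm ≤ al)
    (h2 : al ≤ be) (h3 : be ≤ MM) :
    FF r be - FF r al ≤ (be - al) / (MM - mm) * ((1 + rL * mm) / (1 + rL * al)) *
      ((1 + rH * MM) / (1 + rH * be)) := by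
  have hm := mm_pos
  have hM := MM_pos
  have hd := sub_pos.2 mm_lt_MM
  have hr : 0 ≤ r := le_trans h0 hL
  have hrH : 0 ≤ rH := le_trans hr hH
  have ha : 0 < al := by linarith
  have hb : 0 < be := by linarith
  rw [kappa_eq hr h1 (le_trans h1 h2)]
  have e1 := ratio_anti h0 hL ha.le h1
  have e2 := ratio_mono hr hH hb.le h3
  have e3 : 0 ≤ (be - al) / (MM - mm) := div_nonneg (sub_nonneg.2 h2) hd.le
  have e4 : 0 ≤ (1 + r * MM) / (1 + r * be) := by positivity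
  have e5 : 0 ≤ (1 + rL * mm) / (1 + rL * al) := by positivity
  exact mul_le_mul (mul_le_mul_of_nonneg_left e1 e3) e2 e4 (mul_nonneg e3 e5)

/-- lower bound for the relative size -/
lemma le_kappa {rL rH r al be : ℝ} (h0 : 0 ≤ rL) (hL : rL ≤ r) (hH : r ≤ rH) (h1 : mm ≤ al)
    (h2 : al ≤ be) (h3 : be ≤ MM) :
    (be - al) / (MM - mm) * ((1 + rH * mm) / (1 + rH * al)) *
      ((1 + rL * MM) / (1 + rL * be)) ≤ FF r be - FF r al := by
  have hm := mm_pos
  have hM := MM_pos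
  have hd := sub_pos.2 mm_lt_MM
  have hr : 0 ≤ r := le_trans h0 hL
  have hrH : 0 ≤ rH := le_trans hr hH
  have ha : 0 < al := by linarith
  have hb : 0 < be := by linarith
  rw [kappa_eq hr h1 (le_trans h1 h2)]
  have e1 := ratio_anti hr hH ha.le h1
  have e2 := ratio_mono h0 hL hb.le h3
  have e3 : 0 ≤ (be - al) / (MM - mm) := div_nonneg (sub_nonneg.2 h2) hd.le
  have e4 : 0 ≤ (1 + rL * MM) / (1 + rL * be) := by positivity
  have e5 : 0 ≤ (1 + r * mm) / (1 + r * al) := by positivity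
  exact mul_le_mul (mul_le_mul_of_nonneg_left e1 e3) e2 e4 (mul_nonneg e3 e5)

/-! ### In terms of words -/

lemma app_le_iff_lo_hi {s : List ℕ} (hs : W12 s) : lo s ≤ hi s := (lo_lt_hi hs.pos).le

lemma cm_mono {r r' : ℝ} {s : List ℕ} (hs : W12 s) (h0 : 0 ≤ r) (h : r ≤ r') :
    cm r s ≤ cm r' s := FF_mono_r h0 h (lo_hull hs).1 (lo_hull hs).2

lemma cM_anti {r r' : ℝ} {s : List ℕ} (hs : W12 s) (h0 : 0 ≤ r) (h : r ≤ r') :
    cM r' s ≤ cM r s := by
  unfold cM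
  have := FF_mono_r h0 h (hi_hull hs).1 (hi_hull hs).2
  linarith

lemma cm_nonneg {r : ℝ} {s : List ℕ} (hs : W12 s) (h0 : 0 ≤ r) : 0 ≤ cm r s :=
  FF_nonneg h0 (lo_hull hs).1

lemma cM_nonneg {r : ℝ} {s : List ℕ} (hs : W12 s) (h0 : 0 ≤ r) : 0 ≤ cM r s := by
  unfold cM
  have := FF_le_one h0 (hi_hull hs).1 (hi_hull hs).2
  linarith

lemma kap_le {rL rH r : ℝ} {s : List ℕ} (hs : W12 s) (h0 : 0 ≤ rL) (hL : rL ≤ r) (hH : r ≤ rH) :
    1 - cm r s - cM r s ≤ (hi s - lo s) / (MM - mm) * ((1 + rL * mm) / (1 + rL * lo s)) *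
      ((1 + rH * MM) / (1 + rH * hi s)) := by
  have := kappa_le h0 hL hH (lo_hull hs).1 (app_le_iff_lo_hi hs) (hi_hull hs).2
  unfold cm cM
  linarith

lemma le_kap {rL rH r : ℝ} {s : List ℕ} (hs : W12 s) (h0 : 0 ≤ rL) (hL : rL ≤ r) (hH : r ≤ rH) :
    (hi s - lo s) / (MM - mm) * ((1 + rH * mm) / (1 + rH * lo s)) *
      ((1 + rL * MM) / (1 + rL * hi s)) ≤ 1 - cm r s - cM r s := by
  have := le_kappa h0 hL hH (lo_hull hs).1 (app_le_iff_lo_hi hs) (hi_hull hs).2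
  unfold cm cM
  linarith

end CF3
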