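import Pool.Agent.CF3.Step
import Pool.Agent.CF3.Da00
import Pool.Agent.CF3.Da01
import Pool.Agent.CF3.Da02
import Pool.Agent.CF3.Da03
import Pool.Agent.CF3.Da04
import Pool.Agent.CF3.Da05
import Pool.Agent.CF3.Da06
import Pool.Agent.CF3.Da07
import Pool.Agent.CF3.Da08

namespace CF3

/-- The region, mixed orientations. -/
noncomputable def tr0 : Tree :=
(.S 2 32768 (.S 0 25216 (.S 1 18048 (.S 2 19648 (.S 0 14208 (.S 1 10624 b0_0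
b0_1)
(.S 1 10624 (.S 2 13088 (.S 0 19712 (.S 1 6912 b0_2
b0_3)
b0_4)
b0_5)
(.S 2 13088 (.S 0 19712 (.S 1 14336 (.S 2 9808 b0_6
b0_7)
(.S 2 9808 b0_8
b0_9))
(.S 1 14336 b0_10
(.S 2 9808 (.S 0 22464 (.S 1 16192 b0_11
b0_12)
b0_13)
b0_14)))
(.S 0 19712 (.S 1 14336 (.S 2 16368 b0_15
b0_16)
(.S 2 16368 b0_17
b0_18))
b0_19))))
(.S 0 14208 b0_20
(.S 1 10624 (.S 2 26208 (.S 0 19712 b0_21
b0_22)
b0_23)
(.S 2 26208 (.S 0 19712 b0_24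
(.S 1 14336 (.S 2 22928 (.S 0 22464 (.L 0 750651009183160596439135752859876293538251776 0)
(.S 1 12480 (.S 2 21288 b0_25
(.S 0 23840 b0_26
(.S 1 11552 b0_27
b0_28)))
b0_29))
b0_30)
b0_31))
b0_32))))
(.S 2 19648 (.S 0 14208 .B
(.S 1 25472 (.S 2 13088 (.S 0 19712 b0_33
b0_34)
(.S 0 19712 b0_35
(.S 1 21760 (.S 2 16368 (.S 0 22464 b0_36
b0_37)
b0_38)
b0_39)))
.B))
b0_40))
(.S 1 18048 (.S 2 19648 (.S 0 36224 (.S 1 10624 b0_41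
b0_42)
(.S 1 10624 b0_43
b0_44))
(.S 0 36224 (.S 1 10624 (.S 2 26208 (.S 0 30720 (.S 1 6912 b0_45
(.S 2 22928 b0_46
(.S 0 27968 b0_47
b0_48)))
(.S 1 6912 b0_49
(.S 2 22928 (.S 0 33472 b0_50
b0_51)
b0_52)))
b0_53)
(.S 2 26208 (.S 0 30720 (.S 1 14336 (.S 2 22928 (.S 0 27968 (.S 1 12480 (.S 2 21288 b0_54
(.S 0 26592 b0_55
b0_56))
b0_57)
b0_58)
(.S 0 27968 (.S 1 12480 (.S 2 24568 (.S 0 26592 b0_59
b0_60)
b0_61)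
b0_62)
b0_63))
b0_64)
(.S 1 14336 b0_65
(.S 2 22928 b0_66
(.S 0 33472 b0_67
(.S 1 16192 b0_68
b0_69)))))
b0_70))
(.S 1 10624 (.S 2 26208 b0_71
(.S 0 41728 (.S 1 6912 b0_72
b0_73)
(.S 1 6912 b0_74
(.S 2 29488 b0_75
b0_76))))
(.S 2 26208 (.S 0 41728 (.S 1 14336 b0_77
(.S 2 22928 b0_78
(.S 0 38976 b0_79
(.S 1 16192 (.L 0 1210628638271044627721909029998037347395567618 0)
(.S 2 24568 b0_80
b0_81)))))
(.S 1 14336 b0_82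
(.S 2 22928 b0_83
(.S 0 44480 (.S 1 16192 b0_84
b0_85)
.B))))
(.S 0 41728 (.S 1 14336 b0_86
(.S 2 29488 (.S 0 38976 b0_87
(.S 1 16192 b0_88
b0_89))
(.L 0 447257522995529741569263231012214404619468803 0)))
(.S 1 14336 (.S 2 29488 (.S 0 44480 (.S 1 12480 b0_90
(.S 2 27848 (.S 0 43104 b0_91
b0_92)
b0_93))
b0_94)
b0_95)
(.S 2 29488 (.S 0 44480 (.S 1 16192 b0_96
b0_97)
.B)
b0_98)))))))
(.S 2 19648 (.S 0 36224 (.S 1 25472 (.S 2 13088 b0_99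
(.S 0 30720 (.S 1 21760 b0_100
b0_101)
(.S 1 21760 b0_102
(.S 2 16368 b0_103
(.S 0 33472 b0_104
b0_105)))))
(.S 2 13088 b0_106
(.S 0 30720 (.S 1 29184 (.S 2 16368 b0_107
(.S 0 27968 b0_108
(.S 1 27328 (.S 2 18008 b0_109
b0_110)
b0_111)))
b0_112)
b0_113)))
(.S 1 25472 (.S 2 13088 b0_114
(.S 0 41728 (.S 1 21760 (.S 2 16368 (.S 0 38976 b0_115
b0_116)
b0_117)
b0_118)
.B))
.B))
(.S 0 36224 (.S 1 25472 b0_119
(.S 2 26208 (.S 0 30720 b0_120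
b0_121)
(.S 0 30720 b0_122
b0_123)))
(.S 1 25472 (.S 2 26208 (.S 0 41728 (.S 1 21760 (.S 2 22928 b0_124
(.S 0 38976 b0_125
(.S 1 19904 (.S 2 24568 b0_126
b0_127)
b0_128)))
b0_129)
.B)
b0_130)
.B)))))
(.S 0 25216 (.S 1 18048 (.S 2 45888 (.S 0 14208 (.S 1 10624 (.S 2 39328 (.S 0 8704 .B
(.S 1 6912 .B
(.S 2 36048 b0_131
(.S 0 11456 .B
(.S 1 8768 b0_132
(.S 2 37688 b0_133
b0_134))))))
b0_135)
(.S 2 39328 (.S 0 8704 .B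
(.S 1 14336 (.S 2 36048 b0_136
(.S 0 11456 b0_137
(.S 1 12480 (.S 2 37688 b0_138
(.S 0 12832 b0_139
b0_140))
b0_141)))
.B))
b0_142))
(.S 1 10624 (.S 2 39328 (.S 0 19712 (.S 1 6912 (.S 2 36048 (.S 0 16960 b0_143
(.S 1 5056 b0_144
b0_145))
(.S 0 16960 b0_146
(.S 1 5056 b0_147
b0_148)))
(.S 2 36048 b0_149
(.S 0 16960 (.S 1 8768 (.S 2 37688 b0_150
(.S 0 15584 b0_151
(.S 1 7840 b0_152
b0_153)))
(.S 2 37688 b0_154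
(.S 0 15584 b0_155
b0_156)))
b0_157)))
b0_158)
(.S 0 19712 (.S 1 6912 b0_159
b0_160)
(.S 1 6912 b0_161
(.S 2 42608 b0_162
(.S 0 22464 b0_163
(.S 1 8768 (.S 2 44248 b0_164
b0_165)
b0_166))))))
(.S 2 39328 b0_167
b0_168)))
(.S 0 14208 b0_169
(.S 1 10624 (.S 2 52448 (.S 0 19712 (.S 1 6912 b0_170
(.S 2 49168 (.S 0 16960 b0_171
b0_172)
b0_173))
b0_174)
b0_175)
(.S 2 52448 b0_176
b0_177))))
(.S 2 45888 b0_178
(.S 0 14208 .B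
(.S 1 25472 (.S 2 52448 (.S 0 19712 b0_179
(.S 1 21760 b0_180
(.S 2 49168 (.S 0 22464 b0_181
(.S 1 23616 (.S 2 47528 b0_182
b0_183)
b0_184))
b0_185)))
b0_186)
.B))))
(.S 1 18048 (.S 2 45888 (.S 0 36224 (.S 1 10624 (.S 2 39328 b0_187
(.S 0 30720 (.S 1 6912 b0_188
b0_189)
b0_190))
b0_191)
(.S 1 10624 (.S 2 39328 (.S 0 41728 b0_192
(.S 1 6912 b0_193
b0_194))
b0_195)
(.S 2 39328 (.S 0 41728 (.S 1 14336 (.S 2 36048 (.S 0 38976 (.S 1 12480 b0_196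
(.S 2 34408 b0_197
b0_198))
b0_199)
b0_200)
b0_201)
b0_202)
b0_203)))
(.S 0 36224 (.S 1 10624 (.S 2 52448 (.S 0 30720 b0_204
(.S 1 6912 (.S 2 49168 (.S 0 33472 b0_205
b0_206)
b0_207)
b0_208))
(.S 0 30720 b0_209
(.S 1 6912 (.S 2 55728 b0_210
b0_211)
b0_212)))
(.S 2 52448 b0_213
b0_214))
(.S 1 10624 (.S 2 52448 b0_215
(.S 0 41728 (.S 1 6912 (.S 2 55728 (.S 0 38976 b0_216
b0_217)
b0_218)
b0_219)
(.S 1 6912 (.S 2 55728 (.S 0 44480 (.S 1 5056 b0_220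
b0_221)
b0_222)
b0_223)
b0_224)))
(.S 2 52448 b0_225
(.S 0 41728 (.S 1 14336 b0_226
b0_227)
b0_228)))))
(.S 2 45888 (.S 0 36224 (.S 1 25472 b0_229
(.S 2 39328 (.S 0 30720 (.S 1 29184 b0_230
(.S 2 36048 b0_231
b0_232))
(.S 1 29184 (.S 2 36048 b0_233
b0_234)
b0_235))
(.S 0 30720 b0_236
(.S 1 29184 (.S 2 42608 (.S 0 33472 b0_237
b0_238)
b0_239)
b0_240))))
b0_241)
(.S 0 36224 (.S 1 25472 b0_242
(.S 2 52448 (.S 0 30720 b0_243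
b0_244)
(.S 0 30720 (.S 1 29184 (.S 2 55728 (.S 0 27968 b0_245
b0_246)
b0_247)
(.S 2 55728 (.S 0 27968 .B
(.S 1 31040 (.L 0 975684998844915712753264260696696940199575585 0)
.B))
.B))
b0_248)))
b0_249)))))

/-- The region, equal orientations. -/
noncomputable def tr1 : Tree :=
(.S 2 32768 (.S 1 18048 (.S 2 19648 (.S 0 34432 (.S 1 10624 .B
(.S 2 13088 (.S 0 28032 .B
(.S 1 14336 .B
(.S 2 9808 .B
(.S 0 31232 b1_250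
b1_251))))
b1_252))
(.S 1 10624 .B
(.S 2 13088 (.S 0 40832 b1_253
b1_254)
b1_255)))
(.S 0 34432 (.S 1 10624 .B
(.S 2 26208 b1_256
(.S 0 28032 .B
(.S 1 14336 .B
(.S 2 29488 b1_257
(.S 0 31232 (.S 1 16192 .B
(.L 0 910000179423738053205560016735247910343017506 0))
(.S 1 16192 (.S 2 31128 b1_258
b1_259)
b1_260)))))))
(.S 1 10624 .B
(.S 2 26208 b1_261
(.S 0 40832 (.S 1 14336 b1_262
(.S 2 29488 b1_263
(.S 0 37632 (.S 1 16192 (.S 2 31128 (.S 0 36032 b1_264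
b1_265)
(.S 0 36032 b1_266
(.S 1 15264 (.S 2 31948 b1_267
b1_268)
b1_269)))
b1_270)
b1_271)))
(.S 1 14336 (.S 2 29488 (.S 0 44032 (.S 1 12480 b1_272
b1_273)
.B)
(.S 0 44032 (.S 1 12480 b1_274
b1_275)
.B))
(.S 2 29488 b1_276
b1_277)))))))
(.S 2 19648 (.S 0 34432 (.S 1 25472 (.S 2 13088 (.S 0 28032 (.S 1 21760 b1_278
(.S 2 9808 b1_279
(.S 0 24832 b1_280
(.S 1 23616 b1_281
b1_282))))
(.S 1 21760 (.S 2 9808 b1_283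
(.S 0 31232 b1_284
b1_285))
b1_286))
(.S 0 28032 (.S 1 21760 (.S 2 16368 (.S 0 24832 b1_287
b1_288)
b1_289)
(.S 2 16368 b1_290
b1_291))
b1_292))
(.S 2 13088 b1_293
(.S 0 28032 b1_294
(.S 1 29184 (.S 2 16368 b1_295
(.S 0 31232 (.S 1 27328 b1_296
b1_297)
b1_298))
b1_299))))
b1_300)
(.S 0 34432 (.S 1 25472 (.S 2 26208 (.S 0 28032 (.S 1 21760 b1_301
b1_302)
b1_303)
(.S 0 28032 (.S 1 21760 b1_304
b1_305)
b1_306))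
b1_307)
(.S 1 25472 (.S 2 26208 b1_308
(.S 0 40832 (.S 1 21760 b1_309
b1_310)
b1_311))
.B))))
(.S 1 18048 (.S 2 45888 b1_312
(.S 0 34432 b1_313
b1_314))
(.S 2 45888 (.S 0 34432 (.S 1 25472 b1_315
b1_316)
b1_317)
(.S 0 34432 (.S 1 25472 b1_318
b1_319)
b1_320))))

end CF3
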